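import Pool.Agent.Run7.h866.ZP.Poly

/-!
Monic polynomials over a number field of bounded degree whose values at many points are units (helper
file).
-/

set_option autoImplicit false

namespace Pool.Agent.Run7.h866.ZP

open Polynomial NumberField Pool.Agent.N449.SP

/-- the linear relation between the values of a monic polynomial of degree `e` at `e + 1` points -/
theorem rel_values_monic {L : Type*} [Field L] {e : ℕ} (x : Fin (e + 1) → L)
    (hx : Function.Injective x) (P : L[X]) (hP : P.Monic) (hPe : P.natDegree = e) :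
    ∑ i, Lagrange.nodalWeight Finset.univ x i * P.eval (x i) = 1 := by
  classical
  have hinj : Set.InjOn x (Finset.univ : Finset (Fin (e + 1))) := hx.injOn
  have hcard : (Finset.univ : Finset (Fin (e + 1))).card = e + 1 := by simp
  have hdeg : P.degree < ((Finset.univ : Finset (Fin (e + 1))).card : WithBot ℕ) := by
    rw [hcard]
    refine lt_of_le_of_lt Polynomial.degree_le_natDegree ?_
    exact_mod_cast Nat.lt_of_le_of_lt hPe.le (by omega)
  have h1 := Lagrange.coeff_eq_sum hinj hdeg
  rw [hcard] at h1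
  have h2 : P.coeff (e + 1 - 1) = 1 := by
    rw [Nat.add_sub_cancel, ← hPe]
    exact hP
  rw [h2] at h1
  rw [h1]
  refine Finset.sum_congr rfl fun i _ => ?_
  rw [Lagrange.nodalWeight, div_eq_mul_inv, mul_comm, Finset.prod_inv_distrib]

/-- Monic polynomials of degree `e` whose values at `2 e` points are units are finite in number. -/
theorem finite_poly_monic {L : Type} [Field L] [NumberField L] (Γ : Subgroup Lˣ) (hΓ : Γ.FG)
    (e : ℕ) (x : Fin (2 * e) → L) (hx : Function.Injective x) :
    {G : L[X] | G.Monic ∧ G.natDegree = e ∧ ∀ i, ∃ u ∈ Γ, (u : L) = G.eval (x i)}.Finite := by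
  classical
  have hS : ∀ h : Fin (e + 1) ↪ Fin (2 * e), ∃ R : Finset L, ∀ u : Fin (e + 2) → Lˣ,
      (∀ i, u i ∈ Γ) →
      ∑ i, (Fin.cons (-1) (Lagrange.nodalWeight Finset.univ (fun i => x (h i))) :
        Fin (e + 2) → L) i * (u i : L) = 0 →
      ∃ j, j ≠ 0 ∧ (u 0 : L) / u j ∈ R := by
    intro h
    refine partner_all Γ hΓ _ (fun i => ?_) 0
    refine Fin.cases ?_ (fun i => ?_) i
    · simp
    · rw [Fin.cons_succ]
      exact Lagrange.nodalWeight_ne_zero (hx.comp h.injective).injOn (Finset.mem_univ i)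
  choose H hH using hS
  let F : Finset L := insert 1 (Finset.univ.biUnion H)
  -- the polynomials
  let 𝒢 : Set L[X] := Set.range (fun sq : Finset (Fin (2 * e)) × (Fin (2 * e) → F) =>
    Lagrange.nodal sq.1 x + Lagrange.interpolate sq.1 x (fun i => (sq.2 i : L)⁻¹))
  have h𝒢 : 𝒢.Finite := Set.finite_range _
  refine h𝒢.subset ?_
  rintro G ⟨hGm, hGe, hGu⟩
  choose u huΓ hu using hGu
  -- the values in the finite set
  let Nb : Finset (Fin (2 * e)) := Finset.univ.filter fun i => ((u i : L))⁻¹ ∈ F
  have hNb : e ≤ Nb.card := by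
    by_contra hlt
    push Not at hlt
    let Nc : Finset (Fin (2 * e)) := Finset.univ.filter fun i => ¬ ((u i : L))⁻¹ ∈ F
    have hcard : Nb.card + Nc.card = 2 * e := by
      have h1 := Finset.card_filter_add_card_filter_not
        (s := (Finset.univ : Finset (Fin (2 * e)))) (fun i => ((u i : L))⁻¹ ∈ F)
      rw [Finset.card_univ, Fintype.card_fin] at h1
      exact h1
    obtain ⟨S, hS, hSc⟩ := Finset.exists_subset_card_eq (s := Nc) (n := e + 1) (by omega)
    let h : Fin (e + 1) ↪ Fin (2 * e) := (S.orderEmbOfFin hSc).toEmbedding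
    have hhS : ∀ i, h i ∈ S := fun i => Finset.orderEmbOfFin_mem S hSc i
    obtain ⟨j, hj0, hj1⟩ := hH h (Fin.cons 1 (fun i => u (h i))) (fun i => by
      refine Fin.cases ?_ (fun i => ?_) i
      · rw [Fin.cons_zero]
        exact one_mem _
      · rw [Fin.cons_succ]
        exact huΓ _) (by
      have h1 := rel_values_monic (fun i => x (h i)) (hx.comp h.injective) G hGm hGe
      rw [Fin.sum_univ_succ]
      simp only [Fin.cons_zero, Fin.cons_succ, Units.val_one]
      have h2 : ∑ i, Lagrange.nodalWeight Finset.univ (fun i => x (h i)) i * (u (h i) : L) = 1 := by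
        rw [← h1]
        refine Finset.sum_congr rfl fun i _ => ?_
        rw [hu (h i)]
      rw [h2]
      ring)
    obtain ⟨j', rfl⟩ := Fin.exists_succ_eq.2 hj0
    simp only [Fin.cons_zero, Fin.cons_succ, Units.val_one, one_div] at hj1
    refine (Finset.mem_filter.1 (hS (hhS j'))).2 ?_
    exact Finset.mem_insert_of_mem (Finset.mem_biUnion.2 ⟨h, Finset.mem_univ _, hj1⟩)
  obtain ⟨s, hs, hsc⟩ := Finset.exists_subset_card_eq hNb
  let q : Fin (2 * e) → F := fun i =>
    if h : i ∈ s then ⟨((u i : L))⁻¹, (Finset.mem_filter.1 (hs h)).2⟩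
      else ⟨1, Finset.mem_insert_self _ _⟩
  refine ⟨(s, q), ?_⟩
  have hG1 : G - Lagrange.nodal s x = Lagrange.interpolate s x (fun i => (q i : L)⁻¹) := by
    refine Lagrange.eq_interpolate_of_eval_eq _ hx.injOn ?_ ?_
    · have h1 : (Lagrange.nodal s x).degree = (s.card : WithBot ℕ) := Lagrange.degree_nodal
      have h2 : G.degree = (s.card : WithBot ℕ) := by
        rw [Polynomial.degree_eq_natDegree hGm.ne_zero, hGe, hsc]
      refine (Polynomial.degree_sub_lt_left (h2.trans h1.symm) hGm.ne_zero ?_).trans_eq h2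
      rw [hGm.leadingCoeff, (Lagrange.nodal_monic).leadingCoeff]
    · intro i hi
      have h1 : (q i : L) = ((u i : L))⁻¹ := by
        simp only [q, dif_pos hi]
      rw [h1, inv_inv, hu i, Polynomial.eval_sub, Lagrange.eval_nodal_at_node hi, sub_zero]
  show Lagrange.nodal s x + Lagrange.interpolate s x (fun i => (q i : L)⁻¹) = G
  rw [← hG1]
  ring

end Pool.Agent.Run7.h866.ZP
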