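import Pool.Agent.Run7.h866.ZP.Deg
import Pool.Agent.Run7.h866.ZP.PolyInt

/-!
Numbers of bounded degree which are integral over a finitely generated ring, and units of bounded
degree: all but finitely many of them are near to one of `2 d`, respectively `2 d - 1`, given algebraic
numbers (helper file).
-/

set_option autoImplicit false

namespace Pool.Agent.Run7.h866.ZP

open IsDedekindDomain NumberField Pool.Agent.Y910.Z

/-- The roots of the monic polynomials of degree at most `d` with coefficients in the ring generated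
by `F`. -/
def integralAtMost (F : Finset ℂ) (d : ℕ) : Set ℂ :=
  {t | ∃ f : Polynomial ℂ, f.Monic ∧ f.natDegree ≤ d ∧
    (∀ j, f.coeff j ∈ Subring.closure (F : Set ℂ)) ∧ f.eval t = 0}

theorem integralAtMost_subset (F : Finset ℂ) (d : ℕ) : integralAtMost F d ⊆ degreeAtMost F d := by
  rintro t ⟨f, hf, hd, hc, h0⟩
  refine ⟨f, hf.ne_zero, hd, fun j => ?_, h0⟩
  have hle : Subring.closure (F : Set ℂ) ≤ (Subfield.closure (F : Set ℂ)).toSubring :=
    Subring.closure_le.2 Subfield.subset_closure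
  exact hle (hc j)

/-- A root of a monic polynomial with coefficients in a valuation ring is in the valuation ring. -/
theorem mem_of_root (V : ValuationSubring ℂ) (f : Polynomial ℂ) (hf : f.Monic)
    (hc : ∀ j, f.coeff j ∈ V) {t : ℂ} (ht : f.eval t = 0) : t ∈ V := by
  have h1 : f ∈ Polynomial.lifts (algebraMap V ℂ) := by
    rw [Polynomial.lifts_iff_coeff_lifts]
    intro j
    exact ⟨⟨f.coeff j, hc j⟩, rfl⟩
  obtain ⟨g, hg, -, hgm⟩ := Polynomial.lifts_and_natDegree_eq_and_monic h1 hf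
  have h2 : IsIntegral V t := by
    refine ⟨g, hgm, ?_⟩
    rw [← Polynomial.eval_map, hg]
    exact ht
  obtain ⟨y, hy⟩ := (IsIntegrallyClosed.isIntegral_iff (R := V) (K := ℂ)).1 h2
  rw [← hy]
  exact y.2

/-- Finitely many exceptions for integral numbers of bounded degree. -/
theorem finite_bad_integral (F W I : Finset ℂ) (hF : ∀ z ∈ F, IsAlgebraic ℚ z)
    (hW : ∀ z ∈ W, IsAlgebraic ℚ z) (hI : ∀ z ∈ I, IsAlgebraic ℚ z) (d : ℕ)
    (hc : 2 * d ≤ I.card) :
    {t : ℂ | t ∈ integralAtMost F d ∧ ∀ a ∈ I, Bad (W : Set ℂ) t a}.Finite := by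
  classical
  -- the number field
  let X : Finset ℂ := F ∪ W ∪ I
  let L : IntermediateField ℚ ℂ := IntermediateField.adjoin ℚ ((F ∪ W ∪ I : Finset ℂ) : Set ℂ)
  have hfd : FiniteDimensional ℚ L := by
    refine IntermediateField.finiteDimensional_adjoin fun x hx => ?_
    rw [Finset.mem_coe, Finset.mem_union, Finset.mem_union] at hx
    rcases hx with (hx | hx) | hx
    · exact (hF x hx).isIntegral
    · exact (hW x hx).isIntegral
    · exact (hI x hx).isIntegral
  have hnf : NumberField L := ⟨⟩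
  have hsub : ∀ z ∈ F ∪ W ∪ I, z ∈ L := fun z hz => IntermediateField.subset_adjoin _ _ hz
  have hFL : Subring.closure (F : Set ℂ) ≤ L.toSubfield.toSubring := by
    rw [Subring.closure_le]
    intro z hz
    exact hsub z (Finset.mem_union_left _ (Finset.mem_union_left _ hz))
  have hWL : ∀ z ∈ (W : Set ℂ), z ∈ L := fun z hz =>
    hsub z (Finset.mem_union_left _ (Finset.mem_union_right _ hz))
  have hIL : ∀ z ∈ I, z ∈ L := fun z hz => hsub z (Finset.mem_union_right _ hz)
  -- the places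
  let S₁ : Set L := {z | (z : ℂ) ∈ F ∪ W ∪ I}
  have hS₁ : S₁.Finite := by
    have h1 : S₁ = (algebraMap L ℂ) ⁻¹' ((F ∪ W ∪ I : Finset ℂ) : Set ℂ) := rfl
    rw [h1]
    exact (Finset.finite_toSet _).preimage (algebraMap L ℂ).injective.injOn
  let S : Set (HeightOneSpectrum (𝓞 L)) := ⋃ z ∈ S₁, {v | 1 < v.valuation L z}
  have hSfin : S.Finite := Set.Finite.biUnion hS₁ fun z _ =>
    HeightOneSpectrum.Support.finite (𝓞 L) z
  have hΓ := Pool.Agent.H39R3.Tor.sunit_fg L S hSfin
  let xs : ∀ (e : ℕ) (g : Fin (2 * e) ↪ I), Fin (2 * e) → L := fun e g i =>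
    ⟨(g i : ℂ), hIL _ (g i).2⟩
  have hxs : ∀ e g, Function.Injective (xs e g) := by
    intro e g i j h
    have h1 : ((g i : I) : ℂ) = (g j : I) := congrArg (fun z : L => (z : ℂ)) h
    exact g.injective (Subtype.ext h1)
  have hfin := Set.finite_iUnion fun e : Fin (d + 1) => Set.finite_iUnion
    fun g : Fin (2 * (e : ℕ)) ↪ I =>
      (finite_poly_monic (S.unit L) hΓ (e : ℕ) (xs e g) (hxs e g)).biUnion
        (t := fun G => {t : ℂ | Polynomial.aeval t G = 0 ∧ G.Monic})
        (fun G hG => by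
          refine ((G.aroots ℂ).toFinset.finite_toSet).subset ?_
          rintro t ⟨ht, hGm⟩
          rw [Finset.mem_coe, Multiset.mem_toFinset, Polynomial.mem_aroots]
          exact ⟨hGm.ne_zero, ht⟩)
  refine hfin.subset ?_
  rintro t ⟨⟨f, hfm, hfd', hfc, hft⟩, hbad⟩
  -- the minimal polynomial
  obtain ⟨f', hf'⟩ : ∃ f' : Polynomial L, f'.map (algebraMap L ℂ) = f := by
    have h1 : f ∈ Polynomial.lifts (algebraMap L ℂ) := by
      rw [Polynomial.lifts_iff_coeff_lifts]
      intro j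
      exact ⟨⟨f.coeff j, hFL (hfc j)⟩, rfl⟩
    exact (Polynomial.mem_lifts _).1 h1
  have hf'0 : f' ≠ 0 := by
    rintro rfl
    rw [Polynomial.map_zero] at hf'
    exact hfm.ne_zero hf'.symm
  have hf't : Polynomial.aeval t f' = 0 := by
    rw [← Polynomial.eval_map_algebraMap, hf']
    exact hft
  have hti : IsIntegral L t := (show IsAlgebraic L t from ⟨f', hf'0, hf't⟩).isIntegral
  let G := minpoly L t
  have hGm : G.Monic := minpoly.monic hti
  have hGd : G.natDegree ≤ d := by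
    have h1 : f'.natDegree = f.natDegree := by
      rw [← hf', Polynomial.natDegree_map]
    exact (Polynomial.natDegree_le_natDegree (minpoly.degree_le_of_ne_zero L t hf'0 hf't)).trans
      (h1.trans_le hfd')
  -- the values
  have hsplit : (G.map (algebraMap L ℂ)).Splits := IsAlgClosed.splits _
  have hval : ∀ a : L, algebraMap L ℂ (G.eval a) =
      ((G.map (algebraMap L ℂ)).roots.map fun t' => (a : ℂ) - t').prod := by
    intro a
    have h1 : (G.map (algebraMap L ℂ)).eval (a : ℂ) = algebraMap L ℂ (G.eval a) :=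
      Polynomial.eval_map_apply (algebraMap L ℂ) a
    have h2 := Polynomial.Splits.eq_prod_roots_of_monic hsplit (hGm.map _)
    rw [← h1, h2, Polynomial.eval_multiset_prod, Multiset.map_map]
    simp
  have hroot : ∀ t' ∈ (G.map (algebraMap L ℂ)).roots, Polynomial.aeval t' G = 0 := by
    intro t' ht'
    rw [← Polynomial.eval_map_algebraMap]
    exact (Polynomial.mem_roots'.1 ht').2
  have hfroot : ∀ t' ∈ (G.map (algebraMap L ℂ)).roots, f.eval t' = 0 := by
    intro t' ht'
    obtain ⟨H, hH⟩ := minpoly.dvd L t hf't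
    have h1 : Polynomial.aeval t' f' = 0 := by
      rw [hH, map_mul, hroot t' ht', zero_mul]
    rw [← hf', Polynomial.eval_map_algebraMap]
    exact h1
  have hconj : ∀ t' ∈ (G.map (algebraMap L ℂ)).roots, ∀ a ∈ I, Bad (W : Set ℂ) t' a :=
    fun t' ht' a ha => Bad.conj hWL hti (hIL a ha) (hroot t' ht') (hbad a ha)
  have hne : ∀ a : L, (a : ℂ) ∈ I → G.eval a ≠ 0 := by
    intro a ha h0
    have h1 := hval a
    rw [h0, map_zero] at h1
    have h2 := h1.symm
    rw [Multiset.prod_eq_zero_iff, Multiset.mem_map] at h2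
    obtain ⟨t', ht', h3⟩ := h2
    exact (hconj t' ht' _ ha).1 (sub_eq_zero.1 h3).symm
  have hunit : ∀ (V : ValuationSubring ℂ), (∀ z ∈ S₁, (z : ℂ) ∈ V) → ∀ a : L, (a : ℂ) ∈ I →
      ((G.eval a : L) : ℂ) ∈ V ∧ (((G.eval a)⁻¹ : L) : ℂ) ∈ V := by
    intro V hV a ha
    have hXV : ∀ z ∈ F ∪ W ∪ I, z ∈ V := fun z hz => hV ⟨z, hsub z hz⟩ hz
    have hFV : Subring.closure (F : Set ℂ) ≤ V.toSubring := by
      rw [Subring.closure_le]
      intro z hz
      exact hXV z (Finset.mem_union_left _ (Finset.mem_union_left _ hz))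
    have hVa : (a : ℂ) ∈ V := hXV _ (Finset.mem_union_right _ ha)
    have hVt : ∀ t' ∈ (G.map (algebraMap L ℂ)).roots, t' ∈ V := fun t' ht' =>
      mem_of_root V f hfm (fun j => hFV (hfc j)) (hfroot t' ht')
    have h1 : ((G.eval a : L) : ℂ) = ((G.map (algebraMap L ℂ)).roots.map
        fun t' => (a : ℂ) - t').prod := hval a
    refine ⟨?_, ?_⟩
    · rw [h1]
      refine Subring.multiset_prod_mem V.toSubring _ fun z hz => ?_
      obtain ⟨t', ht', rfl⟩ := Multiset.mem_map.1 hz
      exact sub_mem hVa (hVt t' ht')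
    · have h2 : (((G.eval a)⁻¹ : L) : ℂ) = ((G.map (algebraMap L ℂ)).roots.map
          fun t' => ((a : ℂ) - t')⁻¹).prod := by
        rw [Multiset.prod_map_inv, ← h1]
        rfl
      rw [h2]
      refine Subring.multiset_prod_mem V.toSubring _ fun z hz => ?_
      obtain ⟨t', ht', rfl⟩ := Multiset.mem_map.1 hz
      have h3 : ((a : ℂ) - t')⁻¹ = -(t' - a)⁻¹ := by
        rw [← neg_sub t' (a : ℂ), inv_neg]
      rw [h3]
      refine neg_mem ?_
      have hle : Subring.closure (insert t' (W : Set ℂ)) ≤ V.toSubring := by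
        rw [Subring.closure_le]
        rintro z (rfl | hz)
        · exact hVt z ht'
        · exact hXV z (Finset.mem_union_left _ (Finset.mem_union_right _ hz))
      exact hle (hconj t' ht' _ ha).2
  obtain ⟨J, hJ, hJc⟩ := Finset.exists_subset_card_eq (s := I) (n := 2 * G.natDegree) (by omega)
  let g : Fin (2 * G.natDegree) ↪ I :=
    ⟨fun i => ⟨(J.equivFinOfCardEq hJc).symm i, hJ ((J.equivFinOfCardEq hJc).symm i).2⟩, by
      intro i j h
      have h1 : (((J.equivFinOfCardEq hJc).symm i : J) : ℂ) = ((J.equivFinOfCardEq hJc).symm j : J) :=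
        congrArg (fun z : I => (z : ℂ)) h
      exact (J.equivFinOfCardEq hJc).symm.injective (Subtype.ext h1)⟩
  refine Set.mem_iUnion.2 ⟨⟨G.natDegree, by omega⟩, Set.mem_iUnion.2 ⟨g, ?_⟩⟩
  refine Set.mem_biUnion (x := G) ?_ ⟨minpoly.aeval L t, hGm⟩
  refine ⟨hGm, rfl, fun i => ?_⟩
  have hu0 : G.eval (xs _ g i) ≠ 0 := hne _ (g i).2
  refine ⟨Units.mk0 _ hu0, ?_, rfl⟩
  intro v hv
  have hvS : ∀ z ∈ S₁, v.valuation L z ≤ 1 := by
    intro z hz
    by_contra hcon
    exact hv (Set.mem_biUnion hz (not_le.1 hcon))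
  refine le_antisymm ?_ ?_
  · exact val_of_all S₁ _ (fun V hV => (hunit V hV (xs _ g i) (g i).2).1) v hvS
  · have h1 := val_of_all S₁ _ (fun V hV => (hunit V hV (xs _ g i) (g i).2).2) v hvS
    rw [map_inv₀] at h1
    have h3 : v.valuation L (G.eval (xs _ g i)) ≠ 0 := (Valuation.ne_zero_iff _).2 hu0
    exact (inv_le_one₀ (zero_lt_iff.2 h3)).1 h1

/-- the general reduction for sets of algebraic numbers -/
theorem hits_of_algebraic {K : Subfield ℂ} (T : Set ℂ) (hT : ∀ t ∈ T, IsAlgebraic ℚ t)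
    (I : Finset ℂ) (hI : ∀ z ∈ I, IsAlgebraic ℚ z)
    (h : ∀ W : Finset ℂ, (∀ z ∈ W, IsAlgebraic ℚ z) →
      {t : ℂ | t ∈ T ∧ ∀ a ∈ I, Bad (W : Set ℂ) t a}.Finite) : Hits K T I := by
  classical
  intro W hW
  obtain ⟨W₁, hW₁, hbad⟩ := exists_specialization (W ∪ I)
  refine (I.finite_toSet.union (h W₁ hW₁)).subset ?_
  rintro t ⟨ht, hno⟩
  by_cases htI : t ∈ I
  · exact Or.inl htI
  refine Or.inr ⟨ht, fun a ha => ?_⟩
  have hta : IsAlgebraic ℚ t := hT t ht
  refine hbad t a hta (hI a ha) ?_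
  by_contra hb
  refine hno a ha ((near_of_not_bad' ((W ∪ I : Finset ℂ) : Set ℂ) ?_ ?_ ?_ ?_ hb).mono ?_)
  · intro z hz
    rw [Finset.mem_coe, Finset.mem_union] at hz
    rcases hz with hz | hz
    · exact hW z hz
    · exact (hI z hz).tower_top K
  · exact hta.tower_top K
  · rw [Finset.mem_coe]
    exact Finset.mem_union_right _ ha
  · rintro rfl
    exact htI ha
  · intro z hz
    rw [Finset.mem_coe] at hz ⊢
    exact Finset.mem_union_left _ hz

/-- numbers of bounded degree over a number field are algebraic -/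
theorem algebraic_of_degree {F : Finset ℂ} (hF : ∀ z ∈ F, IsAlgebraic ℚ z) {d : ℕ} {t : ℂ}
    (ht : t ∈ degreeAtMost F d) : IsAlgebraic ℚ t := by
  obtain ⟨f, hf0, -, hfc, hft⟩ := ht
  have hle : Subfield.closure (F : Set ℂ) ≤ (algebraicClosure ℚ ℂ).toSubfield := by
    rw [Subfield.closure_le]
    intro z hz
    exact mem_algebraicClosure_iff.2 (hF z hz)
  have h1 : f ∈ Polynomial.lifts (algebraMap (algebraicClosure ℚ ℂ) ℂ) := by
    rw [Polynomial.lifts_iff_coeff_lifts]
    intro j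
    exact ⟨⟨f.coeff j, hle (hfc j)⟩, rfl⟩
  obtain ⟨f', hf'⟩ := (Polynomial.mem_lifts _).1 h1
  have h2 : IsAlgebraic (algebraicClosure ℚ ℂ) t := by
    refine ⟨f', ?_, ?_⟩
    · rintro rfl
      rw [Polynomial.map_zero] at hf'
      exact hf0 hf'.symm
    · rw [← Polynomial.eval_map_algebraMap, hf']
      exact hft
  have h3 : Algebra.IsAlgebraic ℚ (algebraicClosure ℚ ℂ) := algebraicClosure.isAlgebraic ℚ ℂ
  exact h2.restrictScalars ℚ

/-- Integral numbers of bounded degree. -/
theorem hits_integral {K : Subfield ℂ} (F : Finset ℂ) (hF : ∀ z ∈ F, IsAlgebraic ℚ z)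
    (I : Finset ℂ) (hI : ∀ z ∈ I, IsAlgebraic ℚ z) (d : ℕ) (hc : 2 * d ≤ I.card) :
    Hits K (integralAtMost F d) I :=
  hits_of_algebraic _ (fun _ ht => algebraic_of_degree hF (integralAtMost_subset F d ht)) I hI
    fun W hW => finite_bad_integral F W I hF hW hI d hc

/-- The inverse of an algebraic unit. -/
theorem bad_zero {F : Finset ℂ} {d : ℕ} {t : ℂ} (ht0 : t ≠ 0) (ht : t⁻¹ ∈ integralAtMost F d)
    {W : Set ℂ} (hW : (F : Set ℂ) ⊆ W) : Bad W t 0 := by
  refine ⟨ht0, ?_⟩
  rw [sub_zero]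
  obtain ⟨f, hfm, -, hfc, hft⟩ := ht
  have hn : f.natDegree ≠ 0 := by
    intro h
    have h1 : f = 1 := hfm.natDegree_eq_zero.1 h
    rw [h1, Polynomial.eval_one] at hft
    exact one_ne_zero hft
  obtain ⟨n, hn'⟩ : ∃ n, f.natDegree = n + 1 := ⟨f.natDegree - 1, by omega⟩
  have h1 : t⁻¹ = -∑ i ∈ Finset.range (n + 1), f.coeff i * t ^ (n - i) := by
    rw [Polynomial.eval_eq_sum_range, hn', Finset.sum_range_succ] at hft
    have h2 : f.coeff (n + 1) = 1 := by
      rw [← hn']
      exact hfm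
    rw [h2, one_mul] at hft
    have h3 : t⁻¹ ^ (n + 1) * t ^ n = t⁻¹ := by
      rw [pow_succ, mul_right_comm, ← mul_pow, inv_mul_cancel₀ ht0, one_pow, one_mul]
    have h4 : (∑ i ∈ Finset.range (n + 1), f.coeff i * t⁻¹ ^ i) * t ^ n =
        ∑ i ∈ Finset.range (n + 1), f.coeff i * t ^ (n - i) := by
      rw [Finset.sum_mul]
      refine Finset.sum_congr rfl fun i hi => ?_
      have h5 : i ≤ n := Nat.lt_succ_iff.1 (Finset.mem_range.1 hi)
      have h6 : t ^ n = t ^ i * t ^ (n - i) := by rw [← pow_add, Nat.add_sub_cancel' h5]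
      rw [h6, mul_assoc, ← mul_assoc (t⁻¹ ^ i), ← mul_pow, inv_mul_cancel₀ ht0, one_pow, one_mul]
    have h5 := congrArg (fun z => z * t ^ n) hft
    simp only [add_mul, zero_mul] at h5
    rw [h3, h4] at h5
    linear_combination h5
  rw [h1]
  refine neg_mem (sum_mem fun i _ => mul_mem ?_ (pow_mem (Subring.subset_closure
    (Set.mem_insert _ _)) _))
  exact Subring.closure_mono (hW.trans (Set.subset_insert _ _)) (hfc i)

/-- Units of bounded degree. -/
theorem hits_units_degree {K : Subfield ℂ} (F : Finset ℂ) (hF : ∀ z ∈ F, IsAlgebraic ℚ z)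
    (I : Finset ℂ) (hI : ∀ z ∈ I, IsAlgebraic ℚ z) (d : ℕ) (hc : 2 * d ≤ (I.erase 0).card + 1) :
    Hits K {t | t ≠ 0 ∧ t ∈ integralAtMost F d ∧ t⁻¹ ∈ integralAtMost F d} I := by
  classical
  refine hits_of_algebraic _ (fun _ ht => algebraic_of_degree hF (integralAtMost_subset F d ht.2.1))
    I hI fun W hW => ?_
  have hI' : ∀ z ∈ insert 0 (I.erase 0), IsAlgebraic ℚ z := by
    intro z hz
    rcases Finset.mem_insert.1 hz with rfl | hz
    · exact isAlgebraic_zero
    · exact hI z (Finset.mem_of_mem_erase hz)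
  have hWF : ∀ z ∈ W ∪ F, IsAlgebraic ℚ z := by
    intro z hz
    rcases Finset.mem_union.1 hz with hz | hz
    · exact hW z hz
    · exact hF z hz
  refine (finite_bad_integral F (W ∪ F) (insert 0 (I.erase 0)) hF hWF hI' d ?_).subset ?_
  · rw [Finset.card_insert_of_notMem (Finset.notMem_erase _ _)]
    exact hc
  · rintro t ⟨⟨ht0, ht1, ht2⟩, hbad⟩
    refine ⟨ht1, fun a ha => ?_⟩
    rcases Finset.mem_insert.1 ha with rfl | ha
    · refine bad_zero ht0 ht2 ?_
      intro z hz
      rw [Finset.mem_coe] at hz ⊢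
      exact Finset.mem_union_right _ hz
    · refine (hbad a (Finset.mem_of_mem_erase ha)).mono ?_
      intro z hz
      rw [Finset.mem_coe] at hz ⊢
      exact Finset.mem_union_left _ hz

end Pool.Agent.Run7.h866.ZP
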