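import Pool.Agent.Run7.h866.ZP.Orb
import Pool.Agent.Run7.h383.MO.One

/-!
Sets of values of rational functions, and of composites of rational functions on the projective line
(helper file).
-/

set_option autoImplicit false

namespace Pool.Agent.Run7.h866.ZP

open Run7.h383.MO (Maps Value wp value_iff)

/-- The values of one rational function. -/
theorem hits_value {K : Subfield ℂ} {P Q : Polynomial ℂ} (hP : ∀ j, IsAlgebraic K (P.coeff j))
    (hQ : ∀ j, IsAlgebraic K (Q.coeff j)) {I J : Finset ℂ}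
    (hJ : ∀ β ∈ J, IsAlgebraic K β ∧ ∃ α ∈ I, IsValue P Q β α) {S : Set ℂ} (h : Hits K S J) :
    Hits K {t | ∃ s ∈ S, IsValue P Q s t} I := by
  have h1 : IsPreimageSet K (l := 1) (fun _ => P) (fun _ => Q) [0] I J := by
    intro β hβ
    obtain ⟨h2, α, hα, h3⟩ := hJ β hβ
    exact ⟨h2, α, hα, β, rfl, h3⟩
  refine (hits_word (fun _ => hP) (fun _ => hQ) [0] h1 h).mono ?_ subset_rfl
  rintro t ⟨s, hs, h2⟩
  exact ⟨s, hs, s, rfl, h2⟩

theorem value_iff' {K : Subfield ℂ} {r : ℕ} (Φ : Maps K r) (w : List (Fin r)) (s t : ℂ) :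
    Value Φ w s t ↔ Polynomial.aeval s (wp Φ w).2 ≠ 0 ∧
      Polynomial.aeval s (wp Φ w).1 / Polynomial.aeval s (wp Φ w).2 = t :=
  value_iff Φ w s t

/-- `Value` in terms of `IsValue`. -/
theorem value_iff_isValue {K : Subfield ℂ} {r : ℕ} (Φ : Maps K r) (w : List (Fin r)) (s t : ℂ) :
    Value Φ w s t ↔ IsValue ((wp Φ w).1.map (algebraMap K ℂ)) ((wp Φ w).2.map (algebraMap K ℂ))
      s t := by
  rw [value_iff', IsValue, Polynomial.eval_map_algebraMap, Polynomial.eval_map_algebraMap]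
  constructor
  · rintro ⟨h1, h2⟩
    exact ⟨h1, ((div_eq_iff h1).1 h2).symm⟩
  · rintro ⟨h1, h2⟩
    exact ⟨h1, (div_eq_iff h1).2 h2.symm⟩

/-- Preimages of algebraic numbers are algebraic if their number is finite. -/
theorem value_algebraic {K : Subfield ℂ} {r : ℕ} (Φ : Maps K r) (w : List (Fin r)) {α : ℂ}
    (hα : IsAlgebraic K α) (hfin : {s : ℂ | Value Φ w s α}.Finite) {s : ℂ}
    (hs : Value Φ w s α) : IsAlgebraic K s := by
  by_contra hcon
  have hst : Transcendental K s := hcon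
  have hst' : Transcendental (algebraicClosure K ℂ) s := fun h => hst (by
    have hcl : Algebra.IsAlgebraic K (algebraicClosure K ℂ) :=
      (inferInstance : IsAlgClosure K (algebraicClosure K ℂ)).isAlgebraic
    exact h.restrictScalars K)
  let a : algebraicClosure K ℂ := ⟨α, mem_algebraicClosure_iff.2 hα⟩
  let G : Polynomial (algebraicClosure K ℂ) :=
    (wp Φ w).1.map (algebraMap K (algebraicClosure K ℂ)) -
      Polynomial.C a * (wp Φ w).2.map (algebraMap K (algebraicClosure K ℂ))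
  have hG : ∀ z : ℂ, Polynomial.aeval z G = Polynomial.aeval z (wp Φ w).1 -
      α * Polynomial.aeval z (wp Φ w).2 := by
    intro z
    simp only [G, map_sub, map_mul, Polynomial.aeval_C, Polynomial.aeval_map_algebraMap]
    rfl
  have hs' := (value_iff' Φ w s α).1 hs
  have hG0 : G = 0 := by
    apply (transcendental_iff_injective.1 hst')
    rw [map_zero, hG, ← hs'.2, div_mul_cancel₀ _ hs'.1, sub_self]
  have hall : ∀ z : ℂ, Polynomial.aeval z (wp Φ w).2 ≠ 0 → Value Φ w z α := by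
    intro z hz
    rw [value_iff']
    refine ⟨hz, (div_eq_iff hz).2 ?_⟩
    have h1 := hG z
    rw [hG0, map_zero] at h1
    exact sub_eq_zero.1 h1.symm
  have hQ0 : (wp Φ w).2 ≠ 0 := by
    intro h
    apply hs'.1
    rw [h, map_zero]
  have hroots : {z : ℂ | Polynomial.aeval z (wp Φ w).2 = 0}.Finite := by
    refine (((wp Φ w).2.aroots ℂ).toFinset.finite_toSet).subset ?_
    intro z hz
    rw [Finset.mem_coe, Multiset.mem_toFinset, Polynomial.mem_aroots]
    exact ⟨hQ0, hz⟩
  refine Set.infinite_univ (α := ℂ) ((hfin.union hroots).subset fun z _ => ?_)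
  by_cases hz : Polynomial.aeval z (wp Φ w).2 = 0
  · exact Or.inr hz
  · exact Or.inl (hall z hz)

/-- The values of a word at the elements of a finitely generated field. -/
theorem hits_wordP {K : Subfield ℂ} {r : ℕ} (Φ : Maps K r) (w : List (Fin r)) {I : Finset ℂ}
    (hI : ∀ α ∈ I, IsAlgebraic K α)
    (h3 : 3 ≤ {s : ℂ | ∃ α ∈ I, Value Φ w s α}.ncard) (F : Finset ℂ)
    (hF : ∀ z ∈ F, IsAlgebraic K z) :
    Hits K {t | ∃ s ∈ Subfield.closure (F : Set ℂ), Value Φ w s t} I := by
  classical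
  have hfin : {s : ℂ | ∃ α ∈ I, Value Φ w s α}.Finite := Set.finite_of_ncard_pos (by omega)
  let J : Finset ℂ := hfin.toFinset
  have hJ : ∀ β ∈ J, IsAlgebraic K β ∧ ∃ α ∈ I, IsValue ((wp Φ w).1.map (algebraMap K ℂ))
      ((wp Φ w).2.map (algebraMap K ℂ)) β α := by
    intro β hβ
    obtain ⟨α, hα, h1⟩ := (Set.Finite.mem_toFinset hfin).1 hβ
    refine ⟨value_algebraic Φ w (hI α hα) (hfin.subset fun s hs => ⟨α, hα, hs⟩) h1, α, hα,
      (value_iff_isValue Φ w β α).1 h1⟩
  have halg : ∀ (p : Polynomial K) (j : ℕ), IsAlgebraic K ((p.map (algebraMap K ℂ)).coeff j) := by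
    intro p j
    rw [Polynomial.coeff_map]
    exact isAlgebraic_algebraMap _
  have h4 := hits_value (halg (wp Φ w).1) (halg (wp Φ w).2) hJ
    (hits_field F hF J (fun β hβ => (hJ β hβ).1) (by
      rw [← Set.ncard_eq_toFinset_card _ hfin]
      exact h3))
  refine h4.mono ?_ subset_rfl
  rintro t ⟨s, hs, h5⟩
  exact ⟨s, hs, (value_iff_isValue Φ w s t).1 h5⟩

end Pool.Agent.Run7.h866.ZP
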