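import Pool.Agent.Run7.h866.ZP.Val

/-!
Iterates of one rational function: all but finitely many elements of the iterated images of a finitely
generated field are near to a given number with infinite backward orbit (helper file).
-/

set_option autoImplicit false

namespace Pool.Agent.Run7.h866.ZP

open Run7.h383.MO (Maps Value form act preV exists_length orbits_abs orbit_abs)

/-- The rational function `p / q` on the projective line, in homogeneous coordinates. -/
noncomputable def step {K : Subfield ℂ} (p q : Polynomial K) (z : ℂ × ℂ) : ℂ × ℂ :=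
  (form p (max p.natDegree q.natDegree) z, form q (max p.natDegree q.natDegree) z)

/-- The `ν`-th iterate of `p / q` on the projective line has the finite value `t` at `s`. -/
def IterValue {K : Subfield ℂ} (p q : Polynomial K) (ν : ℕ) (s t : ℂ) : Prop :=
  ((step p q)^[ν] (s, 1)).2 ≠ 0 ∧ ((step p q)^[ν] (s, 1)).1 / ((step p q)^[ν] (s, 1)).2 = t

/-- one function as a semigroup -/
noncomputable def one {K : Subfield ℂ} (p q : Polynomial K) : Maps K 1 where
  P _ := p
  Q _ := q
  e _ := max p.natDegree q.natDegree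
  degP _ := le_max_left _ _
  degQ _ := le_max_right _ _

theorem act_one {K : Subfield ℂ} (p q : Polynomial K) (w : List (Fin 1)) (z : ℂ × ℂ) :
    act (one p q) w z = (step p q)^[w.length] z := by
  induction w with
  | nil => rfl
  | cons i w ih =>
    rw [List.length_cons, Function.iterate_succ_apply', ← ih]
    rfl

theorem value_one {K : Subfield ℂ} (p q : Polynomial K) (w : List (Fin 1)) (s t : ℂ) :
    Value (one p q) w s t ↔ IterValue p q w.length s t := by
  unfold Value IterValue
  rw [act_one]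

/-- The master theorem for iterates: reduction to sets of values of words of a fixed length. -/
theorem iterates {K : Subfield ℂ} (p q : Polynomial K) (hpq : IsCoprime p q)
    (he : 2 ≤ max p.natDegree q.natDegree) (D : Finset ℂ) (hDalg : ∀ α ∈ D, IsAlgebraic K α)
    (hD : ∀ α ∈ D, {s : ℂ | ∃ ν, IterValue p q ν s α}.Infinite) (Bad : ℂ → Prop)
    (hfam : ∀ T : Set ℂ, (∀ α ∈ D, Hits K T {α}) → {t : ℂ | t ∈ T ∧ Bad t}.Finite) :
    (∀ t₀ : ℂ, IsAlgebraic K t₀ → {t : ℂ | (∃ ν, IterValue p q ν t₀ t) ∧ Bad t}.Finite) ∧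
    ∃ ρ : ℕ, ∀ F : Finset ℂ, (∀ z ∈ F, IsAlgebraic K z) →
      {t : ℂ | (∃ s ∈ Subfield.closure (F : Set ℂ), ∃ ν, ρ ≤ ν ∧ IterValue p q ν s t) ∧
        Bad t}.Finite := by
  classical
  have hrep : ∀ ν : ℕ, ∃ w : List (Fin 1), w.length = ν := fun ν =>
    ⟨List.replicate ν 0, List.length_replicate⟩
  by_cases hDe : D = ∅
  · -- no condition
    subst hDe
    have h1 : {t : ℂ | t ∈ (Set.univ : Set ℂ) ∧ Bad t}.Finite := hfam Set.univ (by simp)
    refine ⟨fun t₀ _ => h1.subset ?_, 0, fun F _ => h1.subset ?_⟩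
    · rintro t ⟨-, h⟩
      exact ⟨Set.mem_univ _, h⟩
    · rintro t ⟨-, h⟩
      exact ⟨Set.mem_univ _, h⟩
  have hcard : 0 < D.card := Finset.card_pos.2 (Finset.nonempty_iff_ne_empty.2 hDe)
  let e : Fin D.card ≃ D := D.equivFin.symm
  let D' : Fin D.card → Finset ℂ := fun l => {(e l : ℂ)}
  obtain ⟨ρ, hρ⟩ := exists_length (M := D.card) (Φ := one p q) hpq he
    (by
      rcases le_total p.natDegree q.natDegree with h | h
      · exact Or.inr (max_eq_right h).symm
      · exact Or.inl (max_eq_left h).symm) D' (D.card - 1) (by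
      intro I hI
      obtain ⟨l, hl⟩ := Finset.card_pos.1 (show 0 < I.card by omega)
      refine ⟨l, hl, e l, Finset.mem_singleton_self _, ?_⟩
      refine (hD _ (e l).2).mono ?_
      rintro s ⟨ν, hν⟩
      obtain ⟨w, rfl⟩ := hrep ν
      exact ⟨w, (value_one p q w s _).2 hν⟩)
  have hw : ∀ w : List (Fin 1), w.length = ρ → ∀ F : Finset ℂ, (∀ z ∈ F, IsAlgebraic K z) →
      {t : ℂ | (∃ s ∈ Subfield.closure (F : Set ℂ), Value (one p q) w s t) ∧ Bad t}.Finite := by
    intro w hw F hF
    refine hfam {t | ∃ s ∈ Subfield.closure (F : Set ℂ), Value (one p q) w s t} fun α hα => ?_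
    refine hits_wordP (one p q) w (by simpa using hDalg α hα) ?_ F hF
    have h1 := hρ w hw {e.symm ⟨α, hα⟩} (by simp; omega)
    refine h1.trans (le_of_eq ?_)
    congr 1
    ext s
    simp only [preV, D', Set.mem_ofPred_eq, Finset.mem_singleton, exists_eq_left,
      Equiv.apply_symm_apply]
  refine ⟨fun t₀ ht₀ => ?_, ρ, fun F hF => ?_⟩
  · refine (orbit_abs (one p q) ρ Bad hw t₀ ht₀).subset ?_
    rintro t ⟨⟨ν, hν⟩, hb⟩
    obtain ⟨w, rfl⟩ := hrep ν
    exact ⟨⟨w, (value_one p q w t₀ t).2 hν⟩, hb⟩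
  · refine (orbits_abs (one p q) ρ Bad hw F hF).subset ?_
    rintro t ⟨⟨s, hs, ν, hρν, hν⟩, hb⟩
    obtain ⟨w, rfl⟩ := hrep ν
    exact ⟨⟨s, hs, w, hρν, (value_one p q w s t).2 hν⟩, hb⟩

end Pool.Agent.Run7.h866.ZP
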