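import Pool.Agent.R424.TG.Main

/-!
One-parameter families of subsets of `Y(1)^n × G_m^k` and general sets of parameters: the tropical
criterion of `Pool.Agent.R424.TG.Main` for a set `T` of parameters which are near to the degenerate
parameters (helper file).
-/

set_option autoImplicit false

namespace Pool.Agent.Run7.h866.ZP

open H294ZP UpperHalfPlane MvPolynomial Pool.Agent.W282.ZP Pool.Agent.Y152.BD
  Pool.Agent.Y152.RP Pool.Agent.Y152.RP.FamM Pool.Agent.Y910.Z Pool.Agent.R424.TG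
open Pool.Agent.R424.MX (order exists_placeU finite_units)

/-- `t` is near to `α` at a place at which the elements of `W` are integral, and given algebraically
independent numbers are units. -/
def Near (K : Subfield ℂ) (W : Set ℂ) (t α : ℂ) : Prop :=
  ∀ (ρ : Type) (x : ρ → ℂ), AlgebraicIndependent K x → ∃ V : ValuationSubring ℂ,
    V.valuation (t - α) < 1 ∧ (∀ z ∈ W, z ∈ V) ∧ ∀ j, V.valuation (x j) = 1

theorem Near.mono {K : Subfield ℂ} {W W' : Set ℂ} (h : W ⊆ W') {t α : ℂ}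
    (hn : Near K W' t α) : Near K W t α := by
  intro ρ x hx
  obtain ⟨V, h1, h2, h3⟩ := hn ρ x hx
  exact ⟨V, h1, fun z hz => h2 z (h hz), h3⟩

/-- Whatever the finite set `W` is, all but finitely many elements of `T` are near to an element of
`I`. -/
def Hits (K : Subfield ℂ) (T : Set ℂ) (I : Finset ℂ) : Prop :=
  ∀ W : Finset ℂ, (∀ z ∈ W, IsAlgebraic K z) →
    {t : ℂ | t ∈ T ∧ ∀ α ∈ I, ¬ Near K (W : Set ℂ) t α}.Finite

theorem Hits.mono {K : Subfield ℂ} {T T' : Set ℂ} (hT : T ⊆ T') {I J : Finset ℂ} (hI : J ⊆ I)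
    (h : Hits K T' J) : Hits K T I := by
  intro W hW
  refine (h W hW).subset ?_
  rintro t ⟨ht, hno⟩
  exact ⟨hT ht, fun α hα => hno α (hI hα)⟩

theorem Hits.iUnion {K : Subfield ℂ} {ι : Type} [Finite ι] {T : ι → Set ℂ} {I : Finset ℂ}
    (h : ∀ i, Hits K (T i) I) : Hits K (⋃ i, T i) I := by
  intro W hW
  refine (Set.finite_iUnion fun i => h i W hW).subset ?_
  rintro t ⟨ht, hno⟩
  obtain ⟨i, hi⟩ := Set.mem_iUnion.1 ht
  exact Set.mem_iUnion.2 ⟨i, hi, hno⟩

/-- finite sets of algebraic numbers -/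
theorem exists_lift (K : Subfield ℂ) (S : Finset ℂ) (hS : ∀ z ∈ S, IsAlgebraic K z) :
    ∃ S' : Finset (algebraicClosure K ℂ),
      (∀ z : algebraicClosure K ℂ, z ∈ S' ↔ algebraMap (algebraicClosure K ℂ) ℂ z ∈ S) ∧
      algebraMap (algebraicClosure K ℂ) ℂ '' (S' : Set (algebraicClosure K ℂ)) = (S : Set ℂ) := by
  classical
  have hmem : ∀ z ∈ S, z ∈ algebraicClosure K ℂ := fun z hz =>
    mem_algebraicClosure_iff'.2 (hS z hz).isIntegral
  have h1 : ∀ z : algebraicClosure K ℂ,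
      z ∈ (S.attach.image fun z => (⟨z.1, hmem z.1 z.2⟩ : algebraicClosure K ℂ)) ↔
      algebraMap (algebraicClosure K ℂ) ℂ z ∈ S := by
    intro z
    constructor
    · intro hz
      obtain ⟨w, _, hw⟩ := Finset.mem_image.1 hz
      rw [← hw]
      exact w.2
    · intro hz
      exact Finset.mem_image.2 ⟨⟨z.1, hz⟩, Finset.mem_attach _ _, rfl⟩
  refine ⟨S.attach.image fun z => ⟨z.1, hmem z.1 z.2⟩, h1, ?_⟩
  ext z
  constructor
  · rintro ⟨w, hw, rfl⟩
    exact (h1 w).1 hw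
  · intro hz
    exact ⟨⟨z, hmem z hz⟩, (h1 _).2 hz, rfl⟩

/-- **The tropical criterion** for a set `T` of parameters: for every type of special subvarieties of
small dimension there is a set of parameters `α` such that the tropicalizations at `α` have no
compatible point, and such that all but finitely many elements of `T` are near to one of the `α`. -/
theorem family (K : Subfield ℂ) [Countable K] (κ : Type) [Finite κ] (n k₀ N m : ℕ)
    (P : κ → MvPolynomial ((Fin n ⊕ Fin k₀) ⊕ Fin N) (Polynomial K)) (D : Finset ℂ)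
    (hD : ∀ α ∈ D, IsAlgebraic K α) (Γ : Finset ℂ) (hΓ : ∀ γ ∈ Γ, IsAlgebraic K γ) (T : Set ℂ)
    (hgen : ∀ (r : ℕ) (cls : Fin n → Option (Fin r)) (d : Fin n → ℕ)
      (L : Submodule ℚ (Fin k₀ → ℚ)), (∀ i, 0 < d i) → r + Module.finrank ℚ L + m < n + k₀ →
      ∃ I ⊆ D, Hits K T I ∧ ∀ α ∈ I, ∀ w ∈ Trop α P, ¬ Compatible cls d L w) :
    {t : ℂ | t ∈ T ∧
      ¬ NoAtypical (algebraMap (Algebra.adjoin ℤ (Γ : Set ℂ)) ℂ) K m (member t P)}.Finite := by
  classical
  obtain ⟨Γf, -, hΓf⟩ := exists_lift K Γ hΓ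
  obtain ⟨D', hD', hD'im⟩ := exists_lift K D hD
  obtain ⟨W₀, hW₀, hDW, hcore⟩ := core P m D' (Γf : Set (algebraicClosure K ℂ)) Γf.finite_toSet
  rw [hΓf] at hcore
  let W : Finset ℂ := hW₀.toFinset.image (algebraMap (algebraicClosure K ℂ) ℂ)
  have hWalg : ∀ z ∈ W, IsAlgebraic K z := by
    intro z hz
    obtain ⟨w, -, rfl⟩ := Finset.mem_image.1 hz
    exact mem_algebraicClosure_iff.1 w.2
  let U : Finset (Finset ℂ) := D.powerset.filter fun I => Hits K T I
  have hfin : (⋃ I ∈ U, {t : ℂ | t ∈ T ∧ ∀ α ∈ I, ¬ Near K (W : Set ℂ) t α}).Finite :=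
    Set.Finite.biUnion U.finite_toSet fun I hI => (Finset.mem_filter.1 hI).2 W hWalg
  refine (D.finite_toSet.union hfin).subset ?_
  rintro t ⟨ht, ht'⟩
  by_cases htD : t ∈ D
  · exact Or.inl htD
  right
  by_contra hcon
  rw [Set.mem_iUnion₂] at hcon
  apply ht'
  refine noAtypical_of_points K _ (fun x hx => hx.1) ?_
  refine hcore t K le_rfl (fun α hα h => htD (by
    rw [h]
    exact (hD' α).1 hα)) fun r cls d L hd hr => ?_
  obtain ⟨I, hI, hhit, hno⟩ := hgen r cls d L hd hr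
  have h1 : ∃ α ∈ I, Near K (W : Set ℂ) t α := by
    by_contra hc
    push Not at hc
    exact hcon ⟨I, Finset.mem_filter.2 ⟨Finset.mem_powerset.2 hI, hhit⟩, ht, hc⟩
  obtain ⟨α, hα, hnear⟩ := h1
  have h2 : α ∈ algebraMap (algebraicClosure K ℂ) ℂ '' (D' : Set (algebraicClosure K ℂ)) := by
    rw [hD'im]
    exact hI hα
  obtain ⟨α', hα', rfl⟩ := h2
  refine ⟨α', hα', fun ρ x hx => ?_, hno _ hα⟩
  obtain ⟨V, hV1, hV2, hV3⟩ := hnear ρ x hx
  exact ⟨V, hV1, fun z hz => hV2 _ (Finset.mem_coe.2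
    (Finset.mem_image_of_mem _ ((Set.Finite.mem_toFinset hW₀).2 hz))), hV3⟩

end Pool.Agent.Run7.h866.ZP
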