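import Pool.Agent.Run7.h866.ZP.Master
import Pool.Agent.Y152.RP.PlaceM
import Pool.Agent.Y152.RP.FamM
import Pool.Agent.Y152.RP.Main
import Pool.Agent.V1138.BO.Many

/-!
Parameters whose minimal polynomials have values with large prime factors at given rational numbers:
radical numbers, roots of unity, backward orbits (helper file).
-/

set_option autoImplicit false

namespace Pool.Agent.Run7.h866.ZP

open Pool.Agent.Y152.BD
open Pool.Agent.Y152.RP.FamM (ManyPrimes)

theorem hits_of_manyPrimes {K : Subfield ℂ} (T : Set ℂ) {M : ℕ} (α : Fin M → ℚ)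
    (h : ManyPrimes T 1 α) : Hits K T (Finset.univ.image fun l => ((α l : ℚ) : ℂ)) := by
  classical
  intro W hW
  obtain ⟨W', hW', hW'im⟩ := exists_lift K W hW
  have hc0 : CharZero (algebraicClosure K ℂ) := inferInstance
  obtain ⟨D, hD⟩ := Pool.Agent.Y152.RP.exists_valU (fun z : W' => (z : algebraicClosure K ℂ))
  refine (h (D + ∑ l, (α l).den)).subset ?_
  rintro t ⟨ht, hno⟩
  refine ⟨ht, ?_⟩
  rintro ⟨f, -, G, hG, hGt, hp⟩
  obtain ⟨p, hpp, hpD, hdvd⟩ := hp 0
  have hden : ¬ p ∣ (α (f 0)).den := by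
    intro h
    have h1 := Nat.le_of_dvd (α (f 0)).den_pos h
    have h2 : (α (f 0)).den ≤ ∑ l, (α l).den :=
      Finset.single_le_sum (f := fun l => (α l).den) (fun _ _ => Nat.zero_le _)
        (Finset.mem_univ (f 0))
    omega
  refine hno ((α (f 0) : ℚ) : ℂ) (Finset.mem_image_of_mem _ (Finset.mem_univ _)) ?_
  intro ρ x hx
  obtain ⟨V, hV1, hV2, hV3⟩ := hD p hpp (by omega) t G hG hGt (α (f 0)) hden hdvd ρ x
    (hx.extendScalars (algebraicClosure K ℂ))
  refine ⟨V, hV1, fun z hz => ?_, hV3⟩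
  rw [← hW'im] at hz
  obtain ⟨w, hw, rfl⟩ := hz
  exact hV2 ⟨w, hw⟩

/-- Some power of `t` with positive exponent is a rational number. -/
def IsRadical (t : ℂ) : Prop := ∃ N : ℕ, 0 < N ∧ ∃ q : ℚ, t ^ N = (q : ℂ)

/-- `t` is a root of unity. -/
def IsRootOfUnity (t : ℂ) : Prop := ∃ N : ℕ, 0 < N ∧ t ^ N = 1

theorem hits_radical {K : Subfield ℂ} (I : Finset ℚ) (h0 : ∀ α ∈ I, α ≠ 0)
    (habs : ∀ α ∈ I, ∀ β ∈ I, α ≠ β → |α| ≠ |β|) (hc : 3 ≤ I.card) :
    Hits K {t | IsRadical t} (I.image fun α : ℚ => (α : ℂ)) := by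
  classical
  obtain ⟨J, hJ, hJc⟩ := Finset.exists_subset_card_eq hc
  let α : Fin 3 → ℚ := fun l => J.orderEmbOfFin hJc l
  have hαJ : ∀ l, α l ∈ J := fun l => Finset.orderEmbOfFin_mem J hJc l
  have hαi : Function.Injective α := (J.orderEmbOfFin hJc).injective
  have h1 : ManyPrimes {t | IsRadical t} 1 α := fun D =>
    Pool.Agent.Y152.RP.arithMain D 1 3 (by norm_num) α (fun l => h0 _ (hJ (hαJ l)))
      (fun l l' hl => habs _ (hJ (hαJ l)) _ (hJ (hαJ l')) fun h => hl (hαi h))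
  refine (hits_of_manyPrimes _ α h1).mono subset_rfl ?_
  intro z hz
  obtain ⟨l, -, rfl⟩ := Finset.mem_image.1 hz
  exact Finset.mem_image_of_mem _ (hJ (hαJ l))

theorem hits_unity {K : Subfield ℂ} (α : ℚ) (h0 : α ≠ 0) (h1 : |α| ≠ 1) :
    Hits K {t | IsRootOfUnity t} {(α : ℂ)} := by
  classical
  have h2 : ManyPrimes {t | IsRootOfUnity t} 1 (fun _ : Fin 1 => α) := fun D =>
    Pool.Agent.Y152.RP.unityMain le_rfl (fun _ => α) (fun _ => h0) (fun _ => h1) D
  refine (hits_of_manyPrimes _ _ h2).mono subset_rfl ?_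
  intro z hz
  obtain ⟨l, -, rfl⟩ := Finset.mem_image.1 hz
  exact Finset.mem_singleton_self _

open Pool.Agent.V1138.BO (cmp act)

/-- `t` is in the backward orbit of the roots of `g` under the semigroup generated by the
polynomials `φ i`: `g (φ_{i_1} (… (φ_{i_m} (t)))) = 0` for some word `i_1 … i_m`. -/
def InBackwardOrbit {r : ℕ} (φ : Fin r → Polynomial ℤ) (g : Polynomial ℤ) (t : ℂ) : Prop :=
  ∃ w : List (Fin r), Polynomial.aeval (act φ w t) g = 0

/-- All composites `g ∘ φ_{i_1} ∘ … ∘ φ_{i_m}` are irreducible, and those with `m = 1` have degree at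
least two. -/
def IrreducibleComposites {r : ℕ} (φ : Fin r → Polynomial ℤ) (g : Polynomial ℤ) : Prop :=
  (∀ w : List (Fin r), Irreducible (cmp φ g w)) ∧ ∀ i, 2 ≤ g.natDegree * (φ i).natDegree

/-- Every number is the image of `α` for only finitely many words. -/
def Wandering {r : ℕ} (φ : Fin r → Polynomial ℤ) (α : ℚ) : Prop :=
  ∀ y : ℚ, {w : List (Fin r) | act φ w α = y}.Finite

theorem hits_backward {K : Subfield ℂ} {r : ℕ} (φ : Fin r → Polynomial ℤ) (g : Polynomial ℤ)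
    (hφ : IrreducibleComposites φ g) (α : ℚ) (hα : Wandering φ α) :
    Hits K {t | InBackwardOrbit φ g t} {(α : ℂ)} := by
  classical
  have h2 : ManyPrimes {t | InBackwardOrbit φ g t} 1 (fun _ : Fin 1 => α) := fun D =>
    Pool.Agent.V1138.BO.finite_badB D le_rfl (fun _ => α) φ g hφ.2 hφ.1 (fun _ => hα)
  refine (hits_of_manyPrimes _ _ h2).mono subset_rfl ?_
  intro z hz
  obtain ⟨l, -, rfl⟩ := Finset.mem_image.1 hz
  exact Finset.mem_singleton_self _

end Pool.Agent.Run7.h866.ZP
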