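import Pool.Agent.Run7.h866.ZP.Deg

/-!
Linear recurrence sequences: all but finitely many terms are near to a given algebraic number (helper
file).
-/

set_option autoImplicit false

namespace Pool.Agent.Run7.h866.ZP

open IsDedekindDomain NumberField Pool.Agent.Y910.Z

/-- `partner_all` for coefficients which may be zero. -/
theorem partner_supp {L : Type} [Field L] [NumberField L] (Γ : Subgroup Lˣ) (hΓ : Γ.FG) {m : ℕ}
    (a : Fin m → L) (i₀ : Fin m) (ha : a i₀ ≠ 0) :
    ∃ R : Finset L, ∀ u : Fin m → Lˣ, (∀ i, u i ∈ Γ) → ∑ i, a i * (u i : L) = 0 →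
      ∃ j, j ≠ i₀ ∧ (u i₀ : L) / u j ∈ R := by
  classical
  let S : Finset (Fin m) := Finset.univ.filter fun i => a i ≠ 0
  let e : Fin S.card ≃ S := S.equivFin.symm
  have hS : ∀ i : S, a i ≠ 0 := fun i => (Finset.mem_filter.1 i.2).2
  obtain ⟨R, hR⟩ := partner_all Γ hΓ (fun i => a (e i)) (fun i => hS _)
    (e.symm ⟨i₀, Finset.mem_filter.2 ⟨Finset.mem_univ _, ha⟩⟩)
  refine ⟨R, fun u hu hsum => ?_⟩
  obtain ⟨j, hj, h1⟩ := hR (fun i => u (e i)) (fun i => hu _) (by
    rw [← hsum]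
    rw [Equiv.sum_comp e (fun i : S => a i * (u i : L))]
    rw [Finset.sum_coe_sort S (fun i => a i * (u i : L))]
    refine Finset.sum_subset (Finset.subset_univ _) fun i _ hi => ?_
    have h2 : a i = 0 := by
      by_contra h
      exact hi (Finset.mem_filter.2 ⟨Finset.mem_univ _, h⟩)
    rw [h2, zero_mul])
  refine ⟨e j, fun h => hj ?_, ?_⟩
  · rw [← e.symm_apply_apply j]
    congr 1
    exact Subtype.ext h
  · rw [Equiv.apply_symm_apply] at h1
    exact h1

/-- The zeros of a nondegenerate sum of exponentials. -/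
theorem finite_zeros {L : Type} [Field L] [NumberField L] {m : ℕ} (lam : Fin m → Lˣ)
    (hlam : ∀ i j, i ≠ j → ∀ s : ℕ, 0 < s → lam i ^ s ≠ lam j ^ s) (a : Fin m → L) (i₀ : Fin m)
    (ha : a i₀ ≠ 0) : {n : ℤ | ∑ i, a i * ((lam i ^ n : Lˣ) : L) = 0}.Finite := by
  classical
  have hfg : (Subgroup.closure (Set.range lam)).FG := ⟨Finset.univ.image lam, by simp⟩
  obtain ⟨R, hR⟩ := partner_supp (Subgroup.closure (Set.range lam)) hfg a i₀ ha
  have hsub : ∀ j, j ≠ i₀ → ∀ ρ : L,
      {n : ℤ | ((lam i₀ ^ n : Lˣ) : L) / ((lam j ^ n : Lˣ) : L) = ρ}.Subsingleton := by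
    intro j hj ρ n hn n' hn'
    by_contra hne
    have key : ∀ n n' : ℤ, n < n' →
        ((lam i₀ ^ n : Lˣ) : L) / ((lam j ^ n : Lˣ) : L) =
        ((lam i₀ ^ n' : Lˣ) : L) / ((lam j ^ n' : Lˣ) : L) → False := by
      intro n n' hlt h
      have h1 : (lam i₀ ^ n / lam j ^ n : Lˣ) = (lam i₀ ^ n' / lam j ^ n' : Lˣ) := by
        apply Units.ext
        rw [Units.val_div_eq_div_val, Units.val_div_eq_div_val]
        exact h
      obtain ⟨s, hs⟩ : ∃ s : ℕ, n' = n + s := ⟨(n' - n).toNat, by omega⟩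
      have hs0 : 0 < s := by omega
      rw [hs, zpow_add, zpow_add, zpow_natCast, zpow_natCast, mul_div_mul_comm] at h1
      have h2 : lam i₀ ^ s / lam j ^ s = 1 := by
        have h3 := h1.symm
        rwa [mul_eq_left] at h3
      exact hlam i₀ j hj.symm s hs0 (div_eq_one.1 h2)
    have h1 : ((lam i₀ ^ n : Lˣ) : L) / ((lam j ^ n : Lˣ) : L) =
        ((lam i₀ ^ n' : Lˣ) : L) / ((lam j ^ n' : Lˣ) : L) := by
      rw [show ((lam i₀ ^ n : Lˣ) : L) / ((lam j ^ n : Lˣ) : L) = ρ from hn,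
        show ((lam i₀ ^ n' : Lˣ) : L) / ((lam j ^ n' : Lˣ) : L) = ρ from hn']
    rcases lt_or_gt_of_ne hne with h | h
    · exact key n n' h h1
    · exact key n' n h h1.symm
  have hfin : (⋃ j ∈ (Finset.univ.erase i₀ : Finset (Fin m)), ⋃ ρ ∈ R,
      {n : ℤ | ((lam i₀ ^ n : Lˣ) : L) / ((lam j ^ n : Lˣ) : L) = ρ}).Finite := by
    refine Set.Finite.biUnion (Finset.finite_toSet _) fun j hj => ?_
    refine Set.Finite.biUnion (Finset.finite_toSet _) fun ρ _ => ?_
    exact (hsub j (Finset.ne_of_mem_erase hj) ρ).finite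
  refine hfin.subset ?_
  intro n hn
  obtain ⟨j, hj, h1⟩ := hR (fun i => lam i ^ n)
    (fun i => Subgroup.zpow_mem _ (Subgroup.subset_closure (Set.mem_range_self i)) n) hn
  exact Set.mem_biUnion (Finset.mem_coe.2 (Finset.mem_erase.2 ⟨hj, Finset.mem_univ _⟩))
    (Set.mem_biUnion (Finset.mem_coe.2 h1) rfl)

/-- A nondegenerate sum of at least two exponentials is a unit only finitely often. -/
theorem finite_unit_values {L : Type} [Field L] [NumberField L] (Γ : Subgroup Lˣ) (hΓ : Γ.FG)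
    {m : ℕ} (hm : 2 ≤ m) (lam : Fin m → Lˣ)
    (hlam : ∀ i j, i ≠ j → ∀ s : ℕ, 0 < s → lam i ^ s ≠ lam j ^ s) (a : Fin m → L)
    (ha : ∀ i, a i ≠ 0) :
    {n : ℤ | ∃ v ∈ Γ, ∑ i, a i * ((lam i ^ n : Lˣ) : L) = (v : L)}.Finite := by
  classical
  have hfg : (Γ ⊔ Subgroup.closure (Set.range lam)).FG :=
    hΓ.sup ⟨Finset.univ.image lam, by simp⟩
  obtain ⟨R, hR⟩ := partner_all (Γ ⊔ Subgroup.closure (Set.range lam)) hfg
    (Fin.cons (-1) a : Fin (m + 1) → L) (by
      intro i
      refine Fin.cases ?_ (fun i => ?_) i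
      · simp
      · simpa using ha i) 0
  have hfin : (⋃ j : Fin m, ⋃ ρ ∈ R,
      {n : ℤ | ∑ i, (a i - if i = j then ρ else 0) * ((lam i ^ n : Lˣ) : L) = 0}).Finite := by
    refine Set.finite_iUnion fun j => ?_
    refine Set.Finite.biUnion (Finset.finite_toSet _) fun ρ _ => ?_
    obtain ⟨i₁, hi₁⟩ : ∃ i₁ : Fin m, i₁ ≠ j := by
      have : Nontrivial (Fin m) := Fin.nontrivial_iff_two_le.2 hm
      exact exists_ne j
    exact finite_zeros lam hlam _ i₁ (by
      rw [if_neg hi₁, sub_zero]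
      exact ha i₁)
  refine hfin.subset ?_
  rintro n ⟨v, hv, hsum⟩
  obtain ⟨j, hj, h1⟩ := hR (Fin.cons v (fun i => lam i ^ n)) (by
    intro i
    refine Fin.cases ?_ (fun i => ?_) i
    · exact Subgroup.mem_sup_left hv
    · exact Subgroup.mem_sup_right
        (Subgroup.zpow_mem _ (Subgroup.subset_closure (Set.mem_range_self i)) n)) (by
    rw [Fin.sum_univ_succ]
    simp only [Fin.cons_zero, Fin.cons_succ]
    rw [hsum]
    ring)
  obtain ⟨j', rfl⟩ := Fin.exists_succ_eq.2 hj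
  simp only [Fin.cons_zero, Fin.cons_succ] at h1
  refine Set.mem_iUnion.2 ⟨j', Set.mem_biUnion (Finset.mem_coe.2 h1) ?_⟩
  show ∑ i, (a i - if i = j' then (v : L) / ((lam j' ^ n : Lˣ) : L) else 0) *
    ((lam i ^ n : Lˣ) : L) = 0
  have h2 : ∀ i, (a i - if i = j' then (v : L) / ((lam j' ^ n : Lˣ) : L) else 0) *
      ((lam i ^ n : Lˣ) : L) = a i * ((lam i ^ n : Lˣ) : L) - if i = j' then (v : L) else 0 := by
    intro i
    by_cases h : i = j'
    · rw [if_pos h, if_pos h, h, sub_mul, div_mul_cancel₀ _ (Units.ne_zero _)]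
    · rw [if_neg h, if_neg h, sub_zero, sub_zero]
  rw [Finset.sum_congr rfl fun i _ => h2 i, Finset.sum_sub_distrib, hsum, Finset.sum_ite_eq']
  simp

/-- The term of a linear recurrence sequence with simple roots. -/
noncomputable def term {q : ℕ} (b : ℂ) (c lam : Fin q → ℂ) (n : ℤ) : ℂ :=
  b + ∑ i, c i * lam i ^ n

/-- The data of the sequence in a number field. -/
theorem finite_bad_term {q : ℕ} (b : ℂ) (c lam : Fin q → ℂ) (hb : IsAlgebraic ℚ b)
    (hc : ∀ i, IsAlgebraic ℚ (c i) ∧ c i ≠ 0) (hl : ∀ i, IsAlgebraic ℚ (lam i) ∧ lam i ≠ 0)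
    (h1 : ∀ i, ∀ s : ℕ, 0 < s → lam i ^ s ≠ 1)
    (h2 : ∀ i j, i ≠ j → ∀ s : ℕ, 0 < s → lam i ^ s ≠ lam j ^ s) (α : ℂ) (hα : IsAlgebraic ℚ α)
    (hq : 2 ≤ q ∨ (1 ≤ q ∧ α ≠ b)) (W : Finset ℂ) (hW : ∀ z ∈ W, IsAlgebraic ℚ z) :
    {n : ℤ | term b c lam n = α ∨ Bad (W : Set ℂ) (term b c lam n) α}.Finite := by
  classical
  -- the number field
  let X : Finset ℂ := insert b (insert α (W ∪ (Finset.univ.image c ∪ Finset.univ.image lam)))
  let L : IntermediateField ℚ ℂ := IntermediateField.adjoin ℚ (X : Set ℂ)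
  have hfd : FiniteDimensional ℚ L := by
    refine IntermediateField.finiteDimensional_adjoin fun x hx => ?_
    simp only [X, Finset.coe_insert, Set.mem_insert_iff, Finset.mem_coe, Finset.mem_union,
      Finset.mem_image, Finset.mem_univ, true_and] at hx
    rcases hx with rfl | rfl | hx | ⟨i, rfl⟩ | ⟨i, rfl⟩
    · exact hb.isIntegral
    · exact hα.isIntegral
    · exact (hW x hx).isIntegral
    · exact (hc i).1.isIntegral
    · exact (hl i).1.isIntegral
  have hnf : NumberField L := ⟨⟩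
  have hsub : ∀ z ∈ X, z ∈ L := fun z hz => IntermediateField.subset_adjoin _ _ hz
  have hbL : b ∈ L := hsub b (Finset.mem_insert_self _ _)
  have hαL : α ∈ L := hsub α (Finset.mem_insert_of_mem (Finset.mem_insert_self _ _))
  have hWL : ∀ z ∈ W, z ∈ L := fun z hz => hsub z
    (Finset.mem_insert_of_mem (Finset.mem_insert_of_mem (Finset.mem_union_left _ hz)))
  have hcL : ∀ i, c i ∈ L := fun i => hsub _ (Finset.mem_insert_of_mem
    (Finset.mem_insert_of_mem (Finset.mem_union_right _ (Finset.mem_union_left _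
      (Finset.mem_image_of_mem _ (Finset.mem_univ _))))))
  have hlL : ∀ i, lam i ∈ L := fun i => hsub _ (Finset.mem_insert_of_mem
    (Finset.mem_insert_of_mem (Finset.mem_union_right _ (Finset.mem_union_right _
      (Finset.mem_image_of_mem _ (Finset.mem_univ _))))))
  let lamL : Fin q → Lˣ := fun i => Units.mk0 ⟨lam i, hlL i⟩ (by
    intro h
    exact (hl i).2 (congrArg Subtype.val h))
  let cL : Fin q → L := fun i => ⟨c i, hcL i⟩
  have hcL0 : ∀ i, cL i ≠ 0 := fun i h => (hc i).2 (congrArg Subtype.val h)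
  -- the places
  let S₁ : Set L := {z | (z : ℂ) ∈ X ∨ ∃ i, (z : ℂ) = (lam i)⁻¹}
  have hS₁ : S₁.Finite := by
    have h3 : S₁ = (algebraMap L ℂ) ⁻¹'
        (((X ∪ Finset.univ.image fun i => (lam i)⁻¹ : Finset ℂ)) : Set ℂ) := by
      ext z
      simp only [S₁, Set.mem_ofPred_eq, Finset.coe_union, Set.mem_preimage, Set.mem_union,
        Finset.mem_coe, Finset.mem_image, Finset.mem_univ, true_and]
      refine or_congr Iff.rfl ?_
      constructor
      · rintro ⟨i, hi⟩
        exact ⟨i, hi.symm⟩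
      · rintro ⟨i, hi⟩
        exact ⟨i, hi.symm⟩
    rw [h3]
    exact (Finset.finite_toSet _).preimage (algebraMap L ℂ).injective.injOn
  let S : Set (HeightOneSpectrum (𝓞 L)) := ⋃ z ∈ S₁, {v | 1 < v.valuation L z}
  have hSfin : S.Finite := Set.Finite.biUnion hS₁ fun z _ =>
    HeightOneSpectrum.Support.finite (𝓞 L) z
  have hΓ := Pool.Agent.H39R3.Tor.sunit_fg L S hSfin
  -- the sum of exponentials
  have hterm : ∀ n : ℤ, term b c lam n ∈ L := by
    intro n
    refine add_mem hbL (sum_mem fun i _ => mul_mem (hcL i) ?_)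
    exact zpow_mem (hlL i) n
  have hlamne : ∀ i j, i ≠ j → ∀ s : ℕ, 0 < s → lamL i ^ s ≠ lamL j ^ s := by
    intro i j hij s hs h
    have h3 : ((lamL i ^ s : Lˣ) : L) = ((lamL j ^ s : Lˣ) : L) := congrArg Units.val h
    rw [Units.val_pow_eq_pow_val, Units.val_pow_eq_pow_val] at h3
    exact h2 i j hij s hs (congrArg Subtype.val h3)
  have hlam1 : ∀ i, ∀ s : ℕ, 0 < s → lamL i ^ s ≠ 1 := by
    intro i s hs h
    have h3 : ((lamL i ^ s : Lˣ) : L) = ((1 : Lˣ) : L) := congrArg Units.val h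
    rw [Units.val_pow_eq_pow_val] at h3
    exact h1 i s hs (congrArg Subtype.val h3)
  have hval : ∀ n : ℤ, ((⟨term b c lam n, hterm n⟩ : L) - ⟨α, hαL⟩ : L) =
      ∑ i, cL i * ((lamL i ^ n : Lˣ) : L) + (⟨b, hbL⟩ - ⟨α, hαL⟩ : L) := by
    intro n
    apply (algebraMap L ℂ).injective
    simp only [map_sub, map_add, map_sum, map_mul, Units.val_zpow_eq_zpow_val, map_zpow₀]
    show term b c lam n - α = ∑ i, c i * (lam i) ^ n + (b - α)
    unfold term
    ring
  -- the values are units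
  have hunit : ∀ n : ℤ, Bad (W : Set ℂ) (term b c lam n) α →
      ∃ v ∈ S.unit L, (v : L) = (⟨term b c lam n, hterm n⟩ : L) - ⟨α, hαL⟩ := by
    intro n hbad
    have hne : ((⟨term b c lam n, hterm n⟩ : L) - ⟨α, hαL⟩ : L) ≠ 0 := by
      intro h
      exact hbad.1 (congrArg Subtype.val (sub_eq_zero.1 h))
    refine ⟨Units.mk0 _ hne, ?_, rfl⟩
    intro v hv
    have hvS : ∀ z ∈ S₁, v.valuation L z ≤ 1 := by
      intro z hz
      by_contra hcon
      exact hv (Set.mem_biUnion hz (not_le.1 hcon))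
    have hXV : ∀ V : ValuationSubring ℂ, (∀ z ∈ S₁, (z : ℂ) ∈ V) → ∀ z ∈ X, z ∈ V :=
      fun V hV z hz => hV ⟨z, hsub z hz⟩ (Or.inl hz)
    have htV : ∀ V : ValuationSubring ℂ, (∀ z ∈ S₁, (z : ℂ) ∈ V) → term b c lam n ∈ V := by
      intro V hV
      have hX := hXV V hV
      refine add_mem (hX b (Finset.mem_insert_self _ _)) (sum_mem fun i _ => mul_mem
        (hX _ (Finset.mem_insert_of_mem (Finset.mem_insert_of_mem (Finset.mem_union_right _
          (Finset.mem_union_left _ (Finset.mem_image_of_mem _ (Finset.mem_univ _))))))) ?_)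
      have h3 : lam i ∈ V := hX _ (Finset.mem_insert_of_mem (Finset.mem_insert_of_mem
        (Finset.mem_union_right _ (Finset.mem_union_right _
          (Finset.mem_image_of_mem _ (Finset.mem_univ _))))))
      have h4 : (lam i)⁻¹ ∈ V := hV ⟨(lam i)⁻¹, inv_mem (hlL i)⟩ (Or.inr ⟨i, rfl⟩)
      rcases n with n | n
      · rw [Int.ofNat_eq_natCast, zpow_natCast]
        exact pow_mem h3 n
      · rw [zpow_negSucc, ← inv_pow]
        exact pow_mem h4 _
    refine le_antisymm ?_ ?_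
    · refine val_of_all S₁ _ (fun V hV => ?_) v hvS
      exact sub_mem (htV V hV) (hXV V hV α
        (Finset.mem_insert_of_mem (Finset.mem_insert_self _ _)))
    · have h3 := val_of_all S₁ (((⟨term b c lam n, hterm n⟩ : L) - ⟨α, hαL⟩ : L)⁻¹)
        (fun V hV => ?_) v hvS
      · rw [map_inv₀] at h3
        have h4 : v.valuation L ((⟨term b c lam n, hterm n⟩ : L) - ⟨α, hαL⟩ : L) ≠ 0 :=
          (Valuation.ne_zero_iff _).2 hne
        exact (inv_le_one₀ (zero_lt_iff.2 h4)).1 h3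
      · have hle : Subring.closure (insert (term b c lam n) (W : Set ℂ)) ≤ V.toSubring := by
          rw [Subring.closure_le]
          rintro z (rfl | hz)
          · exact htV V hV
          · exact hXV V hV z (Finset.mem_insert_of_mem (Finset.mem_insert_of_mem
              (Finset.mem_union_left _ hz)))
        exact hle hbad.2
  -- the two cases
  have hone : ∀ i : Fin q, ∀ s : ℕ, 0 < s → (lamL i) ^ s ≠ (1 : Lˣ) ^ s := by
    intro i s hs
    rw [one_pow]
    exact hlam1 i s hs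
  by_cases hbα : b = α
  · have hq2 : 2 ≤ q := by
      rcases hq with h | h
      · exact h
      · exact absurd hbα.symm h.2
    have hval' : ∀ n : ℤ, ((⟨term b c lam n, hterm n⟩ : L) - ⟨α, hαL⟩ : L) =
        ∑ i, cL i * ((lamL i ^ n : Lˣ) : L) := by
      intro n
      rw [hval n]
      have h3 : (⟨b, hbL⟩ : L) = ⟨α, hαL⟩ := Subtype.ext hbα
      rw [h3, sub_self, add_zero]
    have hz := finite_zeros lamL hlamne cL ⟨0, by omega⟩ (hcL0 _)
    have hu := finite_unit_values (S.unit L) hΓ hq2 lamL hlamne cL hcL0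
    refine (hz.union hu).subset ?_
    rintro n (hn | hn)
    · left
      show ∑ i, cL i * ((lamL i ^ n : Lˣ) : L) = 0
      rw [← hval', sub_eq_zero]
      exact Subtype.ext hn
    · right
      obtain ⟨v, hv, hvn⟩ := hunit n hn
      exact ⟨v, hv, by rw [hvn, hval']⟩
  · have hq1 : 1 ≤ q := by
      rcases hq with h | h
      · omega
      · exact h.1
    let lam' : Fin (q + 1) → Lˣ := Fin.cons 1 lamL
    let c' : Fin (q + 1) → L := Fin.cons (⟨b, hbL⟩ - ⟨α, hαL⟩) cL
    have hlam' : ∀ i j, i ≠ j → ∀ s : ℕ, 0 < s → lam' i ^ s ≠ lam' j ^ s := by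
      intro i j
      refine Fin.cases ?_ (fun i => ?_) i <;> refine Fin.cases ?_ (fun j => ?_) j
      · intro h
        exact absurd rfl h
      · intro _ s hs
        simp only [lam', Fin.cons_zero, Fin.cons_succ]
        exact (hone j s hs).symm
      · intro _ s hs
        simp only [lam', Fin.cons_zero, Fin.cons_succ]
        exact hone i s hs
      · intro h s hs
        simp only [lam', Fin.cons_succ]
        exact hlamne i j (fun h' => h (by rw [h'])) s hs
    have hc' : ∀ i, c' i ≠ 0 := by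
      intro i
      refine Fin.cases ?_ (fun i => ?_) i
      · simp only [c', Fin.cons_zero]
        intro h
        exact hbα (congrArg Subtype.val (sub_eq_zero.1 h))
      · simp only [c', Fin.cons_succ]
        exact hcL0 i
    have hval' : ∀ n : ℤ, ((⟨term b c lam n, hterm n⟩ : L) - ⟨α, hαL⟩ : L) =
        ∑ i, c' i * ((lam' i ^ n : Lˣ) : L) := by
      intro n
      rw [hval n, Fin.sum_univ_succ]
      simp only [c', lam', Fin.cons_zero, Fin.cons_succ, one_zpow, Units.val_one, mul_one]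
      ring
    have hz := finite_zeros lam' hlam' c' 0 (hc' 0)
    have hu := finite_unit_values (S.unit L) hΓ (by omega) lam' hlam' c' hc'
    refine (hz.union hu).subset ?_
    rintro n (hn | hn)
    · left
      show ∑ i, c' i * ((lam' i ^ n : Lˣ) : L) = 0
      rw [← hval', sub_eq_zero]
      exact Subtype.ext hn
    · right
      obtain ⟨v, hv, hvn⟩ := hunit n hn
      exact ⟨v, hv, by rw [hvn, hval']⟩

/-- The terms of a linear recurrence sequence. -/
theorem hits_term {K : Subfield ℂ} {q : ℕ} (b : ℂ) (c lam : Fin q → ℂ) (hb : IsAlgebraic ℚ b)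
    (hc : ∀ i, IsAlgebraic ℚ (c i) ∧ c i ≠ 0) (hl : ∀ i, IsAlgebraic ℚ (lam i) ∧ lam i ≠ 0)
    (h1 : ∀ i, ∀ s : ℕ, 0 < s → lam i ^ s ≠ 1)
    (h2 : ∀ i j, i ≠ j → ∀ s : ℕ, 0 < s → lam i ^ s ≠ lam j ^ s) (α : ℂ) (hα : IsAlgebraic ℚ α)
    (hq : 2 ≤ q ∨ (1 ≤ q ∧ α ≠ b)) : Hits K (Set.range (term b c lam)) {α} := by
  classical
  intro W hW
  obtain ⟨W₁, hW₁, hbad⟩ := exists_specialization (insert α W)
  refine ((finite_bad_term b c lam hb hc hl h1 h2 α hα hq W₁ hW₁).image (term b c lam)).subset ?_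
  rintro _ ⟨⟨n, rfl⟩, hno⟩
  refine ⟨n, ?_, rfl⟩
  by_cases h0 : term b c lam n = α
  · exact Or.inl h0
  right
  have hta : IsAlgebraic ℚ (term b c lam n) := by
    refine mem_algebraicClosure_iff.1 (add_mem (mem_algebraicClosure_iff.2 hb)
      (sum_mem fun i _ => mul_mem (mem_algebraicClosure_iff.2 (hc i).1) ?_))
    exact zpow_mem (mem_algebraicClosure_iff.2 (hl i).1) n
  refine hbad _ α hta hα ?_
  by_contra hb'
  refine hno α (Finset.mem_singleton_self _)
    ((near_of_not_bad' ((insert α W : Finset ℂ) : Set ℂ) ?_ ?_ ?_ h0 hb').mono ?_)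
  · intro z hz
    rw [Finset.mem_coe, Finset.mem_insert] at hz
    rcases hz with rfl | hz
    · exact hα.tower_top K
    · exact hW z hz
  · exact hta.tower_top K
  · rw [Finset.mem_coe]
    exact Finset.mem_insert_self _ _
  · intro z hz
    rw [Finset.mem_coe] at hz ⊢
    exact Finset.mem_insert_of_mem hz

/-- Every value is taken only finitely often. -/
theorem finite_fibre {q : ℕ} (b : ℂ) (c lam : Fin q → ℂ) (hb : IsAlgebraic ℚ b)
    (hc : ∀ i, IsAlgebraic ℚ (c i) ∧ c i ≠ 0) (hl : ∀ i, IsAlgebraic ℚ (lam i) ∧ lam i ≠ 0)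
    (h1 : ∀ i, ∀ s : ℕ, 0 < s → lam i ^ s ≠ 1)
    (h2 : ∀ i j, i ≠ j → ∀ s : ℕ, 0 < s → lam i ^ s ≠ lam j ^ s) (hq : 1 ≤ q) (t : ℂ) :
    {n : ℤ | term b c lam n = t}.Finite := by
  classical
  by_cases ht : ∃ n, term b c lam n = t
  · obtain ⟨n₀, hn₀⟩ := ht
    have hta : IsAlgebraic ℚ t := by
      rw [← hn₀]
      refine mem_algebraicClosure_iff.1 (add_mem (mem_algebraicClosure_iff.2 hb)
        (sum_mem fun i _ => mul_mem (mem_algebraicClosure_iff.2 (hc i).1) ?_))
      exact zpow_mem (mem_algebraicClosure_iff.2 (hl i).1) n₀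
    by_cases hbt : t = b
    · rcases Nat.lt_or_ge q 2 with h | h
      · -- one root
        have hq1 : q = 1 := by omega
        subst hq1
        refine Set.Finite.subset (Set.finite_empty) ?_
        intro n hn
        have h3 : term b c lam n = t := hn
        unfold term at h3
        rw [hbt, Fin.sum_univ_one, add_eq_left] at h3
        exact absurd h3 (mul_ne_zero (hc 0).2 (zpow_ne_zero _ (hl 0).2))
      · exact (finite_bad_term b c lam hb hc hl h1 h2 t hta (Or.inl h) ∅ (by simp)).subset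
          fun n hn => Or.inl hn
    · exact (finite_bad_term b c lam hb hc hl h1 h2 t hta (Or.inr ⟨hq, hbt⟩) ∅ (by simp)).subset
        fun n hn => Or.inl hn
  · refine Set.Finite.subset Set.finite_empty ?_
    intro n hn
    exact absurd ⟨n, hn⟩ ht

end Pool.Agent.Run7.h866.ZP
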