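import Pool.Agent.Run7.h866.ZP.Deg2

/-!
Sums of elements of a finitely generated multiplicative group: all but finitely many of them are near
to a given algebraic number (helper file).
-/

set_option autoImplicit false

namespace Pool.Agent.Run7.h866.ZP

open IsDedekindDomain NumberField Pool.Agent.Y910.Z

/-- `partner_all` for coefficients which may be zero; the partner has a nonzero coefficient. -/
theorem partner_supp' {L : Type} [Field L] [NumberField L] (Γ : Subgroup Lˣ) (hΓ : Γ.FG) {m : ℕ}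
    (a : Fin m → L) (i₀ : Fin m) (ha : a i₀ ≠ 0) :
    ∃ R : Finset L, ∀ u : Fin m → Lˣ, (∀ i, u i ∈ Γ) → ∑ i, a i * (u i : L) = 0 →
      ∃ j, j ≠ i₀ ∧ a j ≠ 0 ∧ (u i₀ : L) / u j ∈ R := by
  classical
  let S : Finset (Fin m) := Finset.univ.filter fun i => a i ≠ 0
  let e : Fin S.card ≃ S := S.equivFin.symm
  have hS : ∀ i : S, a i ≠ 0 := fun i => (Finset.mem_filter.1 i.2).2
  obtain ⟨R, hR⟩ := partner_all Γ hΓ (fun i => a (e i)) (fun i => hS _)
    (e.symm ⟨i₀, Finset.mem_filter.2 ⟨Finset.mem_univ _, ha⟩⟩)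
  refine ⟨R, fun u hu hsum => ?_⟩
  obtain ⟨j, hj, h1⟩ := hR (fun i => u (e i)) (fun i => hu _) (by
    rw [← hsum]
    rw [Equiv.sum_comp e (fun i : S => a i * (u i : L))]
    rw [Finset.sum_coe_sort S (fun i => a i * (u i : L))]
    refine Finset.sum_subset (Finset.subset_univ _) fun i _ hi => ?_
    have h2 : a i = 0 := by
      by_contra h
      exact hi (Finset.mem_filter.2 ⟨Finset.mem_univ _, h⟩)
    rw [h2, zero_mul])
  refine ⟨e j, fun h => hj ?_, hS _, ?_⟩
  · rw [← e.symm_apply_apply j]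
    congr 1
    exact Subtype.ext h
  · rw [Equiv.apply_symm_apply] at h1
    exact h1

/-- If `β + ∑ c i * u i` has no vanishing partial sum containing `β` then it is a unit only for
finitely many values. -/
theorem finite_sums {L : Type} [Field L] [NumberField L] (Γ : Subgroup Lˣ) (hΓ : Γ.FG)
    (Γ₀ : Subgroup Lˣ) (hle : Γ₀ ≤ Γ) {q : ℕ} (c : Fin q → L) :
    ∀ (A : Finset (Fin q)) (β : L), β ≠ 0 →
      (∀ J ⊆ A, J.Nonempty → J ≠ A → ∀ u : Fin q → Lˣ, (∀ i, u i ∈ Γ₀) →
        β + ∑ i ∈ J, c i * (u i : L) ≠ 0) →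
      {v : L | (∃ w ∈ Γ, (w : L) = v) ∧ ∃ u : Fin q → Lˣ, (∀ i, u i ∈ Γ₀) ∧
        v = β + ∑ i ∈ A, c i * (u i : L)}.Finite := by
  classical
  intro A
  induction A using Finset.strongInduction with
  | H A ih =>
  intro β hβ hnd
  obtain ⟨R, hR⟩ := partner_supp' Γ hΓ
    (Fin.cons (-1) (Fin.cons β fun i => if i ∈ A then c i else 0) : Fin (q + 2) → L) 1
    (by
      rw [show (1 : Fin (q + 2)) = Fin.succ 0 from rfl, Fin.cons_succ, Fin.cons_zero]
      exact hβ)
  -- the values with a given term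
  have hstep : ∀ i ∈ A, ∀ ρ ∈ R, {v : L | (∃ w ∈ Γ, (w : L) = v) ∧ ∃ u : Fin q → Lˣ,
      (∀ i, u i ∈ Γ₀) ∧ (1 : L) / u i = ρ ∧ v = β + ∑ i ∈ A, c i * (u i : L)}.Finite := by
    intro i hi ρ hρ
    by_cases hex : ∃ w : Lˣ, w ∈ Γ₀ ∧ (1 : L) / w = ρ
    swap
    · refine Set.Finite.subset Set.finite_empty ?_
      rintro v ⟨-, u, hu, h1, -⟩
      exact absurd ⟨u i, hu i, h1⟩ hex
    obtain ⟨w₀, hw₀, hw₀ρ⟩ := hex
    have hsame : ∀ w : Lˣ, (1 : L) / w = ρ → (w : L) = w₀ := by
      intro w hw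
      rw [← hw₀ρ, one_div, one_div] at hw
      exact inv_injective hw
    have hsplit : ∀ u : Fin q → Lˣ, (1 : L) / u i = ρ → β + ∑ i ∈ A, c i * (u i : L) =
        (β + c i * w₀) + ∑ j ∈ A.erase i, c j * (u j : L) := by
      intro u hu
      rw [← Finset.add_sum_erase A _ hi, hsame _ hu]
      ring
    by_cases hAe : A.erase i = ∅
    · refine (Set.finite_singleton (β + c i * w₀)).subset ?_
      rintro v ⟨-, u, hu, h1, h2⟩
      rw [hsplit u h1, hAe, Finset.sum_empty, add_zero] at h2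
      exact h2
    · have hβ' : β + c i * (w₀ : L) ≠ 0 := by
        have h1 := hnd {i} (Finset.singleton_subset_iff.2 hi) (Finset.singleton_nonempty i)
          (by
            rintro h
            apply hAe
            rw [← h, Finset.erase_singleton]) (fun _ => w₀) (fun _ => hw₀)
        rwa [Finset.sum_singleton] at h1
      refine (ih (A.erase i) (Finset.erase_ssubset hi) (β + c i * (w₀ : L)) hβ' ?_).subset ?_
      · intro J hJ hJne hJA u hu
        have hiJ : i ∉ J := fun h => absurd rfl (Finset.mem_erase.1 (hJ h)).1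
        have h1 := hnd (insert i J) (Finset.insert_subset hi
          (hJ.trans (Finset.erase_subset _ _))) (Finset.insert_nonempty _ _) (by
            intro h
            apply hJA
            rw [← h, Finset.erase_insert hiJ]) (Function.update u i w₀) (by
            intro j
            by_cases h : j = i
            · subst h
              rw [Function.update_self]
              exact hw₀
            · rw [Function.update_of_ne h]
              exact hu j)
        rw [Finset.sum_insert hiJ, Function.update_self] at h1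
        have h2 : ∑ j ∈ J, c j * ((Function.update u i w₀ j : Lˣ) : L) =
            ∑ j ∈ J, c j * (u j : L) := by
          refine Finset.sum_congr rfl fun j hj => ?_
          have hji : j ≠ i := by
            rintro rfl
            exact hiJ hj
          rw [Function.update_of_ne hji]
        rw [h2] at h1
        rwa [add_assoc]
      · rintro v ⟨hv, u, hu, h1, h2⟩
        exact ⟨hv, u, hu, by rw [h2, hsplit u h1]⟩
  have hfin := (R.finite_toSet.image fun ρ : L => ρ⁻¹).union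
    (Set.Finite.biUnion A.finite_toSet fun i hi =>
      Set.Finite.biUnion R.finite_toSet fun ρ hρ => hstep i (Finset.mem_coe.1 hi) ρ
        (Finset.mem_coe.1 hρ))
  refine hfin.subset ?_
  rintro v ⟨⟨w, hw, hwv⟩, u, hu, hv⟩
  obtain ⟨j, hj1, hja, hjR⟩ := hR (Fin.cons w (Fin.cons 1 u)) (by
    intro i
    refine Fin.cases ?_ (fun i => Fin.cases ?_ (fun i => ?_) i) i
    · exact hw
    · exact one_mem _
    · exact hle (hu i)) (by
    rw [Fin.sum_univ_succ, Fin.sum_univ_succ]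
    simp only [Fin.cons_zero, Fin.cons_succ, Units.val_one, mul_one, ite_mul, zero_mul]
    rw [Finset.sum_ite_mem, Finset.univ_inter, hwv, hv]
    ring)
  rw [show (Fin.cons w (Fin.cons 1 u) : Fin (q + 2) → Lˣ) 1 = 1 from rfl, Units.val_one] at hjR
  revert hj1 hja hjR
  refine Fin.cases ?_ (fun j => Fin.cases ?_ (fun j => ?_) j) j
  · intro _ _ hjR
    left
    rw [Fin.cons_zero, hwv] at hjR
    exact ⟨1 / v, hjR, by simp⟩
  · intro h
    exact absurd rfl h
  · intro _ hja hjR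
    right
    simp only [Fin.cons_succ] at hja hjR
    have hjA : j ∈ A := by
      by_contra h
      rw [if_neg h] at hja
      exact hja rfl
    exact Set.mem_biUnion (Finset.mem_coe.2 hjA) (Set.mem_biUnion (Finset.mem_coe.2 hjR)
      ⟨⟨w, hw, hwv⟩, u, hu, rfl, hv⟩)

/-- The sums `b + ∑ c i * u i` of elements of a group. -/
def sums {q : ℕ} (b : ℂ) (c : Fin q → ℂ) (G : Subgroup ℂˣ) : Set ℂ :=
  {t | ∃ u : Fin q → ℂˣ, (∀ i, u i ∈ G) ∧ t = b + ∑ i, c i * (u i : ℂ)}

/-- `α` is not a proper partial sum. -/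
def NotPartial {q : ℕ} (b : ℂ) (c : Fin q → ℂ) (G : Subgroup ℂˣ) (α : ℂ) : Prop :=
  ∀ J : Finset (Fin q), J ≠ Finset.univ → ∀ u : Fin q → ℂˣ, (∀ i, u i ∈ G) →
    α ≠ b + ∑ i ∈ J, c i * (u i : ℂ)

/-- Finitely many exceptions for sums of units. -/
theorem finite_bad_sums {q : ℕ} (hq : 0 < q) (b : ℂ) (c : Fin q → ℂ) (hb : IsAlgebraic ℚ b)
    (hc : ∀ i, IsAlgebraic ℚ (c i)) (U : Finset ℂˣ)
    (hU : ∀ u ∈ U, IsAlgebraic ℚ (u : ℂ)) (α : ℂ) (hα : IsAlgebraic ℚ α)
    (hnd : NotPartial b c (Subgroup.closure (U : Set ℂˣ)) α) (W : Finset ℂ)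
    (hW : ∀ z ∈ W, IsAlgebraic ℚ z) :
    {t : ℂ | t ∈ sums b c (Subgroup.closure (U : Set ℂˣ)) ∧ Bad (W : Set ℂ) t α}.Finite := by
  classical
  -- the number field
  let X : Finset ℂ := insert b (insert α (W ∪ (Finset.univ.image c ∪
    U.image fun u : ℂˣ => (u : ℂ))))
  let L : IntermediateField ℚ ℂ := IntermediateField.adjoin ℚ (X : Set ℂ)
  have hfd : FiniteDimensional ℚ L := by
    refine IntermediateField.finiteDimensional_adjoin fun x hx => ?_
    simp only [X, Finset.coe_insert, Set.mem_insert_iff, Finset.mem_coe, Finset.mem_union,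
      Finset.mem_image, Finset.mem_univ, true_and] at hx
    rcases hx with rfl | rfl | hx | ⟨i, rfl⟩ | ⟨u, hu, rfl⟩
    · exact hb.isIntegral
    · exact hα.isIntegral
    · exact (hW x hx).isIntegral
    · exact (hc i).isIntegral
    · exact (hU u hu).isIntegral
  have hnf : NumberField L := ⟨⟩
  have hsub : ∀ z ∈ X, z ∈ L := fun z hz => IntermediateField.subset_adjoin _ _ hz
  have hbX : b ∈ X := Finset.mem_insert_self _ _
  have hαX : α ∈ X := Finset.mem_insert_of_mem (Finset.mem_insert_self _ _)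
  have hWX : ∀ z ∈ W, z ∈ X := fun z hz => Finset.mem_insert_of_mem
    (Finset.mem_insert_of_mem (Finset.mem_union_left _ hz))
  have hcX : ∀ i, c i ∈ X := fun i => Finset.mem_insert_of_mem
    (Finset.mem_insert_of_mem (Finset.mem_union_right _ (Finset.mem_union_left _
      (Finset.mem_image_of_mem _ (Finset.mem_univ _)))))
  have hUX : ∀ u ∈ U, (u : ℂ) ∈ X := fun u hu => Finset.mem_insert_of_mem
    (Finset.mem_insert_of_mem (Finset.mem_union_right _ (Finset.mem_union_right _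
      (Finset.mem_image_of_mem (fun u : ℂˣ => (u : ℂ)) hu))))
  have hGL : ∀ u ∈ Subgroup.closure (U : Set ℂˣ), (u : ℂ) ∈ L := by
    intro u hu
    induction hu using Subgroup.closure_induction with
    | mem x hx => exact hsub _ (hUX x hx)
    | one => exact one_mem _
    | mul x y _ _ hx hy =>
      rw [Units.val_mul]
      exact mul_mem hx hy
    | inv x _ hx =>
      rw [Units.val_inv_eq_inv_val]
      exact inv_mem hx
  let toL : ∀ u : ℂˣ, u ∈ Subgroup.closure (U : Set ℂˣ) → Lˣ := fun u hu =>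
    Units.mk0 ⟨(u : ℂ), hGL u hu⟩ (fun h => u.ne_zero (congrArg (fun z : L => (z : ℂ)) h))
  have htoL : ∀ u hu, (((toL u hu : Lˣ) : L) : ℂ) = (u : ℂ) := fun u hu => rfl
  let Γ₀ : Subgroup Lˣ := (Subgroup.closure (U : Set ℂˣ)).comap
    (Units.map (algebraMap L ℂ : L →* ℂ))
  have hΓ₀ : ∀ w : Lˣ, w ∈ Γ₀ ↔ Units.map (algebraMap L ℂ : L →* ℂ) w ∈
      Subgroup.closure (U : Set ℂˣ) := fun w => Iff.rfl
  have hval₀ : ∀ w : Lˣ, ((Units.map (algebraMap L ℂ : L →* ℂ) w : ℂˣ) : ℂ) = ((w : L) : ℂ) :=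
    fun w => rfl
  have htoL₀ : ∀ u hu, toL u hu ∈ Γ₀ := by
    intro u hu
    rw [hΓ₀]
    have h1 : Units.map (algebraMap L ℂ : L →* ℂ) (toL u hu) = u := Units.ext rfl
    rw [h1]
    exact hu
  -- the places
  let S₁ : Set L := {z | (z : ℂ) ∈ X ∨ ∃ u ∈ U, (z : ℂ) = (u : ℂ)⁻¹}
  have hS₁ : S₁.Finite := by
    have h3 : S₁ = (algebraMap L ℂ) ⁻¹'
        (((X ∪ U.image fun u : ℂˣ => (u : ℂ)⁻¹ : Finset ℂ)) : Set ℂ) := by
      ext z
      simp only [S₁, Set.mem_ofPred_eq, Finset.coe_union, Set.mem_preimage, Set.mem_union,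
        Finset.mem_coe, Finset.mem_image]
      refine or_congr Iff.rfl ?_
      constructor
      · rintro ⟨u, hu, hz⟩
        exact ⟨u, hu, hz.symm⟩
      · rintro ⟨u, hu, hz⟩
        exact ⟨u, hu, hz.symm⟩
    rw [h3]
    exact (Finset.finite_toSet _).preimage (algebraMap L ℂ).injective.injOn
  let S : Set (HeightOneSpectrum (𝓞 L)) := ⋃ z ∈ S₁, {v | 1 < v.valuation L z}
  have hSfin : S.Finite := Set.Finite.biUnion hS₁ fun z _ =>
    HeightOneSpectrum.Support.finite (𝓞 L) z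
  have hΓ := Pool.Agent.H39R3.Tor.sunit_fg L S hSfin
  have hXV : ∀ V : ValuationSubring ℂ, (∀ z ∈ S₁, (z : ℂ) ∈ V) → ∀ z ∈ X, z ∈ V :=
    fun V hV z hz => hV ⟨z, hsub z hz⟩ (Or.inl hz)
  have hUV : ∀ V : ValuationSubring ℂ, (∀ z ∈ S₁, (z : ℂ) ∈ V) →
      ∀ u ∈ Subgroup.closure (U : Set ℂˣ), (u : ℂ) ∈ V ∧ ((u : ℂ))⁻¹ ∈ V := by
    intro V hV u hu
    induction hu using Subgroup.closure_induction with
    | mem x hx =>
      exact ⟨hXV V hV _ (hUX x hx),
        hV ⟨(x : ℂ)⁻¹, inv_mem (hsub _ (hUX x hx))⟩ (Or.inr ⟨x, hx, rfl⟩)⟩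
    | one => simp
    | mul x y _ _ hx hy =>
      rw [Units.val_mul, mul_inv]
      exact ⟨mul_mem hx.1 hy.1, mul_mem hx.2 hy.2⟩
    | inv x _ hx =>
      rw [Units.val_inv_eq_inv_val, inv_inv]
      exact ⟨hx.2, hx.1⟩
  have hunitV : ∀ x : L, x ≠ 0 → (∀ V : ValuationSubring ℂ, (∀ z ∈ S₁, (z : ℂ) ∈ V) →
      (x : ℂ) ∈ V ∧ ((x⁻¹ : L) : ℂ) ∈ V) → ∃ w ∈ S.unit L, (w : L) = x := by
    intro x hx h
    refine ⟨Units.mk0 x hx, ?_, rfl⟩
    intro v hv
    have hvS : ∀ z ∈ S₁, v.valuation L z ≤ 1 := by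
      intro z hz
      by_contra hcon
      exact hv (Set.mem_biUnion hz (not_le.1 hcon))
    refine le_antisymm ?_ ?_
    · exact val_of_all S₁ _ (fun V hV => (h V hV).1) v hvS
    · have h3 := val_of_all S₁ (x⁻¹ : L) (fun V hV => (h V hV).2) v hvS
      rw [map_inv₀] at h3
      have h4 : v.valuation L x ≠ 0 := (Valuation.ne_zero_iff _).2 hx
      exact (inv_le_one₀ (zero_lt_iff.2 h4)).1 h3
  have hΓle : Γ₀ ≤ S.unit L := by
    intro w hw
    obtain ⟨w', hw', hww'⟩ := hunitV (w : L) w.ne_zero fun V hV => by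
      have h1 := hUV V hV _ ((hΓ₀ w).1 hw)
      rw [hval₀] at h1
      refine ⟨h1.1, ?_⟩
      have h2 : (((w : L)⁻¹ : L) : ℂ) = ((w : L) : ℂ)⁻¹ := map_inv₀ (algebraMap L ℂ) _
      rw [h2]
      exact h1.2
    have h2 : w' = w := Units.ext hww'
    rw [← h2]
    exact hw'
  -- the values
  let cL : Fin q → L := fun i => ⟨c i, hsub _ (hcX i)⟩
  let β : L := ⟨b, hsub b hbX⟩ - ⟨α, hsub α hαX⟩
  have hβ : β ≠ 0 := by
    intro h
    have h1 : b - α = 0 := congrArg (fun z : L => (z : ℂ)) h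
    refine hnd ∅ ?_ (fun _ => 1) (fun _ => one_mem _) ?_
    · intro h2
      have h3 := congrArg Finset.card h2
      rw [Finset.card_empty, Finset.card_univ, Fintype.card_fin] at h3
      omega
    · rw [Finset.sum_empty, add_zero]
      exact (sub_eq_zero.1 h1).symm
  have hsum : ∀ (J : Finset (Fin q)) (u : Fin q → Lˣ),
      ((β + ∑ i ∈ J, cL i * (u i : L) : L) : ℂ) =
        b + ∑ i ∈ J, c i * ((Units.map (algebraMap L ℂ : L →* ℂ) (u i) : ℂˣ) : ℂ) - α := by
    intro J u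
    have h1 : ((β + ∑ i ∈ J, cL i * (u i : L) : L) : ℂ) = algebraMap L ℂ
        (β + ∑ i ∈ J, cL i * (u i : L)) := rfl
    rw [h1, map_add, map_sum]
    have h2 : algebraMap L ℂ β = b - α := rfl
    have h3 : ∀ i, algebraMap L ℂ (cL i * (u i : L)) =
        c i * ((Units.map (algebraMap L ℂ : L →* ℂ) (u i) : ℂˣ) : ℂ) := by
      intro i
      rw [map_mul]
      rfl
    rw [h2, Finset.sum_congr rfl fun i _ => h3 i]
    ring
  have hfin := finite_sums (S.unit L) hΓ Γ₀ hΓle cL Finset.univ β hβ (by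
    intro J _ _ hJ u hu h0
    have h1 := hsum J u
    rw [h0] at h1
    refine hnd J hJ (fun i => Units.map (algebraMap L ℂ : L →* ℂ) (u i))
      (fun i => (hΓ₀ _).1 (hu i)) ?_
    have h2 : ((0 : L) : ℂ) = 0 := rfl
    rw [h2] at h1
    exact (sub_eq_zero.1 h1.symm).symm)
  refine (hfin.image fun v : L => (v : ℂ) + α).subset ?_
  rintro t ⟨⟨u, hu, ht⟩, hbad⟩
  let uL : Fin q → Lˣ := fun i => toL (u i) (hu i)
  have hmap : ∀ i, Units.map (algebraMap L ℂ : L →* ℂ) (uL i) = u i := fun i => Units.ext rfl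
  have htv : ((β + ∑ i, cL i * (uL i : L) : L) : ℂ) = t - α := by
    rw [hsum Finset.univ uL, ht]
    simp only [hmap]
  refine ⟨β + ∑ i, cL i * (uL i : L), ⟨?_, uL, fun i => htoL₀ (u i) (hu i), rfl⟩, ?_⟩
  · refine hunitV _ ?_ fun V hV => ?_
    · intro h
      rw [h] at htv
      exact hbad.1 (sub_eq_zero.1 htv.symm)
    · have htV : t ∈ V := by
        rw [ht]
        exact add_mem (hXV V hV b hbX) (sum_mem fun i _ =>
          mul_mem (hXV V hV _ (hcX i)) (hUV V hV _ (hu i)).1)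
      rw [htv]
      refine ⟨sub_mem htV (hXV V hV α hαX), ?_⟩
      have h1 : (((β + ∑ i, cL i * (uL i : L))⁻¹ : L) : ℂ) = (t - α)⁻¹ := by
        rw [← htv]
        exact map_inv₀ (algebraMap L ℂ) _
      rw [h1]
      have hle : Subring.closure (insert t (W : Set ℂ)) ≤ V.toSubring := by
        rw [Subring.closure_le]
        rintro z (rfl | hz)
        · exact htV
        · exact hXV V hV z (hWX z hz)
      exact hle hbad.2
  · show ((β + ∑ i, cL i * (uL i : L) : L) : ℂ) + α = t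
    rw [htv, sub_add_cancel]

/-- Sums of elements of a finitely generated group of algebraic numbers. -/
theorem hits_sums {K : Subfield ℂ} {q : ℕ} (hq : 0 < q) (b : ℂ) (c : Fin q → ℂ)
    (hb : IsAlgebraic ℚ b) (hc : ∀ i, IsAlgebraic ℚ (c i)) (U : Finset ℂˣ)
    (hU : ∀ u ∈ U, IsAlgebraic ℚ (u : ℂ)) (α : ℂ) (hα : IsAlgebraic ℚ α)
    (hnd : NotPartial b c (Subgroup.closure (U : Set ℂˣ)) α) :
    Hits K (sums b c (Subgroup.closure (U : Set ℂˣ))) {α} := by
  classical
  refine hits_of_algebraic _ ?_ {α} (by simpa using hα) fun W hW => ?_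
  · rintro t ⟨u, hu, rfl⟩
    have hG : ∀ u ∈ Subgroup.closure (U : Set ℂˣ), (u : ℂ) ∈ algebraicClosure ℚ ℂ := by
      intro u hu
      induction hu using Subgroup.closure_induction with
      | mem x hx => exact mem_algebraicClosure_iff.2 (hU x hx)
      | one => exact one_mem _
      | mul x y _ _ hx hy =>
        rw [Units.val_mul]
        exact mul_mem hx hy
      | inv x _ hx =>
        rw [Units.val_inv_eq_inv_val]
        exact inv_mem hx
    exact mem_algebraicClosure_iff.1 (add_mem (mem_algebraicClosure_iff.2 hb)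
      (sum_mem fun i _ => mul_mem (mem_algebraicClosure_iff.2 (hc i)) (hG _ (hu i))))
  · refine (finite_bad_sums hq b c hb hc U hU α hα hnd W hW).subset ?_
    rintro t ⟨ht, hbad⟩
    exact ⟨ht, hbad α (Finset.mem_singleton_self _)⟩

end Pool.Agent.Run7.h866.ZP
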