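import Pool.Agent.Run7.h866.ZP.Rad

/-!
Sequences of rational numbers which tend to infinity and whose distances to a given number have bounded
`p`-adic valuations: all but finitely many terms are near to the given number (helper file).
-/

set_option autoImplicit false

namespace Pool.Agent.Run7.h866.ZP

open Polynomial Pool.Agent.Y152.BD
open Pool.Agent.Y152.RP.FamM (ManyPrimes)

/-- the homogenized value of a linear polynomial -/
theorem Nv_linear (a b : ℤ) (hb : b ≠ 0) (α : ℚ) :
    ((Nv (C b * X + C (-a)) α : ℤ) : ℚ) = (α.den : ℚ) * (b * α - a) := by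
  rw [Nv_rat, natDegree_linear hb, pow_one]
  simp
  ring

/-- A large integer which is not divisible by given powers of the small primes has a large prime
divisor. -/
theorem exists_large_prime (B : ℕ) (E : ℕ → ℕ) (u : ℤ)
    (hE : ∀ p : ℕ, p.Prime → p ≤ B → ¬ (p : ℤ) ^ E p ∣ u)
    (hu : ∏ p ∈ Finset.range (B + 1), (p + 1) ^ E p < u.natAbs) :
    ∃ p : ℕ, p.Prime ∧ B < p ∧ (p : ℤ) ∣ u := by
  by_contra hcon
  push Not at hcon
  have hu0 : u.natAbs ≠ 0 := by omega
  have h1 : u.natAbs ≤ ∏ p ∈ Finset.range (B + 1), (p + 1) ^ E p := by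
    have h2 := Nat.prod_factorization_pow_eq_self hu0
    rw [Finsupp.prod, Nat.support_factorization] at h2
    have h3 : ∀ p ∈ u.natAbs.primeFactors, p ≤ B := by
      intro p hp
      by_contra hlt
      push Not at hlt
      exact hcon p (Nat.prime_of_mem_primeFactors hp) hlt
        (Int.natCast_dvd.2 (Nat.dvd_of_mem_primeFactors hp))
    calc u.natAbs = ∏ p ∈ u.natAbs.primeFactors, p ^ u.natAbs.factorization p := h2.symm
      _ ≤ ∏ p ∈ u.natAbs.primeFactors, (p + 1) ^ E p := by
          refine Finset.prod_le_prod' fun p hp => ?_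
          have hpp := Nat.prime_of_mem_primeFactors hp
          have h4 : u.natAbs.factorization p ≤ E p := by
            by_contra hlt
            push Not at hlt
            refine hE p hpp (h3 p hp) ?_
            have h5 : p ^ E p ∣ u.natAbs :=
              (Nat.pow_dvd_pow p hlt.le).trans (Nat.ordProj_dvd _ _)
            have h6 := Int.natCast_dvd.2 h5
            rwa [Nat.cast_pow] at h6
          calc p ^ u.natAbs.factorization p ≤ p ^ E p := Nat.pow_le_pow_right hpp.pos h4
            _ ≤ (p + 1) ^ E p := Nat.pow_le_pow_left (Nat.le_succ p) _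
      _ ≤ ∏ p ∈ Finset.range (B + 1), (p + 1) ^ E p := by
          refine Finset.prod_le_prod_of_subset_of_one_le' ?_ fun p _ _ =>
            Nat.one_le_pow _ _ (Nat.succ_pos p)
          intro p hp
          exact Finset.mem_range.2 (Nat.lt_succ_of_le (h3 p hp))
  omega

/-- a prime divisor of the numerator of `t - α` divides the homogenized value -/
theorem dvd_Nv (t α : ℚ) (p : ℕ) (hp : p.Prime) (h : (p : ℤ) ∣ (t - α).num) :
    (p : ℤ) ∣ Nv (C (t.den : ℤ) * X + C (-t.num)) α := by
  have hpi : Prime (p : ℤ) := Nat.prime_iff_prime_int.1 hp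
  have htd : (t.den : ℤ) ≠ 0 := by exact_mod_cast t.den_nz
  have hN := Nv_linear t.num t.den htd α
  have h1 : (Nv (C (t.den : ℤ) * X + C (-t.num)) α) * ((t - α).den : ℤ) =
      -((t.den : ℤ) * α.den) * (t - α).num := by
    have h2 : (((Nv (C (t.den : ℤ) * X + C (-t.num)) α) * ((t - α).den : ℤ) : ℤ) : ℚ) =
        ((-((t.den : ℤ) * α.den) * (t - α).num : ℤ) : ℚ) := by
      push_cast
      rw [hN]
      have h3 : (t.num : ℚ) = t * t.den := (Rat.mul_den_eq_num t).symm
      have h4 : ((t - α).num : ℚ) = (t - α) * (t - α).den := (Rat.mul_den_eq_num (t - α)).symm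
      push_cast
      rw [h3, h4]
      ring
    exact_mod_cast h2
  have h2 : (p : ℤ) ∣ (Nv (C (t.den : ℤ) * X + C (-t.num)) α) * ((t - α).den : ℤ) := by
    rw [h1]
    exact Dvd.dvd.mul_left h _
  rcases hpi.dvd_or_dvd h2 with h3 | h3
  · exact h3
  · have h4 : p ∣ (t - α).den := by exact_mod_cast h3
    exact absurd (t - α).reduced
      (Nat.not_coprime_of_dvd_of_dvd hp.one_lt (Int.natCast_dvd.1 h) h4)

theorem irreducible_linear (t : ℚ) : Irreducible (C (t.den : ℤ) * X + C (-t.num) : ℤ[X]) := by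
  refine Polynomial.irreducible_C_mul_X_add_C (by exact_mod_cast t.den_nz) ?_
  have h1 : IsCoprime (t.den : ℤ) (-t.num) := by
    rw [IsCoprime.neg_right_iff, isCoprime_comm]
    exact Int.isCoprime_iff_gcd_eq_one.2 t.reduced
  exact h1.isRelPrime

theorem aeval_linear (t : ℚ) : aeval ((t : ℚ) : ℂ) (C (t.den : ℤ) * X + C (-t.num)) = 0 := by
  have h1 : (t.num : ℂ) = ((t : ℚ) : ℂ) * (t.den : ℂ) := by
    have h2 := Rat.mul_den_eq_num t
    exact_mod_cast h2.symm
  have h2 : aeval ((t : ℚ) : ℂ) (C (t.den : ℤ) * X + C (-t.num)) =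
      (t.den : ℂ) * ((t : ℚ) : ℂ) - (t.num : ℂ) := by
    rw [map_add, map_mul, aeval_X, aeval_C, aeval_C]
    simp [sub_eq_add_neg]
  rw [h2, h1]
  ring

/-- Sequences of rational numbers. -/
theorem hits_seq {K : Subfield ℂ} (t : ℕ → ℚ) (α : ℚ)
    (hp : ∀ p : ℕ, p.Prime → ∃ e : ℕ, {ν : ℕ | (p : ℤ) ^ e ∣ (t ν - α).num}.Finite)
    (hinf : ∀ B : ℚ, {ν : ℕ | |t ν| ≤ B}.Finite) :
    Hits K (Set.range fun ν => ((t ν : ℚ) : ℂ)) {((α : ℚ) : ℂ)} := by
  classical
  have h2 : ManyPrimes (Set.range fun ν => ((t ν : ℚ) : ℂ)) 1 (fun _ : Fin 1 => α) := by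
    intro B
    have hp' : ∀ p : ℕ, ∃ e : ℕ, p.Prime → {ν : ℕ | (p : ℤ) ^ e ∣ (t ν - α).num}.Finite := by
      intro p
      by_cases h : p.Prime
      · obtain ⟨e, he⟩ := hp p h
        exact ⟨e, fun _ => he⟩
      · exact ⟨0, fun h' => absurd h' h⟩
    choose E hE using hp'
    let M : ℕ := ∏ p ∈ Finset.range (B + 1), (p + 1) ^ E p
    have hfin : ((⋃ p ∈ ((Finset.range (B + 1)).filter Nat.Prime : Finset ℕ),
        {ν : ℕ | (p : ℤ) ^ E p ∣ (t ν - α).num}) ∪
        {ν : ℕ | |t ν| ≤ (M : ℚ) + |α|}).Finite := by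
      refine Set.Finite.union ?_ (hinf _)
      refine Set.Finite.biUnion (Finset.finite_toSet _) fun p hpm => ?_
      exact hE p (Finset.mem_filter.1 (Finset.mem_coe.1 hpm)).2
    refine (hfin.image fun ν => ((t ν : ℚ) : ℂ)).subset ?_
    rintro _ ⟨⟨ν, rfl⟩, hno⟩
    refine ⟨ν, ?_, rfl⟩
    by_contra hcon
    rw [Set.mem_union, not_or] at hcon
    apply hno
    obtain ⟨p, hpp, hpB, hpd⟩ := exists_large_prime B E (t ν - α).num (by
        intro p hpp hple hdvd
        apply hcon.1
        exact Set.mem_biUnion (Finset.mem_coe.2 (Finset.mem_filter.2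
          ⟨Finset.mem_range.2 (by omega), hpp⟩)) hdvd) (by
        have h1 := hcon.2
        rw [Set.mem_ofPred_eq, not_le] at h1
        have h3 : |t ν| ≤ |t ν - α| + |α| := by
          have h7 := abs_add_le (t ν - α) α
          rwa [sub_add_cancel] at h7
        have h4 : |t ν - α| ≤ (((t ν - α).num.natAbs : ℕ) : ℚ) := by
          have h5 : |t ν - α| * (t ν - α).den = (((t ν - α).num.natAbs : ℕ) : ℚ) := by
            have h6 := congrArg (fun x : ℚ => |x|) (Rat.mul_den_eq_num (t ν - α))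
            simp only [abs_mul] at h6
            rw [Nat.abs_cast] at h6
            rw [h6, Nat.cast_natAbs, Int.cast_abs]
          rw [← h5]
          refine le_mul_of_one_le_right (abs_nonneg _) ?_
          exact_mod_cast (t ν - α).den_pos
        have h5 : (M : ℚ) < (((t ν - α).num.natAbs : ℕ) : ℚ) := by linarith
        exact_mod_cast h5)
    exact ⟨fun _ => 0, Function.injective_of_subsingleton _,
      C ((t ν).den : ℤ) * X + C (-(t ν).num), irreducible_linear (t ν), aeval_linear (t ν),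
      fun _ => ⟨p, hpp, hpB, dvd_Nv (t ν) α p hpp hpd⟩⟩
  refine (hits_of_manyPrimes _ _ h2).mono subset_rfl ?_
  intro z hz
  obtain ⟨l, -, rfl⟩ := Finset.mem_image.1 hz
  exact Finset.mem_singleton_self _

end Pool.Agent.Run7.h866.ZP
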