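import Pool.Agent.N449.SP.UnitNF

/-!
Polynomials over a number field of bounded degree whose values at many points differ by units
(helper file; the method is that of `Pool.Agent.Y152.BD.finite_smooth`, for number fields).
-/

set_option autoImplicit false

namespace Pool.Agent.Run7.h866.ZP

open Polynomial NumberField Pool.Agent.N449.SP

/-- the linear relation between the values of a polynomial of degree at most `e` at `e + 2` points -/
theorem rel_values {L : Type*} [Field L] {e : ℕ} (x : Fin (e + 2) → L) (hx : Function.Injective x)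
    (P : L[X]) (hP : P.natDegree ≤ e) :
    ∑ i, Lagrange.nodalWeight Finset.univ x i * P.eval (x i) = 0 := by
  classical
  have hinj : Set.InjOn x (Finset.univ : Finset (Fin (e + 2))) := hx.injOn
  have hcard : (Finset.univ : Finset (Fin (e + 2))).card = e + 2 := by simp
  have hdeg : P.degree < ((Finset.univ : Finset (Fin (e + 2))).card : WithBot ℕ) := by
    rw [hcard]
    refine lt_of_le_of_lt Polynomial.degree_le_natDegree ?_
    exact_mod_cast Nat.lt_of_le_of_lt hP (by omega)
  have h1 := Lagrange.coeff_eq_sum hinj hdeg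
  rw [hcard] at h1
  have h2 : P.coeff (e + 2 - 1) = 0 := Polynomial.coeff_eq_zero_of_natDegree_lt (by omega)
  rw [h2] at h1
  rw [h1]
  refine Finset.sum_congr rfl fun i _ => ?_
  rw [Lagrange.nodalWeight, div_eq_mul_inv, mul_comm, Finset.prod_inv_distrib]

/-- In a vanishing sum of units with given nonzero coefficients every term has a proportional one,
with quotient in a finite set. -/
theorem partner_all {L : Type} [Field L] [NumberField L] (Γ : Subgroup Lˣ) (hΓ : Γ.FG) {m : ℕ}
    (a : Fin m → L) (ha : ∀ i, a i ≠ 0) (i₀ : Fin m) :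
    ∃ R : Finset L, ∀ u : Fin m → Lˣ, (∀ i, u i ∈ Γ) → ∑ i, a i * (u i : L) = 0 →
      ∃ j, j ≠ i₀ ∧ (u i₀ : L) / u j ∈ R := by
  classical
  let c : Fin m → Lˣ := fun i => Units.mk0 (a i) (ha i)
  have hΓ' : (Γ ⊔ Subgroup.closure (Set.range c)).FG :=
    hΓ.sup ⟨Finset.univ.image c, by simp⟩
  choose R hR using ue_numberField L _ hΓ'
  refine ⟨(Finset.range (m + 1)).biUnion fun n => Finset.univ.biUnion fun j : Fin m =>
    (R n).image fun x => x * (a j / a i₀), fun u hu hsum => ?_⟩
  -- a minimal vanishing partial sum containing `i₀`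
  have hex : ∃ n, ∃ J : Finset (Fin m), J.card = n ∧ i₀ ∈ J ∧ ∑ i ∈ J, a i * (u i : L) = 0 :=
    ⟨_, Finset.univ, rfl, Finset.mem_univ _, hsum⟩
  obtain ⟨J, hJn, hJi, hJs⟩ := Nat.find_spec hex
  have hmin : ∀ J' : Finset (Fin m), i₀ ∈ J' → ∑ i ∈ J', a i * (u i : L) = 0 →
      J.card ≤ J'.card := by
    intro J' h1 h2
    rw [hJn]
    exact Nat.find_min' hex ⟨J', rfl, h1, h2⟩
  have hnd : ∀ J' ⊆ J, J'.Nonempty → ∑ i ∈ J', a i * (u i : L) = 0 → J' = J := by
    intro J' hJ' hne h0
    by_contra hneq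
    have hlt : J'.card < J.card := Finset.card_lt_card
      (lt_of_le_of_ne hJ' hneq)
    by_cases hi : i₀ ∈ J'
    · exact absurd (hmin J' hi h0) (by omega)
    · have h1 : ∑ i ∈ J \ J', a i * (u i : L) = 0 := by
        have h2 := Finset.sum_sdiff (f := fun i => a i * (u i : L)) hJ'
        rw [h0, add_zero] at h2
        rw [h2]
        exact hJs
      have h2 := hmin (J \ J') (Finset.mem_sdiff.2 ⟨hJi, hi⟩) h1
      have h3 := Finset.card_sdiff_add_card_eq_card hJ'
      have h4 := hne.card_pos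
      omega
  have h1 : 1 < J.card := by
    by_contra h
    have h2 : J.card = 1 := by
      have := Finset.card_pos.2 ⟨i₀, hJi⟩
      omega
    obtain ⟨w, hw⟩ := Finset.card_eq_one.1 h2
    rw [hw, Finset.sum_singleton] at hJs
    exact mul_ne_zero (ha w) (u w).ne_zero hJs
  obtain ⟨j, hj, hji⟩ := Finset.exists_mem_ne h1 i₀
  refine ⟨j, hji, ?_⟩
  let E : Fin J.card ≃ J := J.equivFin.symm
  have hsumE : ∀ I : Finset (Fin J.card), ∑ i ∈ I, ((c (E i) * u (E i) : Lˣ) : L) =
      ∑ w ∈ I.map (E.toEmbedding.trans (Function.Embedding.subtype _)), a w * (u w : L) := by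
    intro I
    rw [Finset.sum_map]
    rfl
  have hmapU : (Finset.univ : Finset (Fin J.card)).map
      (E.toEmbedding.trans (Function.Embedding.subtype _)) = J := by
    ext w
    simp only [Finset.mem_map, Finset.mem_univ, true_and, Function.Embedding.trans_apply,
      Equiv.coe_toEmbedding, Function.Embedding.subtype_apply]
    constructor
    · rintro ⟨a, rfl⟩
      exact (E a).2
    · intro hw
      exact ⟨E.symm ⟨w, hw⟩, by simp⟩
  have h2 := hR J.card (fun i => ((c (E i) * u (E i) : Lˣ) : L)) (fun i =>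
      ⟨c (E i) * u (E i), mul_mem
        (Subgroup.mem_sup_right (Subgroup.subset_closure ⟨_, rfl⟩))
        (Subgroup.mem_sup_left (hu _)), Or.inl rfl⟩) (by
      rw [hsumE, hmapU]
      exact hJs) (by
      intro I hI h3
      rw [hsumE] at h3
      have h4 := hnd _
        ((Finset.map_subset_map.2 (Finset.subset_univ I)).trans hmapU.le) (by simpa using hI) h3
      exact Finset.map_injective _ (h4.trans hmapU.symm)) (E.symm ⟨i₀, hJi⟩) (E.symm ⟨j, hj⟩)
  rw [Finset.mem_biUnion]
  refine ⟨J.card, ?_, ?_⟩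
  · rw [Finset.mem_range]
    have := Finset.card_le_univ J
    rw [Fintype.card_fin] at this
    omega
  · rw [Finset.mem_biUnion]
    refine ⟨j, Finset.mem_univ _, Finset.mem_image.2 ⟨_, h2, ?_⟩⟩
    simp only [Equiv.apply_symm_apply]
    have h3 := ha i₀
    have h4 := ha j
    have h5 := (u j).ne_zero
    show (a i₀ * (u i₀ : L)) / (a j * (u j : L)) * (a j / a i₀) = _
    field_simp

/-- Monic polynomials of degree at most `e` whose values at `2 e + 1` points differ by units are
finite in number. -/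
theorem finite_poly {L : Type} [Field L] [NumberField L] (Γ : Subgroup Lˣ) (hΓ : Γ.FG) (e : ℕ)
    (x : Fin (2 * e + 1) → L) (hx : Function.Injective x) :
    {G : L[X] | G.Monic ∧ G.natDegree ≤ e ∧ (∀ i, G.eval (x i) ≠ 0) ∧
      ∀ i, ∃ u ∈ Γ, (u : L) = G.eval (x i) / G.eval (x 0)}.Finite := by
  classical
  have hS : ∀ h : Fin (e + 2) ↪ Fin (2 * e + 1), ∃ R : Finset L, ∀ u : Fin (e + 2) → Lˣ,
      (∀ i, u i ∈ Γ) →
      ∑ i, Lagrange.nodalWeight Finset.univ (fun i => x (h i)) i * (u i : L) = 0 →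
      ∃ j, j ≠ 0 ∧ (u 0 : L) / u j ∈ R := by
    intro h
    refine partner_all Γ hΓ
      (fun i => Lagrange.nodalWeight Finset.univ (fun i => x (h i)) i) (fun i => ?_) 0
    exact Lagrange.nodalWeight_ne_zero (hx.comp h.injective).injOn (Finset.mem_univ i)
  choose H hH using hS
  let F : Finset L := Finset.univ.biUnion H
  let F1 : Finset L := insert 1 F
  -- the polynomials
  let 𝒢 : Set L[X] := Set.range (fun sq : Finset (Fin (2 * e + 1)) × (Fin (2 * e + 1) → F1) =>
    Lagrange.interpolate sq.1 x (fun i => (sq.2 i : L)⁻¹))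
  have h𝒢 : 𝒢.Finite := Set.finite_range _
  refine (h𝒢.image fun G1 : L[X] => C (G1.leadingCoeff)⁻¹ * G1).subset ?_
  rintro G ⟨hGm, hGe, hG0, hGu⟩
  choose u huΓ hu using hGu
  have hu0 : (u 0 : L) = 1 := by rw [hu 0, div_self (hG0 0)]
  have hGv : ∀ i, G.eval (x i) = G.eval (x 0) * u i := by
    intro i
    rw [hu i, mul_div_cancel₀ _ (hG0 0)]
  -- the neighbours
  let Nb : Finset (Fin (2 * e + 1)) := (Finset.univ.erase 0).filter fun i => (u 0 : L) / u i ∈ F
  have hNb : e ≤ Nb.card := by
    by_contra hlt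
    push Not at hlt
    let Nc : Finset (Fin (2 * e + 1)) := (Finset.univ.erase 0).filter fun i =>
      ¬ (u 0 : L) / u i ∈ F
    have hcard : Nb.card + Nc.card = 2 * e := by
      have h1 := Finset.card_filter_add_card_filter_not
        (s := (Finset.univ.erase (0 : Fin (2 * e + 1)))) (fun i => (u 0 : L) / u i ∈ F)
      rw [Finset.card_erase_of_mem (Finset.mem_univ _), Finset.card_univ, Fintype.card_fin] at h1
      simpa using h1
    obtain ⟨S, hS, hSc⟩ := Finset.exists_subset_card_eq (s := Nc) (n := e + 1) (by omega)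
    have h0S : (0 : Fin (2 * e + 1)) ∉ S := by
      intro h
      have h1 := (Finset.mem_filter.1 (hS h)).1
      exact absurd rfl (Finset.mem_erase.1 h1).1
    let h : Fin (e + 2) ↪ Fin (2 * e + 1) :=
      ⟨Fin.cons 0 (fun i => S.orderEmbOfFin hSc i), by
        refine Fin.cons_injective_iff.2 ⟨?_, (S.orderEmbOfFin hSc).injective⟩
        rintro ⟨i, hi⟩
        apply h0S
        rw [← hi]
        exact Finset.orderEmbOfFin_mem S hSc i⟩
    have hh0 : h 0 = 0 := rfl
    have hhs : ∀ i : Fin (e + 1), h i.succ = S.orderEmbOfFin hSc i := fun i => rfl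
    obtain ⟨j, hj0, hj1⟩ := hH h (fun i => u (h i)) (fun i => huΓ _) (by
      have h1 := rel_values (fun i => x (h i)) (hx.comp h.injective) G hGe
      have h2 : G.eval (x 0) * ∑ i, Lagrange.nodalWeight Finset.univ (fun i => x (h i)) i *
          (u (h i) : L) = 0 := by
        rw [← h1, Finset.mul_sum]
        refine Finset.sum_congr rfl fun i _ => ?_
        rw [hGv (h i)]
        ring
      exact (mul_eq_zero.1 h2).resolve_left (hG0 0))
    obtain ⟨j', rfl⟩ := Fin.exists_succ_eq.2 hj0
    have h2 : h j'.succ ∈ Nc := by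
      rw [hhs]
      exact hS (Finset.orderEmbOfFin_mem S hSc j')
    apply (Finset.mem_filter.1 h2).2
    rw [hh0] at hj1
    exact Finset.mem_biUnion.2 ⟨h, Finset.mem_univ _, hj1⟩
  obtain ⟨J, hJ, hJc⟩ := Finset.exists_subset_card_eq hNb
  have h0J : (0 : Fin (2 * e + 1)) ∉ J := by
    intro h
    have h1 := (Finset.mem_filter.1 (hJ h)).1
    exact absurd rfl (Finset.mem_erase.1 h1).1
  let s : Finset (Fin (2 * e + 1)) := insert 0 J
  have hsc : s.card = e + 1 := by
    rw [Finset.card_insert_of_notMem h0J, hJc]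
  have hsF : ∀ i ∈ s, (u 0 : L) / u i ∈ F1 := by
    intro i hi
    rcases Finset.mem_insert.1 hi with rfl | hi
    · rw [div_self (u 0).ne_zero]
      exact Finset.mem_insert_self _ _
    · exact Finset.mem_insert_of_mem (Finset.mem_filter.1 (hJ hi)).2
  let q : Fin (2 * e + 1) → F1 := fun i =>
    if h : i ∈ s then ⟨(u 0 : L) / u i, hsF i h⟩ else ⟨1, Finset.mem_insert_self _ _⟩
  let G1 : L[X] := C (G.eval (x 0))⁻¹ * G
  have hG1 : G1 = Lagrange.interpolate s x (fun i => (q i : L)⁻¹) := by
    refine Lagrange.eq_interpolate_of_eval_eq _ hx.injOn ?_ ?_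
    · refine lt_of_le_of_lt Polynomial.degree_le_natDegree ?_
      rw [hsc]
      have h1 : G1.natDegree ≤ e := (Polynomial.natDegree_C_mul_le _ _).trans hGe
      exact_mod_cast Nat.lt_succ_of_le h1
    · intro i hi
      have h1 : (q i : L) = (u 0 : L) / u i := by
        simp only [q, dif_pos hi]
      rw [h1, hu0, Polynomial.eval_mul, Polynomial.eval_C, hGv i]
      have h2 := hG0 0
      have h3 := (u i).ne_zero
      field_simp
  have hmem : G1 ∈ 𝒢 := ⟨(s, q), hG1.symm⟩
  refine ⟨G1, hmem, ?_⟩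
  have h2 : G1.leadingCoeff = (G.eval (x 0))⁻¹ := by
    rw [Polynomial.leadingCoeff_mul, Polynomial.leadingCoeff_C, hGm.leadingCoeff, mul_one]
  show C (G1.leadingCoeff)⁻¹ * (C (G.eval (x 0))⁻¹ * G) = G
  rw [h2, ← mul_assoc, ← C_mul, inv_inv, mul_inv_cancel₀ (hG0 0), C_1, one_mul]

end Pool.Agent.Run7.h866.ZP
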