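import Pool.Agent.Run7.h866.ZP.Hits
import Pool.Agent.Run7.h866.ZP.Poly
import Pool.Agent.H39R3.Tor.SUnit

/-!
Numbers of bounded degree over a number field: all but finitely many of them are near to one of
`2 d + 1` given algebraic numbers (helper file).
-/

set_option autoImplicit false

namespace Pool.Agent.Run7.h866.ZP

open IsDedekindDomain NumberField Pool.Agent.Y910.Z

/-- If `t - a` is not a unit of the ring generated by `t` and `W` then `t` is near to `a`. -/
theorem near_of_not_bad' {K : Subfield ℂ} (W : Set ℂ) (hW : ∀ z ∈ W, IsAlgebraic K z)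
    {t a : ℂ} (ht : IsAlgebraic K t) (ha : a ∈ W) (hta : t ≠ a) (h : ¬ Bad W t a) :
    Near K W t a := by
  let k := algebraicClosure K ℂ
  let W' : Set k := {z | algebraMap k ℂ z ∈ W}
  let t' : k := ⟨t, mem_algebraicClosure_iff.2 ht⟩
  let a' : k := ⟨a, mem_algebraicClosure_iff.2 (hW a ha)⟩
  have hWim : algebraMap k ℂ '' W' = W := by
    ext z
    constructor
    · rintro ⟨w, hw, rfl⟩
      exact hw
    · intro hz
      exact ⟨⟨z, mem_algebraicClosure_iff.2 (hW z hz)⟩, hz, rfl⟩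
  have h1 : Near K (algebraMap k ℂ '' W') (algebraMap k ℂ t') (algebraMap k ℂ a') := by
    refine near_of_not_bad W' (t := t') (a := a') ha (fun h => hta (congrArg Subtype.val h)) ?_
    rintro ⟨-, hb⟩
    apply h
    refine ⟨hta, ?_⟩
    have h2 : algebraMap k ℂ (t' - a')⁻¹ ∈
        (Subring.closure (insert t' W')).map (algebraMap k ℂ) := ⟨_, hb, rfl⟩
    rw [RingHom.map_closure, Set.image_insert_eq, hWim, map_inv₀, map_sub] at h2
    exact h2
  rw [hWim] at h1
  exact h1

/-- A finite set of complex numbers can be replaced by a finite set of algebraic numbers. -/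
theorem exists_specialization (W : Finset ℂ) : ∃ W₁ : Finset ℂ, (∀ z ∈ W₁, IsAlgebraic ℚ z) ∧
    ∀ t a : ℂ, IsAlgebraic ℚ t → IsAlgebraic ℚ a → Bad (W : Set ℂ) t a →
      Bad (W₁ : Set ℂ) t a := by
  classical
  let Q := algebraicClosure ℚ ℂ
  have hac : IsAlgClosed Q := (algebraicClosure.isAlgClosure ℚ ℂ).isAlgClosed
  let A : Subalgebra Q ℂ := Algebra.adjoin Q (W : Set ℂ)
  have hft : Algebra.FiniteType Q A := (Subalgebra.fg_iff_finiteType A).1 ⟨W, rfl⟩
  obtain ⟨𝔪, h𝔪⟩ := Ideal.exists_maximal A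
  let _ : Field (A ⧸ 𝔪) := Ideal.Quotient.field 𝔪
  have hft' : Algebra.FiniteType Q (A ⧸ 𝔪) :=
    Algebra.FiniteType.of_surjective (Ideal.Quotient.mkₐ Q 𝔪)
      (Ideal.Quotient.mkₐ_surjective Q 𝔪)
  have hfin : Module.Finite Q (A ⧸ 𝔪) := finite_of_finite_type_of_isJacobsonRing Q (A ⧸ 𝔪)
  have hbij : Function.Bijective (algebraMap Q (A ⧸ 𝔪)) :=
    IsAlgClosed.algebraMap_bijective_of_isIntegral
  let e : Q ≃+* (A ⧸ 𝔪) := RingEquiv.ofBijective _ hbij
  let ρ : A →+* ℂ := (algebraMap Q ℂ).comp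
    ((e.symm : (A ⧸ 𝔪) →+* Q).comp (Ideal.Quotient.mk 𝔪))
  have hρQ : ∀ q : Q, ρ (algebraMap Q A q) = algebraMap Q ℂ q := by
    intro q
    have h1 : e q = Ideal.Quotient.mk 𝔪 (algebraMap Q A q) := rfl
    show algebraMap Q ℂ (e.symm (Ideal.Quotient.mk 𝔪 (algebraMap Q A q))) = _
    rw [← h1, e.symm_apply_apply]
  have hWA : ∀ z ∈ W, z ∈ A := fun z hz => Algebra.subset_adjoin hz
  let W₁ : Finset ℂ := W.attach.image fun z => ρ ⟨z.1, hWA z.1 z.2⟩
  have hρalg : ∀ z : A, IsAlgebraic ℚ (ρ z) := by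
    intro z
    exact mem_algebraicClosure_iff.1
      ((e.symm (Ideal.Quotient.mk 𝔪 z)).2)
  refine ⟨W₁, fun z hz => ?_, fun t a ht ha hb => ?_⟩
  · obtain ⟨w, -, rfl⟩ := Finset.mem_image.1 hz
    exact hρalg _
  · refine ⟨hb.1, ?_⟩
    let t' : Q := ⟨t, mem_algebraicClosure_iff.2 ht⟩
    let a' : Q := ⟨a, mem_algebraicClosure_iff.2 ha⟩
    have htA : t ∈ A := (algebraMap Q A t').2
    have hle : Subring.closure (insert t (W : Set ℂ)) ≤ A.toSubring := by
      rw [Subring.closure_le]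
      rintro z (rfl | hz)
      · exact htA
      · exact hWA z hz
    have key : ∀ (z : ℂ) (hz : z ∈ Subring.closure (insert t (W : Set ℂ))),
        ρ ⟨z, hle hz⟩ ∈ Subring.closure (insert t (W₁ : Set ℂ)) := by
      intro z hz
      have h1 : ∀ (z : ℂ) (_ : z ∈ Subring.closure (insert t (W : Set ℂ))) (hzA : z ∈ A),
          ρ ⟨z, hzA⟩ ∈ Subring.closure (insert t (W₁ : Set ℂ)) := by
        intro z hz
        refine Subring.closure_induction (p := fun z _ => ∀ hzA : z ∈ A,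
          ρ ⟨z, hzA⟩ ∈ Subring.closure (insert t (W₁ : Set ℂ))) ?_ ?_ ?_ ?_ ?_ ?_ hz
        · rintro z (rfl | hz) hzA
          · have h2 : (⟨z, hzA⟩ : A) = algebraMap Q A t' := rfl
            rw [h2, hρQ]
            exact Subring.subset_closure (Set.mem_insert _ _)
          · refine Subring.subset_closure (Set.mem_insert_of_mem _ ?_)
            exact Finset.mem_coe.2 (Finset.mem_image.2 ⟨⟨z, hz⟩, Finset.mem_attach _ _, rfl⟩)
        · intro hzA
          have h2 : (⟨0, hzA⟩ : A) = 0 := rfl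
          rw [h2, map_zero]
          exact zero_mem _
        · intro hzA
          have h2 : (⟨1, hzA⟩ : A) = 1 := rfl
          rw [h2, map_one]
          exact one_mem _
        · intro x y hx hy ihx ihy hzA
          have h2 : (⟨x + y, hzA⟩ : A) = ⟨x, hle hx⟩ + ⟨y, hle hy⟩ := rfl
          rw [h2, map_add]
          exact add_mem (ihx _) (ihy _)
        · intro x hx ihx hzA
          have h2 : (⟨-x, hzA⟩ : A) = -⟨x, hle hx⟩ := rfl
          rw [h2, map_neg]
          exact neg_mem (ihx _)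
        · intro x y hx hy ihx ihy hzA
          have h2 : (⟨x * y, hzA⟩ : A) = ⟨x, hle hx⟩ * ⟨y, hle hy⟩ := rfl
          rw [h2, map_mul]
          exact mul_mem (ihx _) (ihy _)
      exact h1 z hz _
    have h1 := key _ hb.2
    have h2 : ρ ⟨(t - a)⁻¹, hle hb.2⟩ * (t - a) = 1 := by
      have h3 : (t - a) = ρ (algebraMap Q A (t' - a')) := by
        rw [hρQ, map_sub]
        rfl
      have h4 : (⟨(t - a)⁻¹, hle hb.2⟩ : A) * algebraMap Q A (t' - a') = 1 := by
        apply Subtype.ext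
        show (t - a)⁻¹ * (t - a) = 1
        exact inv_mul_cancel₀ (sub_ne_zero.2 hb.1)
      calc ρ ⟨(t - a)⁻¹, hle hb.2⟩ * (t - a)
          = ρ ⟨(t - a)⁻¹, hle hb.2⟩ * ρ (algebraMap Q A (t' - a')) := by rw [← h3]
        _ = 1 := by rw [← map_mul, h4, map_one]
    have h3 : (t - a)⁻¹ = ρ ⟨(t - a)⁻¹, hle hb.2⟩ := (eq_inv_of_mul_eq_one_left h2).symm
    rw [h3]
    exact h1

/-- Elements of a number field which are integral at all valuation rings of `ℂ` containing a finite
set. -/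
theorem val_of_all {L : IntermediateField ℚ ℂ} [NumberField L] (S : Set L) (x : L)
    (h : ∀ V : ValuationSubring ℂ, (∀ z ∈ S, (z : ℂ) ∈ V) → (x : ℂ) ∈ V)
    (v : HeightOneSpectrum (𝓞 L)) (hv : ∀ z ∈ S, v.valuation L z ≤ 1) :
    v.valuation L x ≤ 1 := by
  let A := Subring.closure S
  have h0 : Subring.closure (algebraMap L ℂ '' S) = A.map (algebraMap L ℂ) :=
    (RingHom.map_closure _ _).symm
  have h1 : algebraMap L ℂ x ∈ (integralClosure (A.map (algebraMap L ℂ)) ℂ).toSubring := by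
    rw [← h0, ← iInf_valuationSubring_superset, Subring.mem_iInf]
    rintro ⟨V, hV⟩
    exact h V fun z hz => hV ⟨z, hz, rfl⟩
  obtain ⟨p, hp, hpx⟩ := h1
  let e := A.equivMapOfInjective (algebraMap L ℂ) (algebraMap L ℂ).injective
  have h2 : IsIntegral A x := by
    refine ⟨p.map (e.symm : _ →+* A), hp.map _, ?_⟩
    apply (algebraMap L ℂ).injective
    rw [map_zero, Polynomial.eval₂_map, Polynomial.hom_eval₂, ← hpx]
    congr 1
    refine RingHom.ext fun z => ?_
    obtain ⟨w, rfl⟩ := e.surjective z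
    change algebraMap L ℂ ((e.symm (e w) : A) : L) = _
    rw [e.symm_apply_apply]
    rfl
  have h3 : A ≤ (v.valuation L).integer := Subring.closure_le.2 fun z hz => hv z hz
  have h4 : IsIntegral (v.valuation L).integer x := by
    obtain ⟨p, hp, hpx⟩ := h2
    refine ⟨p.map (Subring.inclusion h3), hp.map _, ?_⟩
    rw [Polynomial.eval₂_map]
    exact hpx
  exact (Valuation.integer.integers (v.valuation L)).mem_of_integral h4

/-- conjugates of exceptional parameters -/
theorem Bad.conj {L : IntermediateField ℚ ℂ} {W : Set ℂ} (hW : ∀ z ∈ W, z ∈ L) {t a t' : ℂ}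
    (ht : IsIntegral L t) (ha : a ∈ L) (hroot : Polynomial.aeval t' (minpoly L t) = 0)
    (h : Bad W t a) : Bad W t' a := by
  classical
  -- the homomorphism
  let B := IntermediateField.adjoin L {t}
  have htB : t ∈ B := IntermediateField.mem_adjoin_simple_self L t
  obtain ⟨φ, hφ⟩ : ∃ φ : B →ₐ[L] ℂ, φ ⟨t, htB⟩ = t' := by
    let pb := IntermediateField.adjoin.powerBasis ht
    have hgen : pb.gen = ⟨t, htB⟩ := IntermediateField.adjoin.powerBasis_gen ht
    have hmin : Polynomial.aeval t' (minpoly L pb.gen) = 0 := by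
      rw [hgen]
      have h1 : minpoly L (⟨t, htB⟩ : B) = minpoly L t := by
        have h2 := minpoly.algebraMap_eq (A := L) (B := B) (B' := ℂ)
          (algebraMap B ℂ).injective ⟨t, htB⟩
        exact h2.symm
      rw [h1]
      exact hroot
    exact ⟨pb.lift t' hmin, by rw [← hgen]; exact pb.lift_gen t' hmin⟩
  have hφL : ∀ (z : ℂ) (hz : z ∈ L) (hzB : z ∈ B), φ ⟨z, hzB⟩ = z := by
    intro z hz hzB
    have h1 : (⟨z, hzB⟩ : B) = algebraMap L B ⟨z, hz⟩ := rfl
    rw [h1, φ.commutes]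
    rfl
  have hLB : ∀ z ∈ L, z ∈ B := fun z hz => (algebraMap L B ⟨z, hz⟩).2
  have hle : Subring.closure (insert t W) ≤ B.toSubring := by
    rw [Subring.closure_le]
    rintro z (rfl | hz)
    · exact htB
    · exact hLB z (hW z hz)
  have key : ∀ (z : ℂ) (_ : z ∈ Subring.closure (insert t W)) (hzB : z ∈ B),
      φ ⟨z, hzB⟩ ∈ Subring.closure (insert t' W) := by
    intro z hz
    refine Subring.closure_induction (p := fun z _ => ∀ hzB : z ∈ B,
      φ ⟨z, hzB⟩ ∈ Subring.closure (insert t' W)) ?_ ?_ ?_ ?_ ?_ ?_ hz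
    · rintro z (rfl | hz) hzB
      · rw [hφ]
        exact Subring.subset_closure (Set.mem_insert _ _)
      · rw [hφL z (hW z hz)]
        exact Subring.subset_closure (Set.mem_insert_of_mem _ hz)
    · intro hzB
      have h2 : (⟨0, hzB⟩ : B) = 0 := rfl
      rw [h2, map_zero]
      exact zero_mem _
    · intro hzB
      have h2 : (⟨1, hzB⟩ : B) = 1 := rfl
      rw [h2, map_one]
      exact one_mem _
    · intro x y hx hy ihx ihy hzB
      have h2 : (⟨x + y, hzB⟩ : B) = ⟨x, hle hx⟩ + ⟨y, hle hy⟩ := rfl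
      rw [h2, map_add]
      exact add_mem (ihx _) (ihy _)
    · intro x hx ihx hzB
      have h2 : (⟨-x, hzB⟩ : B) = -⟨x, hle hx⟩ := rfl
      rw [h2, map_neg]
      exact neg_mem (ihx _)
    · intro x y hx hy ihx ihy hzB
      have h2 : (⟨x * y, hzB⟩ : B) = ⟨x, hle hx⟩ * ⟨y, hle hy⟩ := rfl
      rw [h2, map_mul]
      exact mul_mem (ihx _) (ihy _)
  have h1 := key _ h.2 (hle h.2)
  have h2 : φ ⟨(t - a)⁻¹, hle h.2⟩ * (t' - a) = 1 := by
    have h3 : t' - a = φ (⟨t, htB⟩ - ⟨a, hLB a ha⟩) := by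
      rw [map_sub, hφ, hφL a ha]
    rw [h3, ← map_mul]
    have h4 : (⟨(t - a)⁻¹, hle h.2⟩ : B) * (⟨t, htB⟩ - ⟨a, hLB a ha⟩) = 1 := by
      apply Subtype.ext
      show (t - a)⁻¹ * (t - a) = 1
      exact inv_mul_cancel₀ (sub_ne_zero.2 h.1)
    rw [h4, map_one]
  refine ⟨?_, ?_⟩
  · rintro rfl
    rw [sub_self, mul_zero] at h2
    exact zero_ne_one h2
  · have h3 : (t' - a)⁻¹ = φ ⟨(t - a)⁻¹, hle h.2⟩ := (eq_inv_of_mul_eq_one_left h2).symm
    rw [h3]
    exact h1

/-- The complex numbers of degree at most `d` over the field generated by `F`. -/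
def degreeAtMost (F : Finset ℂ) (d : ℕ) : Set ℂ :=
  {t | ∃ f : Polynomial ℂ, f ≠ 0 ∧ f.natDegree ≤ d ∧
    (∀ j, f.coeff j ∈ Subfield.closure (F : Set ℂ)) ∧ f.eval t = 0}

/-- Finitely many exceptions for numbers of bounded degree. -/
theorem finite_bad_degree (F W I : Finset ℂ) (hF : ∀ z ∈ F, IsAlgebraic ℚ z)
    (hW : ∀ z ∈ W, IsAlgebraic ℚ z) (hI : ∀ z ∈ I, IsAlgebraic ℚ z) (d : ℕ)
    (hc : 2 * d + 1 ≤ I.card) :
    {t : ℂ | t ∈ degreeAtMost F d ∧ ∀ a ∈ I, Bad (W : Set ℂ) t a}.Finite := by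
  classical
  -- the number field
  let L : IntermediateField ℚ ℂ := IntermediateField.adjoin ℚ ((F ∪ W ∪ I : Finset ℂ) : Set ℂ)
  have hfd : FiniteDimensional ℚ L := by
    refine IntermediateField.finiteDimensional_adjoin fun x hx => ?_
    rw [Finset.mem_coe, Finset.mem_union, Finset.mem_union] at hx
    rcases hx with (hx | hx) | hx
    · exact (hF x hx).isIntegral
    · exact (hW x hx).isIntegral
    · exact (hI x hx).isIntegral
  have hnf : NumberField L := ⟨⟩
  have hsub : ∀ z ∈ F ∪ W ∪ I, z ∈ L := fun z hz => IntermediateField.subset_adjoin _ _ hz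
  have hFL : Subfield.closure (F : Set ℂ) ≤ L.toSubfield := by
    rw [Subfield.closure_le]
    intro z hz
    exact hsub z (Finset.mem_union_left _ (Finset.mem_union_left _ hz))
  have hWL : ∀ z ∈ (W : Set ℂ), z ∈ L := fun z hz =>
    hsub z (Finset.mem_union_left _ (Finset.mem_union_right _ hz))
  have hIL : ∀ z ∈ I, z ∈ L := fun z hz => hsub z (Finset.mem_union_right _ hz)
  -- the places
  let S₁ : Set L := {z | (z : ℂ) ∈ W ∪ I}
  have hS₁ : S₁.Finite := by
    have h1 : S₁ = (algebraMap L ℂ) ⁻¹' ((W ∪ I : Finset ℂ) : Set ℂ) := rfl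
    rw [h1]
    exact (Finset.finite_toSet _).preimage (algebraMap L ℂ).injective.injOn
  let S : Set (HeightOneSpectrum (𝓞 L)) := ⋃ z ∈ S₁, {v | 1 < v.valuation L z}
  have hSfin : S.Finite := Set.Finite.biUnion hS₁ fun z _ =>
    HeightOneSpectrum.Support.finite (𝓞 L) z
  have hΓ := Pool.Agent.H39R3.Tor.sunit_fg L S hSfin
  let xs : ∀ (e : ℕ) (g : Fin (2 * e + 1) ↪ I), Fin (2 * e + 1) → L := fun e g i =>
    ⟨(g i : ℂ), hIL _ (g i).2⟩
  have hxs : ∀ e g, Function.Injective (xs e g) := by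
    intro e g i j h
    have h1 : ((g i : I) : ℂ) = (g j : I) := congrArg (fun z : L => (z : ℂ)) h
    exact g.injective (Subtype.ext h1)
  have hfin := Set.finite_iUnion fun e : Fin (d + 1) => Set.finite_iUnion
    fun g : Fin (2 * (e : ℕ) + 1) ↪ I =>
      (finite_poly (S.unit L) hΓ (e : ℕ) (xs e g) (hxs e g)).biUnion
        (t := fun G => {t : ℂ | Polynomial.aeval t G = 0 ∧ G.Monic})
        (fun G hG => by
          refine ((G.aroots ℂ).toFinset.finite_toSet).subset ?_
          rintro t ⟨ht, hGm⟩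
          rw [Finset.mem_coe, Multiset.mem_toFinset, Polynomial.mem_aroots]
          exact ⟨hGm.ne_zero, ht⟩)
  refine hfin.subset ?_
  rintro t ⟨⟨f, hf0, hfd', hfc, hft⟩, hbad⟩
  -- the minimal polynomial
  obtain ⟨f', hf'⟩ : ∃ f' : Polynomial L, f'.map (algebraMap L ℂ) = f := by
    have h1 : f ∈ Polynomial.lifts (algebraMap L ℂ) := by
      rw [Polynomial.lifts_iff_coeff_lifts]
      intro j
      exact ⟨⟨f.coeff j, hFL (hfc j)⟩, rfl⟩
    exact (Polynomial.mem_lifts _).1 h1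
  have hf'0 : f' ≠ 0 := by
    rintro rfl
    rw [Polynomial.map_zero] at hf'
    exact hf0 hf'.symm
  have hf't : Polynomial.aeval t f' = 0 := by
    rw [← Polynomial.eval_map_algebraMap, hf']
    exact hft
  have hti : IsIntegral L t := (show IsAlgebraic L t from ⟨f', hf'0, hf't⟩).isIntegral
  let G := minpoly L t
  have hGm : G.Monic := minpoly.monic hti
  have hGd : G.natDegree ≤ d := by
    have h1 : f'.natDegree = f.natDegree := by
      rw [← hf', Polynomial.natDegree_map]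
    exact (Polynomial.natDegree_le_natDegree (minpoly.degree_le_of_ne_zero L t hf'0 hf't)).trans
      (h1.trans_le hfd')
  -- the values
  have hsplit : (G.map (algebraMap L ℂ)).Splits := IsAlgClosed.splits _
  have hval : ∀ a : L, algebraMap L ℂ (G.eval a) =
      ((G.map (algebraMap L ℂ)).roots.map fun t' => (a : ℂ) - t').prod := by
    intro a
    have h1 : (G.map (algebraMap L ℂ)).eval (a : ℂ) = algebraMap L ℂ (G.eval a) :=
      Polynomial.eval_map_apply (algebraMap L ℂ) a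
    have h2 := Polynomial.Splits.eq_prod_roots_of_monic hsplit (hGm.map _)
    rw [← h1, h2, Polynomial.eval_multiset_prod, Multiset.map_map]
    simp
  have hroot : ∀ t' ∈ (G.map (algebraMap L ℂ)).roots, Polynomial.aeval t' G = 0 := by
    intro t' ht'
    rw [← Polynomial.eval_map_algebraMap]
    exact (Polynomial.mem_roots'.1 ht').2
  have hconj : ∀ t' ∈ (G.map (algebraMap L ℂ)).roots, ∀ a ∈ I, Bad (W : Set ℂ) t' a :=
    fun t' ht' a ha => Bad.conj hWL hti (hIL a ha) (hroot t' ht') (hbad a ha)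
  have hne : ∀ a : L, (a : ℂ) ∈ I → G.eval a ≠ 0 := by
    intro a ha h0
    have h1 := hval a
    rw [h0, map_zero] at h1
    have h2 := h1.symm
    rw [Multiset.prod_eq_zero_iff, Multiset.mem_map] at h2
    obtain ⟨t', ht', h3⟩ := h2
    exact (hconj t' ht' _ ha).1 (sub_eq_zero.1 h3).symm
  have hquot : ∀ (V : ValuationSubring ℂ), (∀ z ∈ S₁, (z : ℂ) ∈ V) → ∀ a b : L, (a : ℂ) ∈ I →
      (b : ℂ) ∈ I → ((G.eval a / G.eval b : L) : ℂ) ∈ V := by
    intro V hV a b ha hb
    have hVW : ∀ z ∈ (W : Set ℂ), z ∈ V := fun z hz =>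
      hV ⟨z, hWL z hz⟩ (Finset.mem_union_left _ hz)
    have hVa : (a : ℂ) ∈ V := hV a (Finset.mem_union_right _ ha)
    have hVb : (b : ℂ) ∈ V := hV b (Finset.mem_union_right _ hb)
    have h1 : ((G.eval a / G.eval b : L) : ℂ) =
        ((G.map (algebraMap L ℂ)).roots.map fun t' => ((a : ℂ) - t') / ((b : ℂ) - t')).prod := by
      have h2 : ((G.eval a / G.eval b : L) : ℂ) =
          algebraMap L ℂ (G.eval a) / algebraMap L ℂ (G.eval b) := map_div₀ (algebraMap L ℂ) _ _
      rw [h2, hval, hval, Multiset.prod_map_div]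
    rw [h1]
    refine Subring.multiset_prod_mem V.toSubring _ fun z hz => ?_
    obtain ⟨t', ht', rfl⟩ := Multiset.mem_map.1 hz
    have h3 := (ratio_unit V hVW (t := t') hVa hVb (hconj t' ht' _ ha) (hconj t' ht' _ hb)).1
    have h4 : ((a : ℂ) - t') / ((b : ℂ) - t') = (t' - a) / (t' - b) := by
      rw [← neg_sub t' (a : ℂ), ← neg_sub t' (b : ℂ), neg_div_neg_eq]
    rw [h4]
    exact h3
  obtain ⟨J, hJ, hJc⟩ := Finset.exists_subset_card_eq (s := I) (n := 2 * G.natDegree + 1) (by omega)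
  let g : Fin (2 * G.natDegree + 1) ↪ I :=
    ⟨fun i => ⟨(J.equivFinOfCardEq hJc).symm i, hJ ((J.equivFinOfCardEq hJc).symm i).2⟩, by
      intro i j h
      have h1 : (((J.equivFinOfCardEq hJc).symm i : J) : ℂ) = ((J.equivFinOfCardEq hJc).symm j : J) :=
        congrArg (fun z : I => (z : ℂ)) h
      exact (J.equivFinOfCardEq hJc).symm.injective (Subtype.ext h1)⟩
  refine Set.mem_iUnion.2 ⟨⟨G.natDegree, by omega⟩, Set.mem_iUnion.2 ⟨g, ?_⟩⟩
  refine Set.mem_biUnion (x := G) ?_ ⟨minpoly.aeval L t, hGm⟩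
  refine ⟨hGm, le_rfl, fun i => hne _ (g i).2, fun i => ?_⟩
  have hu0 : G.eval (xs _ g i) / G.eval (xs _ g 0) ≠ 0 :=
    div_ne_zero (hne _ (g i).2) (hne _ (g 0).2)
  refine ⟨Units.mk0 _ hu0, ?_, rfl⟩
  intro v hv
  have hvS : ∀ z ∈ S₁, v.valuation L z ≤ 1 := by
    intro z hz
    by_contra hcon
    exact hv (Set.mem_biUnion hz (not_le.1 hcon))
  refine le_antisymm ?_ ?_
  · exact val_of_all S₁ _ (fun V hV => hquot V hV (xs _ g i) (xs _ g 0) (g i).2 (g 0).2) v hvS
  · have h1 := val_of_all S₁ _ (fun V hV => hquot V hV (xs _ g 0) (xs _ g i) (g 0).2 (g i).2) v hvS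
    have h2 : G.eval (xs _ g 0) / G.eval (xs _ g i) =
        (G.eval (xs _ g i) / G.eval (xs _ g 0))⁻¹ := (inv_div _ _).symm
    rw [h2, map_inv₀] at h1
    have h3 : v.valuation L (G.eval (xs _ g i) / G.eval (xs _ g 0)) ≠ 0 :=
      (Valuation.ne_zero_iff _).2 hu0
    exact (inv_le_one₀ (zero_lt_iff.2 h3)).1 h1

/-- Numbers of bounded degree over a number field. -/
theorem hits_degree {K : Subfield ℂ} (F : Finset ℂ) (hF : ∀ z ∈ F, IsAlgebraic ℚ z)
    (I : Finset ℂ) (hI : ∀ z ∈ I, IsAlgebraic ℚ z) (d : ℕ) (hc : 2 * d + 1 ≤ I.card) :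
    Hits K (degreeAtMost F d) I := by
  classical
  intro W hW
  obtain ⟨W₁, hW₁, hbad⟩ := exists_specialization (W ∪ I)
  refine (I.finite_toSet.union (finite_bad_degree F W₁ I hF hW₁ hI d hc)).subset ?_
  rintro t ⟨ht, hno⟩
  by_cases htI : t ∈ I
  · exact Or.inl htI
  refine Or.inr ⟨ht, fun a ha => ?_⟩
  have hta : IsAlgebraic ℚ t := by
    obtain ⟨f, hf0, -, hfc, hft⟩ := ht
    have hle : Subfield.closure (F : Set ℂ) ≤ (algebraicClosure ℚ ℂ).toSubfield := by
      rw [Subfield.closure_le]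
      intro z hz
      exact mem_algebraicClosure_iff.2 (hF z hz)
    have h1 : f ∈ Polynomial.lifts (algebraMap (algebraicClosure ℚ ℂ) ℂ) := by
      rw [Polynomial.lifts_iff_coeff_lifts]
      intro j
      exact ⟨⟨f.coeff j, hle (hfc j)⟩, rfl⟩
    obtain ⟨f', hf'⟩ := (Polynomial.mem_lifts _).1 h1
    have h2 : IsAlgebraic (algebraicClosure ℚ ℂ) t := by
      refine ⟨f', ?_, ?_⟩
      · rintro rfl
        rw [Polynomial.map_zero] at hf'
        exact hf0 hf'.symm
      · rw [← Polynomial.eval_map_algebraMap, hf']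
        exact hft
    have h3 : Algebra.IsAlgebraic ℚ (algebraicClosure ℚ ℂ) := algebraicClosure.isAlgebraic ℚ ℂ
    exact h2.restrictScalars ℚ
  refine hbad t a hta (hI a ha) ?_
  by_contra hb
  refine hno a ha ((near_of_not_bad' ((W ∪ I : Finset ℂ) : Set ℂ) ?_ ?_ ?_ ?_ hb).mono ?_)
  · intro z hz
    rw [Finset.mem_coe, Finset.mem_union] at hz
    rcases hz with hz | hz
    · exact hW z hz
    · exact (hI z hz).tower_top K
  · exact hta.tower_top K
  · rw [Finset.mem_coe]
    exact Finset.mem_union_right _ ha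
  · rintro rfl
    exact htI ha
  · intro z hz
    rw [Finset.mem_coe] at hz ⊢
    exact Finset.mem_union_left _ hz

end Pool.Agent.Run7.h866.ZP
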