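import Pool.Agent.Run7.h866.ZP.Master

/-!
Sets of parameters which are near to one of given numbers: finitely generated fields and rings, and
images of such sets under rational functions (helper file).
-/

set_option autoImplicit false

namespace Pool.Agent.Run7.h866.ZP

open MvPolynomial Pool.Agent.Y910.Z
open Pool.Agent.R424.MX (exists_placeU)

/-- If `t - a` is not a unit of the ring generated by `t` and `W` then `t` is near to `a`. -/
theorem near_of_not_bad {K : Subfield ℂ} (W : Set (algebraicClosure K ℂ))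
    {t a : algebraicClosure K ℂ} (ha : a ∈ W) (hta : t ≠ a) (h : ¬ Bad W t a) :
    Near K (algebraMap (algebraicClosure K ℂ) ℂ '' W) (algebraMap (algebraicClosure K ℂ) ℂ t)
      (algebraMap (algebraicClosure K ℂ) ℂ a) := by
  intro ρ x hx
  obtain ⟨V, h1, h2, h3⟩ := exists_placeU W ha hta h x (hx.extendScalars (algebraicClosure K ℂ))
  refine ⟨V, ?_, ?_, h3⟩
  · rw [map_sub] at h1
    exact h1
  · rintro _ ⟨z, hz, rfl⟩
    exact h2 z hz

/-- Finitely many exceptions in the algebraic closure give `Hits`. -/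
theorem hits_of_bad {K : Subfield ℂ} (T : Set ℂ) (T' : Set (algebraicClosure K ℂ))
    (hT : ∀ t ∈ T, ∃ t' ∈ T', algebraMap (algebraicClosure K ℂ) ℂ t' = t) (I : Finset ℂ)
    (hI : ∀ α ∈ I, IsAlgebraic K α)
    (h : ∀ W I' : Finset (algebraicClosure K ℂ), I'.card = I.card →
      (∀ a ∈ I', algebraMap (algebraicClosure K ℂ) ℂ a ∈ I) →
      {t : algebraicClosure K ℂ | t ∈ T' ∧
        ∀ a ∈ I', Bad (W : Set (algebraicClosure K ℂ)) t a}.Finite) :
    Hits K T I := by
  classical
  intro W hW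
  obtain ⟨W', hW', hW'im⟩ := exists_lift K W hW
  obtain ⟨I', hI', hI'im⟩ := exists_lift K I hI
  have hcard : I'.card = I.card := by
    rw [← Finset.card_image_of_injective _ (algebraMap (algebraicClosure K ℂ) ℂ).injective]
    congr 1
    ext z
    rw [← Finset.mem_coe, Finset.coe_image, hI'im, Finset.mem_coe]
  have h1 := h (W' ∪ I') I' hcard fun a ha => (hI' a).1 ha
  refine (I.finite_toSet.union (h1.image (algebraMap (algebraicClosure K ℂ) ℂ))).subset ?_
  rintro t ⟨ht, hno⟩
  by_cases htI : t ∈ I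
  · exact Or.inl htI
  right
  obtain ⟨t', ht', rfl⟩ := hT t ht
  refine ⟨t', ⟨ht', fun a ha => ?_⟩, rfl⟩
  by_contra hb
  refine hno _ ((hI' a).1 ha) ?_
  refine (near_of_not_bad ((W' ∪ I' : Finset _) : Set (algebraicClosure K ℂ)) (a := a) ?_ ?_
    hb).mono ?_
  · rw [Finset.mem_coe]
    exact Finset.mem_union_right _ ha
  · rintro rfl
    exact htI ((hI' t').1 ha)
  · rw [← hW'im]
    refine Set.image_mono ?_
    intro z hz
    rw [Finset.mem_coe] at hz ⊢
    exact Finset.mem_union_left _ hz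

/-- Finitely generated fields. -/
theorem hits_field {K : Subfield ℂ} (F : Finset ℂ) (hF : ∀ z ∈ F, IsAlgebraic K z) (I : Finset ℂ)
    (hI : ∀ α ∈ I, IsAlgebraic K α) (hc : 3 ≤ I.card) :
    Hits K (Subfield.closure (F : Set ℂ) : Set ℂ) I := by
  classical
  have hcl : IsAlgClosure K (algebraicClosure K ℂ) := inferInstance
  have hac : IsAlgClosed (algebraicClosure K ℂ) := hcl.isAlgClosed
  obtain ⟨F', -, hF'⟩ := exists_lift K F hF
  refine hits_of_bad _ {t | t ∈ Subfield.closure (F' : Set (algebraicClosure K ℂ))} ?_ I hI ?_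
  · intro t ht
    rw [SetLike.mem_coe, ← hF', ← RingHom.map_field_closure] at ht
    exact Subfield.mem_map.1 ht
  · intro W I' hcard _
    obtain ⟨a, b, c, ha, hb, hc', hab, hac', hbc⟩ := Finset.two_lt_card_iff.1
      (show 2 < I'.card by omega)
    refine (fin_field W F' hab hac' hbc).subset ?_
    rintro t ⟨ht, hbad⟩
    exact ⟨ht, hbad a ha, hbad b hb, hbad c hc'⟩

/-- Finitely generated rings. -/
theorem hits_ring {K : Subfield ℂ} (F : Finset ℂ) (hF : ∀ z ∈ F, IsAlgebraic K z) (I : Finset ℂ)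
    (hI : ∀ α ∈ I, IsAlgebraic K α) (hc : 2 ≤ I.card) :
    Hits K (Subring.closure (F : Set ℂ) : Set ℂ) I := by
  classical
  have hcl : IsAlgClosure K (algebraicClosure K ℂ) := inferInstance
  have hac : IsAlgClosed (algebraicClosure K ℂ) := hcl.isAlgClosed
  obtain ⟨F', -, hF'⟩ := exists_lift K F hF
  refine hits_of_bad _ {t | t ∈ Subring.closure (F' : Set (algebraicClosure K ℂ))} ?_ I hI ?_
  · intro t ht
    rw [SetLike.mem_coe, ← hF', ← RingHom.map_closure] at ht
    exact Subring.mem_map.1 ht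
  · intro W I' hcard _
    obtain ⟨a, ha, b, hb, hab⟩ := Finset.one_lt_card.1 (show 1 < I'.card by omega)
    refine (fin_ring W F' hab).subset ?_
    rintro t ⟨ht, hbad⟩
    exact ⟨ht, hbad a ha, hbad b hb⟩

/-- Groups of units of finitely generated rings. -/
theorem hits_units {K : Subfield ℂ} (F : Finset ℂ) (hF : ∀ z ∈ F, IsAlgebraic K z) (I : Finset ℂ)
    (hI : ∀ α ∈ I, IsAlgebraic K α) (hc : ∃ α ∈ I, α ≠ 0) :
    Hits K {t : ℂ | t ∈ Subring.closure (F : Set ℂ) ∧ t ≠ 0 ∧ t⁻¹ ∈ Subring.closure (F : Set ℂ)}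
      I := by
  classical
  have hcl : IsAlgClosure K (algebraicClosure K ℂ) := inferInstance
  have hac : IsAlgClosed (algebraicClosure K ℂ) := hcl.isAlgClosed
  obtain ⟨α, hα, hα0⟩ := hc
  obtain ⟨F', -, hF'⟩ := exists_lift K F hF
  refine Hits.mono (T' := {t : ℂ | t ∈ Subring.closure (F : Set ℂ) ∧ t ≠ 0 ∧
    t⁻¹ ∈ Subring.closure (F : Set ℂ)}) (J := {α}) subset_rfl
    (Finset.singleton_subset_iff.2 hα) ?_
  refine hits_of_bad _ {t | t ∈ Subring.closure (F' : Set (algebraicClosure K ℂ)) ∧ t ≠ 0 ∧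
    t⁻¹ ∈ Subring.closure (F' : Set (algebraicClosure K ℂ))} ?_ {α}
    (by simpa using hI α hα) ?_
  · rintro t ⟨ht, ht0, hti⟩
    rw [← hF', ← RingHom.map_closure] at ht hti
    obtain ⟨t', ht', rfl⟩ := Subring.mem_map.1 ht
    obtain ⟨t'', ht'', he⟩ := Subring.mem_map.1 hti
    have h0 : t' ≠ 0 := fun h => ht0 (by rw [h, map_zero])
    have h1 : t'' = t'⁻¹ := (algebraMap (algebraicClosure K ℂ) ℂ).injective (by rw [he, map_inv₀])
    exact ⟨t', ⟨ht', h0, h1 ▸ ht''⟩, rfl⟩
  · intro W I' hcard hI'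
    obtain ⟨a, ha⟩ := Finset.card_pos.1 (show 0 < I'.card by rw [hcard]; simp)
    have ha0 : a ≠ 0 := by
      rintro rfl
      have h1 := hI' _ ha
      rw [map_zero, Finset.mem_singleton] at h1
      exact hα0 h1.symm
    refine (fin_ring (W ∪ F') F' ha0).subset ?_
    rintro t ⟨⟨ht, ht0, hti⟩, hbad⟩
    refine ⟨ht, (hbad a ha).mono ?_, ht0, ?_⟩
    · intro z hz
      rw [Finset.mem_coe] at hz ⊢
      exact Finset.mem_union_left _ hz
    · rw [sub_zero]
      refine Subring.closure_mono ?_ hti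
      intro z hz
      refine Set.mem_insert_of_mem _ ?_
      rw [Finset.mem_coe] at hz ⊢
      exact Finset.mem_union_right _ hz

/-- the value of a polynomial in a valuation ring -/
theorem eval_mem (V : ValuationSubring ℂ) (P : Polynomial ℂ) (hP : ∀ j, P.coeff j ∈ V) {s : ℂ}
    (hs : s ∈ V) : P.eval s ∈ V := by
  rw [Polynomial.eval_eq_sum_range]
  exact sum_mem fun i _ => mul_mem (hP i) (pow_mem hs i)

/-- the values of a polynomial at two near numbers are near -/
theorem eval_near (V : ValuationSubring ℂ) (P : Polynomial ℂ) (hP : ∀ j, P.coeff j ∈ V) {s β : ℂ}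
    (hs : s ∈ V) (hβ : β ∈ V) (h : V.valuation (s - β) < 1) :
    V.valuation (P.eval s - P.eval β) < 1 := by
  have h1 : ∀ i : ℕ, ∃ c ∈ V, s ^ i - β ^ i = c * (s - β) := by
    intro i
    induction i with
    | zero => exact ⟨0, zero_mem _, by simp⟩
    | succ i ih =>
      obtain ⟨c, hc, he⟩ := ih
      refine ⟨s ^ i + β * c, add_mem (pow_mem hs i) (mul_mem hβ hc), ?_⟩
      linear_combination β * he
  choose c hc he using h1
  have h2 : P.eval s - P.eval β =
      (∑ i ∈ Finset.range (P.natDegree + 1), P.coeff i * c i) * (s - β) := by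
    rw [Polynomial.eval_eq_sum_range, Polynomial.eval_eq_sum_range, ← Finset.sum_sub_distrib,
      Finset.sum_mul]
    refine Finset.sum_congr rfl fun i _ => ?_
    rw [← mul_sub, he i]
    ring
  rw [h2, map_mul]
  have h3 : V.valuation (∑ i ∈ Finset.range (P.natDegree + 1), P.coeff i * c i) ≤ 1 :=
    (ValuationSubring.valuation_le_one_iff _ _).2 (sum_mem fun i _ => mul_mem (hP i) (hc i))
  exact (mul_le_of_le_one_left' h3).trans_lt h

/-- `t` is the value of the rational function `P / Q` at `s`. -/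
def IsValue (P Q : Polynomial ℂ) (s t : ℂ) : Prop :=
  Q.eval s ≠ 0 ∧ t * Q.eval s = P.eval s

/-- If `s` is near to `β` then the value at `s` is near to the value at `β`. -/
theorem Near.value {K : Subfield ℂ} {P Q : Polynomial ℂ} {β α : ℂ} (hβα : IsValue P Q β α)
    {W : Set ℂ} {s t : ℂ} (hst : IsValue P Q s t)
    (h : Near K (W ∪ {z | (∃ j, z = P.coeff j) ∨ (∃ j, z = Q.coeff j) ∨ z = β ∨
      z = (Q.eval β)⁻¹}) s β) : Near K W t α := by
  intro ρ x hx
  obtain ⟨V, h1, h2, h3⟩ := h ρ x hx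
  refine ⟨V, ?_, fun z hz => h2 z (Or.inl hz), h3⟩
  have hP : ∀ j, P.coeff j ∈ V := fun j => h2 _ (Or.inr (Or.inl ⟨j, rfl⟩))
  have hQ : ∀ j, Q.coeff j ∈ V := fun j => h2 _ (Or.inr (Or.inr (Or.inl ⟨j, rfl⟩)))
  have hβ : β ∈ V := h2 _ (Or.inr (Or.inr (Or.inr (Or.inl rfl))))
  have hQi : (Q.eval β)⁻¹ ∈ V := h2 _ (Or.inr (Or.inr (Or.inr (Or.inr rfl))))
  have hs : s ∈ V := by
    have h4 : s - β ∈ V := (ValuationSubring.valuation_le_one_iff _ _).1 h1.le
    have h5 := add_mem h4 hβ
    rwa [sub_add_cancel] at h5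
  have hQβ : V.valuation (Q.eval β) = 1 := by
    refine le_antisymm ((ValuationSubring.valuation_le_one_iff _ _).2 (eval_mem V Q hQ hβ)) ?_
    have h4 := (ValuationSubring.valuation_le_one_iff _ _).2 hQi
    rw [map_inv₀] at h4
    have h5 : V.valuation (Q.eval β) ≠ 0 := (Valuation.ne_zero_iff _).2 hβα.1
    exact (inv_le_one₀ (zero_lt_iff.2 h5)).1 h4
  have hQs : V.valuation (Q.eval s) = 1 := by
    have h4 : Q.eval s = Q.eval β + (Q.eval s - Q.eval β) := by ring
    have h5 := eval_near V Q hQ hs hβ h1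
    rw [h4, Valuation.map_add_eq_of_lt_left _ (by rw [hQβ]; exact h5), hQβ]
  have h4 : (t - α) * (Q.eval s * Q.eval β) =
      (P.eval s - P.eval β) * Q.eval β - P.eval β * (Q.eval s - Q.eval β) := by
    have h5 := hst.2
    have h6 := hβα.2
    linear_combination Q.eval β * h5 - Q.eval s * h6
  have h5 : V.valuation ((t - α) * (Q.eval s * Q.eval β)) < 1 := by
    rw [h4]
    refine (Valuation.map_sub _ _ _).trans_lt (max_lt ?_ ?_)
    · rw [map_mul, hQβ, mul_one]
      exact eval_near V P hP hs hβ h1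
    · rw [map_mul]
      exact (mul_le_of_le_one_left'
        ((ValuationSubring.valuation_le_one_iff _ _).2 (eval_mem V P hP hβ))).trans_lt
        (eval_near V Q hQ hs hβ h1)
  rw [map_mul, map_mul, hQs, hQβ, mul_one, mul_one] at h5
  exact h5

end Pool.Agent.Run7.h866.ZP
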