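import Pool.Agent.Run7.h866.ZP.Hits

/-!
Parameters in the forward orbits of a semigroup of rational functions (helper file).
-/

set_option autoImplicit false

namespace Pool.Agent.Run7.h866.ZP

/-- `t` is the image of `s` under the composition of the rational functions `P i / Q i` for the
letters `i` of the word `w`; the last letter is applied first. All the intermediate values are
finite. -/
def Image {l : ℕ} (P Q : Fin l → Polynomial ℂ) : List (Fin l) → ℂ → ℂ → Prop
  | [], s, t => t = s
  | i :: w, s, t => ∃ u, Image P Q w s u ∧ IsValue (P i) (Q i) u t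

theorem Image.append {l : ℕ} {P Q : Fin l → Polynomial ℂ} {w w' : List (Fin l)} {s t : ℂ}
    (h : Image P Q (w ++ w') s t) : ∃ u, Image P Q w' s u ∧ Image P Q w u t := by
  induction w generalizing t with
  | nil => exact ⟨t, h, rfl⟩
  | cons i w ih =>
    obtain ⟨u, h1, h2⟩ := h
    obtain ⟨u', h3, h4⟩ := ih h1
    exact ⟨u', h3, u, h4, h2⟩

theorem algebraic_eval {K : Subfield ℂ} {P : Polynomial ℂ} (hP : ∀ j, IsAlgebraic K (P.coeff j))
    {s : ℂ} (hs : IsAlgebraic K s) : IsAlgebraic K (P.eval s) := by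
  have h1 : P.eval s ∈ algebraicClosure K ℂ := by
    rw [Polynomial.eval_eq_sum_range]
    exact sum_mem fun i _ => mul_mem (mem_algebraicClosure_iff.2 (hP i))
      (pow_mem (mem_algebraicClosure_iff.2 hs) i)
  exact mem_algebraicClosure_iff.1 h1

theorem IsValue.algebraic {K : Subfield ℂ} {P Q : Polynomial ℂ}
    (hP : ∀ j, IsAlgebraic K (P.coeff j)) (hQ : ∀ j, IsAlgebraic K (Q.coeff j)) {s t : ℂ}
    (hs : IsAlgebraic K s) (h : IsValue P Q s t) : IsAlgebraic K t := by
  have h1 : t = P.eval s / Q.eval s := (eq_div_iff h.1).2 h.2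
  have h2 : t ∈ algebraicClosure K ℂ := by
    rw [h1]
    exact div_mem (mem_algebraicClosure_iff.2 (algebraic_eval hP hs))
      (mem_algebraicClosure_iff.2 (algebraic_eval hQ hs))
  exact mem_algebraicClosure_iff.1 h2

theorem Image.algebraic {K : Subfield ℂ} {l : ℕ} {P Q : Fin l → Polynomial ℂ}
    (hP : ∀ i j, IsAlgebraic K ((P i).coeff j)) (hQ : ∀ i j, IsAlgebraic K ((Q i).coeff j))
    {w : List (Fin l)} {s t : ℂ} (hs : IsAlgebraic K s) (h : Image P Q w s t) :
    IsAlgebraic K t := by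
  induction w generalizing t with
  | nil =>
    have h1 : t = s := h
    rw [h1]
    exact hs
  | cons i w ih =>
    obtain ⟨u, h1, h2⟩ := h
    exact h2.algebraic (hP i) (hQ i) (ih h1)

/-- If `s` is near to `β` then the image of `s` is near to the image of `β`. -/
theorem near_image {K : Subfield ℂ} {l : ℕ} {P Q : Fin l → Polynomial ℂ}
    (hP : ∀ i j, IsAlgebraic K ((P i).coeff j)) (hQ : ∀ i j, IsAlgebraic K ((Q i).coeff j))
    (w : List (Fin l)) {β α : ℂ} (hβ : IsAlgebraic K β) (h : Image P Q w β α) (W : Finset ℂ)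
    (hW : ∀ z ∈ W, IsAlgebraic K z) : ∃ W' : Finset ℂ, (∀ z ∈ W', IsAlgebraic K z) ∧
      ∀ s t, Image P Q w s t → Near K (W' : Set ℂ) s β → Near K (W : Set ℂ) t α := by
  classical
  induction w generalizing α W with
  | nil =>
    refine ⟨W, hW, fun s t hst hn => ?_⟩
    have h1 : α = β := h
    have h2 : t = s := hst
    rw [h1, h2]
    exact hn
  | cons i w ih =>
    obtain ⟨u, h1, h2⟩ := h
    have hu : IsAlgebraic K u := h1.algebraic hP hQ hβ
    let W₁ : Finset ℂ := W ∪ ((P i).support.image (P i).coeff ∪ (Q i).support.image (Q i).coeff ∪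
      {0, u, ((Q i).eval u)⁻¹})
    obtain ⟨W', hW', hnear⟩ := ih h1 W₁ (by
      intro z hz
      simp only [W₁, Finset.mem_union, Finset.mem_image, Finset.mem_insert,
        Finset.mem_singleton] at hz
      rcases hz with hz | (⟨j, -, rfl⟩ | ⟨j, -, rfl⟩) | rfl | rfl | rfl
      · exact hW z hz
      · exact hP i j
      · exact hQ i j
      · exact isAlgebraic_zero
      · exact hu
      · exact (algebraic_eval (hQ i) hu).inv)
    refine ⟨W', hW', fun s t hst hn => ?_⟩
    obtain ⟨u', h3, h4⟩ := hst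
    refine Near.value h2 h4 ((hnear s u' h3 hn).mono ?_)
    have hcoef : ∀ R : Polynomial ℂ, ∀ j, R.coeff j = 0 ∨ R.coeff j ∈ R.support.image R.coeff := by
      intro R j
      by_cases hj : R.coeff j = 0
      · exact Or.inl hj
      · exact Or.inr (Finset.mem_image.2 ⟨j, Polynomial.mem_support_iff.2 hj, rfl⟩)
    intro z hz
    rw [Finset.mem_coe]
    simp only [W₁, Finset.mem_union, Finset.mem_insert, Finset.mem_singleton]
    rcases hz with hz | ⟨j, rfl⟩ | ⟨j, rfl⟩ | rfl | rfl
    · exact Or.inl hz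
    · rcases hcoef (P i) j with h5 | h5
      · exact Or.inr (Or.inr (Or.inl h5))
      · exact Or.inr (Or.inl (Or.inl h5))
    · rcases hcoef (Q i) j with h5 | h5
      · exact Or.inr (Or.inr (Or.inl h5))
      · exact Or.inr (Or.inl (Or.inr h5))
    · exact Or.inr (Or.inr (Or.inr (Or.inl rfl)))
    · exact Or.inr (Or.inr (Or.inr (Or.inr rfl)))

/-- `J` consists of preimages of elements of `I` under the word `w`. -/
def IsPreimageSet (K : Subfield ℂ) {l : ℕ} (P Q : Fin l → Polynomial ℂ) (w : List (Fin l))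
    (I J : Finset ℂ) : Prop :=
  ∀ β ∈ J, IsAlgebraic K β ∧ ∃ α ∈ I, Image P Q w β α

theorem hits_word {K : Subfield ℂ} {l : ℕ} {P Q : Fin l → Polynomial ℂ}
    (hP : ∀ i j, IsAlgebraic K ((P i).coeff j)) (hQ : ∀ i j, IsAlgebraic K ((Q i).coeff j))
    (w : List (Fin l)) {I J : Finset ℂ} (hJ : IsPreimageSet K P Q w I J) {S : Set ℂ}
    (h : Hits K S J) : Hits K {t | ∃ s ∈ S, Image P Q w s t} I := by
  classical
  intro W hW
  have h1 : ∀ β : J, ∃ W' : Finset ℂ, (∀ z ∈ W', IsAlgebraic K z) ∧ ∃ α ∈ I,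
      ∀ s t, Image P Q w s t → Near K (W' : Set ℂ) s β → Near K (W : Set ℂ) t α := by
    intro β
    obtain ⟨hβ, α, hα, him⟩ := hJ β β.2
    obtain ⟨W', hW', hn⟩ := near_image hP hQ w hβ him W hW
    exact ⟨W', hW', α, hα, hn⟩
  choose W' hW' α hα hn using h1
  have hfun : ∀ s t t' : ℂ, Image P Q w s t → Image P Q w s t' → t = t' := by
    intro s
    have : ∀ w : List (Fin l), ∀ t t' : ℂ, Image P Q w s t → Image P Q w s t' → t = t' := by
      intro w
      induction w with
      | nil =>
        intro t t' h1 h2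
        exact (show t = s from h1).trans (show t' = s from h2).symm
      | cons i w ih =>
        rintro t t' ⟨u, h1, h2⟩ ⟨u', h3, h4⟩
        have h5 := ih u u' h1 h3
        subst h5
        have h6 : (t - t') * (Q i).eval u = 0 := by
          rw [sub_mul, h2.2, h4.2, sub_self]
        rcases mul_eq_zero.1 h6 with h7 | h7
        · exact sub_eq_zero.1 h7
        · exact absurd h7 h2.1
    exact this w
  have hfin := h (Finset.univ.biUnion W') (by
    intro z hz
    obtain ⟨β, -, hβ⟩ := Finset.mem_biUnion.1 hz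
    exact hW' β z hβ)
  -- the images of the exceptional `s`
  let g : ℂ → ℂ := fun s => if hs : ∃ t, Image P Q w s t then hs.choose else 0
  have hg : ∀ s t, Image P Q w s t → g s = t := by
    intro s t hst
    have hs : ∃ t, Image P Q w s t := ⟨t, hst⟩
    have h2 : g s = hs.choose := dif_pos hs
    rw [h2]
    exact hfun s _ _ hs.choose_spec hst
  refine (hfin.image g).subset ?_
  rintro t ⟨⟨s, hs, hst⟩, hno⟩
  refine ⟨s, ⟨hs, fun β hβ hnear => ?_⟩, hg s t hst⟩
  refine hno _ (hα ⟨β, hβ⟩) (hn ⟨β, hβ⟩ s t hst (hnear.mono ?_))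
  intro z hz
  rw [Finset.mem_coe] at hz ⊢
  exact Finset.mem_biUnion.2 ⟨⟨β, hβ⟩, Finset.mem_univ _, hz⟩

/-- The forward orbits of the elements of `S`, from the length `r` on. -/
def orbits {l : ℕ} (P Q : Fin l → Polynomial ℂ) (r : ℕ) (S : Set ℂ) : Set ℂ :=
  {t | ∃ w : List (Fin l), r ≤ w.length ∧ ∃ s ∈ S, Image P Q w s t}

/-- Words of length `r` are sufficient for sets which are closed under the maps. -/
theorem hits_orbits {K : Subfield ℂ} {l : ℕ} {P Q : Fin l → Polynomial ℂ}
    (hP : ∀ i j, IsAlgebraic K ((P i).coeff j)) (hQ : ∀ i j, IsAlgebraic K ((Q i).coeff j))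
    (r : ℕ) {S S' : Set ℂ} (hSS : S ⊆ S')
    (hcl : ∀ s ∈ S', ∀ i t, IsValue (P i) (Q i) s t → t ∈ S') {I : Finset ℂ}
    (h : ∀ w : List (Fin l), w.length = r → ∃ J : Finset ℂ, IsPreimageSet K P Q w I J ∧
      Hits K S' J) : Hits K (orbits P Q r S) I := by
  classical
  have hcl' : ∀ w : List (Fin l), ∀ s ∈ S', ∀ t, Image P Q w s t → t ∈ S' := by
    intro w
    induction w with
    | nil =>
      intro s hs t h1
      rw [show t = s from h1]
      exact hs
    | cons i w ih =>
      rintro s hs t ⟨u, h1, h2⟩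
      exact hcl u (ih s hs u h1) i t h2
  have h1 : Hits K (⋃ v : List.Vector (Fin l) r, {t | ∃ s ∈ S', Image P Q v.1 s t}) I := by
    refine Hits.iUnion fun v => ?_
    obtain ⟨J, hJ, hh⟩ := h v.1 v.2
    exact hits_word hP hQ v.1 hJ hh
  refine Hits.mono ?_ subset_rfl h1
  rintro t ⟨w, hw, s, hs, hst⟩
  obtain ⟨u, h2, h3⟩ := Image.append (w := w.take r) (w' := w.drop r)
    (by rw [List.take_append_drop]; exact hst)
  exact Set.mem_iUnion.2 ⟨⟨w.take r, by rw [List.length_take]; omega⟩, u,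
    hcl' _ s (hSS hs) u h2, h3⟩

/-- finitely generated fields -/
theorem hits_orbits_field {K : Subfield ℂ} {l : ℕ} {P Q : Fin l → Polynomial ℂ}
    (hP : ∀ i j, IsAlgebraic K ((P i).coeff j)) (hQ : ∀ i j, IsAlgebraic K ((Q i).coeff j))
    (r : ℕ) (F : Finset ℂ) (hF : ∀ z ∈ F, IsAlgebraic K z) {I : Finset ℂ}
    (h : ∀ w : List (Fin l), w.length = r → ∃ J : Finset ℂ, IsPreimageSet K P Q w I J ∧
      3 ≤ J.card) :
    Hits K (orbits P Q r (Subfield.closure (F : Set ℂ) : Set ℂ)) I := by
  classical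
  let F' : Finset ℂ := F ∪ Finset.univ.biUnion fun i =>
    (P i).support.image (P i).coeff ∪ (Q i).support.image (Q i).coeff
  have hF' : ∀ z ∈ F', IsAlgebraic K z := by
    intro z hz
    simp only [F', Finset.mem_union, Finset.mem_biUnion, Finset.mem_univ, true_and,
      Finset.mem_image] at hz
    rcases hz with hz | ⟨i, ⟨j, -, rfl⟩ | ⟨j, -, rfl⟩⟩
    · exact hF z hz
    · exact hP i j
    · exact hQ i j
  have hcoef : ∀ R : Polynomial ℂ, (∀ z ∈ R.support.image R.coeff, z ∈ F') → ∀ j,
      R.coeff j ∈ Subfield.closure (F' : Set ℂ) := by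
    intro R hR j
    by_cases hj : R.coeff j = 0
    · rw [hj]
      exact zero_mem _
    · exact Subfield.subset_closure (Finset.mem_coe.2 (hR _
        (Finset.mem_image.2 ⟨j, Polynomial.mem_support_iff.2 hj, rfl⟩)))
  have heval : ∀ R : Polynomial ℂ, (∀ j, R.coeff j ∈ Subfield.closure (F' : Set ℂ)) → ∀ s,
      s ∈ Subfield.closure (F' : Set ℂ) → R.eval s ∈ Subfield.closure (F' : Set ℂ) := by
    intro R hR s hs
    rw [Polynomial.eval_eq_sum_range]
    exact sum_mem fun i _ => mul_mem (hR i) (pow_mem hs i)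
  refine hits_orbits hP hQ r (S' := (Subfield.closure (F' : Set ℂ) : Set ℂ)) ?_ ?_ ?_
  · exact Subfield.closure_mono (by
      intro z hz
      rw [Finset.mem_coe] at hz ⊢
      exact Finset.mem_union_left _ hz)
  · intro s hs i t hst
    have h1 : t = (P i).eval s / (Q i).eval s := (eq_div_iff hst.1).2 hst.2
    rw [h1]
    refine div_mem (heval _ (hcoef _ ?_) s hs) (heval _ (hcoef _ ?_) s hs)
    · intro z hz
      exact Finset.mem_union_right _ (Finset.mem_biUnion.2 ⟨i, Finset.mem_univ _,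
        Finset.mem_union_left _ hz⟩)
    · intro z hz
      exact Finset.mem_union_right _ (Finset.mem_biUnion.2 ⟨i, Finset.mem_univ _,
        Finset.mem_union_right _ hz⟩)
  · intro w hw
    obtain ⟨J, hJ, hc⟩ := h w hw
    exact ⟨J, hJ, hits_field F' hF' J (fun β hβ => (hJ β hβ).1) hc⟩

/-- finitely generated rings and polynomial maps -/
theorem hits_orbits_ring {K : Subfield ℂ} {l : ℕ} {P : Fin l → Polynomial ℂ}
    (hP : ∀ i j, IsAlgebraic K ((P i).coeff j))
    (r : ℕ) (F : Finset ℂ) (hF : ∀ z ∈ F, IsAlgebraic K z) {I : Finset ℂ}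
    (h : ∀ w : List (Fin l), w.length = r → ∃ J : Finset ℂ,
      IsPreimageSet K P (fun _ => 1) w I J ∧ 2 ≤ J.card) :
    Hits K (orbits P (fun _ => 1) r (Subring.closure (F : Set ℂ) : Set ℂ)) I := by
  classical
  have hQ : ∀ (i : Fin l) (j : ℕ), IsAlgebraic K (((fun _ => 1 : Fin l → Polynomial ℂ) i).coeff j) := by
    intro i j
    simp only [Polynomial.coeff_one]
    split_ifs
    · exact isAlgebraic_one
    · exact isAlgebraic_zero
  let F' : Finset ℂ := F ∪ Finset.univ.biUnion fun i => (P i).support.image (P i).coeff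
  have hF' : ∀ z ∈ F', IsAlgebraic K z := by
    intro z hz
    simp only [F', Finset.mem_union, Finset.mem_biUnion, Finset.mem_univ, true_and,
      Finset.mem_image] at hz
    rcases hz with hz | ⟨i, j, -, rfl⟩
    · exact hF z hz
    · exact hP i j
  refine hits_orbits hP hQ r (S' := (Subring.closure (F' : Set ℂ) : Set ℂ)) ?_ ?_ ?_
  · exact Subring.closure_mono (by
      intro z hz
      rw [Finset.mem_coe] at hz ⊢
      exact Finset.mem_union_left _ hz)
  · intro s hs i t hst
    have h1 : t = (P i).eval s := by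
      have h2 := hst.2
      rwa [Polynomial.eval_one, mul_one] at h2
    rw [h1, Polynomial.eval_eq_sum_range]
    refine sum_mem fun j _ => mul_mem ?_ (pow_mem hs j)
    by_cases hj : (P i).coeff j = 0
    · rw [hj]
      exact zero_mem _
    · exact Subring.subset_closure (Finset.mem_coe.2 (Finset.mem_union_right _
        (Finset.mem_biUnion.2 ⟨i, Finset.mem_univ _,
          Finset.mem_image.2 ⟨j, Polynomial.mem_support_iff.2 hj, rfl⟩⟩)))
  · intro w hw
    obtain ⟨J, hJ, hc⟩ := h w hw
    exact ⟨J, hJ, hits_ring F' hF' J (fun β hβ => (hJ β hβ).1) hc⟩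

end Pool.Agent.Run7.h866.ZP
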