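import Pool.Agent.R424.TG.Hdg
import Pool.Agent.Run7.h866.ZP.Master

/-!
Variations of (mixed) Hodge structure given by elliptic curves and invertible functions: the tropical
criterion for general sets of parameters (helper file).
-/

set_option autoImplicit false

namespace Pool.Agent.Run7.h866.ZP

open MvPolynomial Pool.Agent.R424.TG
open Pool.Agent.Y152.RP.FamM (evalAt)

/-- **The tropical criterion** for the period images of the members of a family. -/
theorem familyHodge (K : Subfield ℂ) [Countable K] (κ₀ κ : Type) [Finite κ] (n k N m : ℕ)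
    (P : κ₀ → MvPolynomial (Fin N) (Polynomial K))
    (A B : Fin n → MvPolynomial (Fin N) (Polynomial K))
    (U : Fin k → MvPolynomial (Fin N) (Polynomial K))
    (E : κ → MvPolynomial ((Fin n ⊕ Fin k) ⊕ Fin N) (Polynomial K))
    (hE : ∀ (t : ℂ) (s : Fin N → ℂ), OnS (evalAt K t) P A B U s → ∀ q,
      eval₂ (evalAt K t) (Sum.elim (period (evalAt K t) A B U s) s) (E q) = 0)
    (D : Finset ℂ) (hD : ∀ α ∈ D, IsAlgebraic K α) (Γ : Finset ℂ)
    (hΓ : ∀ γ ∈ Γ, IsAlgebraic K γ) (T : Set ℂ)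
    (hgen : ∀ (r : ℕ) (cls : Fin n → Option (Fin r)) (d : Fin n → ℕ)
      (L : Submodule ℚ (Fin k → ℚ)), (∀ i, 0 < d i) → r + Module.finrank ℚ L + m < n + k →
      ∃ I ⊆ D, Hits K T I ∧ ∀ α ∈ I, ∀ w ∈ Trop α E, ¬ Compatible cls d L w) :
    {t : ℂ | t ∈ T ∧ ¬ NoAtypicalHodge (algebraMap (Algebra.adjoin ℤ (Γ : Set ℂ)) ℂ) K m
      (image (evalAt K t) P A B U)}.Finite := by
  refine (family K κ n k N m E D hD Γ hΓ T hgen).subset ?_
  rintro t ⟨ht, hno⟩
  exact ⟨ht, fun h => hno (noAtypicalHodge_of h (image_subset t P A B _ E (hE t)))⟩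

end Pool.Agent.Run7.h866.ZP
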